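import Mathlib

set_option autoImplicit false

namespace Pool.Agent.Lib.MP_2c654c_co.Abs

open Finset Real

theorem hoeffding_fin {F : Type} [Fintype F] (y : F → ℝ) (s c : ℝ) (hc : 0 < c)
    (h0 : ∑ v, y v = 0) (hy : ∀ v, |y v| ≤ c) :
    ∑ v, exp (s * y v) ≤ Fintype.card F * exp (s ^ 2 * c ^ 2 / 2) := by
  have h1 : ∀ v, exp (s * y v) ≤ cosh (s * c) + y v / c * sinh (s * c) := by
    intro v
    have h2 := abs_le.1 (hy v)
    have h3 := convexOn_exp.2 (Set.mem_univ (s * c)) (Set.mem_univ (-(s * c)))
      (show 0 ≤ (c + y v) / (2 * c) from div_nonneg (by linarith) (by linarith))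
      (show 0 ≤ (c - y v) / (2 * c) from div_nonneg (by linarith) (by linarith))
      (by field_simp; ring)
    simp only [smul_eq_mul] at h3
    have h4 : (c + y v) / (2 * c) * (s * c) + (c - y v) / (2 * c) * -(s * c) = s * y v := by
      field_simp; ring
    rw [h4] at h3
    refine h3.trans (le_of_eq ?_)
    rw [cosh_eq, sinh_eq]; field_simp; ring
  refine (sum_le_sum fun v _ => h1 v).trans ?_
  rw [sum_add_distrib, ← sum_mul, ← sum_div, h0]
  simp only [sum_const, card_univ, nsmul_eq_mul, zero_div, zero_mul, add_zero]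
  have := cosh_le_exp_half_sq (s * c)
  rw [mul_pow] at this
  gcongr

theorem mcd_fin {F : Type} [Fintype F] [Nonempty F] (s c : ℝ) (hc : 0 < c) (n : ℕ) :
    ∀ X : (Fin n → F) → ℝ, (∀ ω x v, |X (Function.update ω x v) - X ω| ≤ c) →
      ∑ ω, exp (s * ((∑ η, X η) / Fintype.card (Fin n → F) - X ω)) ≤
        Fintype.card (Fin n → F) * exp (n * (s ^ 2 * c ^ 2 / 2)) := by
  induction n with
  | zero => intro X _; simp
  | succ n ih =>
    intro X hX
    have hs : ∀ g : (Fin (n + 1) → F) → ℝ, ∑ ω, g ω = ∑ v : F, ∑ ω : Fin n → F, g (Fin.cons v ω) := by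
      intro g
      rw [← (Fin.consEquiv fun _ => F).sum_comp, Fintype.sum_prod_type]; rfl
    have hF : (0 : ℝ) < Fintype.card F := by exact_mod_cast Fintype.card_pos
    have hN : (0 : ℝ) < Fintype.card (Fin n → F) := by exact_mod_cast Fintype.card_pos
    have hc' : (Fintype.card (Fin (n + 1) → F) : ℝ) = Fintype.card F * Fintype.card (Fin n → F) := by
      simp [pow_succ, mul_comm]
    let mv : F → ℝ := fun v => (∑ η : Fin n → F, X (Fin.cons v η)) / Fintype.card (Fin n → F)
    set m := (∑ η, X η) / Fintype.card (Fin (n + 1) → F) with hm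
    have hm' : m = (∑ v, mv v) / Fintype.card F := by
      rw [hm, hs, hc', ← sum_div]; field_simp
    have h1 : ∀ v v', |mv v - mv v'| ≤ c := by
      intro v v'
      simp only [mv]
      rw [← sub_div, ← sum_sub_distrib, abs_div, abs_of_pos hN, div_le_iff₀ hN]
      refine (abs_sum_le_sum_abs _ _).trans ((sum_le_card_nsmul _ _ c fun η _ => ?_).trans ?_)
      · have := hX (Fin.cons v' η) 0 v
        rwa [Fin.update_cons_zero] at this
      · simp [mul_comm]
    have h2 : ∀ v, |m - mv v| ≤ c := by
      intro v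
      have : m - mv v = (∑ v', (mv v' - mv v)) / Fintype.card F := by
        rw [hm', sum_sub_distrib]; simp; field_simp
      rw [this, abs_div, abs_of_pos hF, div_le_iff₀ hF]
      refine (abs_sum_le_sum_abs _ _).trans ((sum_le_card_nsmul _ _ c fun v' _ => h1 v' v).trans ?_)
      simp [mul_comm]
    have h3 := hoeffding_fin (fun v => m - mv v) s c hc
      (by rw [sum_sub_distrib, hm']; simp; field_simp; ring) h2
    rw [hs]
    calc _ ≤ ∑ v, exp (s * (m - mv v)) *
          (Fintype.card (Fin n → F) * exp (n * (s ^ 2 * c ^ 2 / 2))) := by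
          refine sum_le_sum fun v _ => ?_
          have h4 := ih (fun η => X (Fin.cons v η)) (fun ω x w => by
            have := hX (Fin.cons v ω) x.succ w
            rwa [← Fin.cons_update] at this)
          refine le_trans (le_of_eq ?_) (mul_le_mul_of_nonneg_left h4 (exp_pos _).le)
          rw [mul_sum]
          refine sum_congr rfl fun ω _ => ?_
          rw [← exp_add]; congr 1; simp only [mv]; ring
      _ ≤ Fintype.card F * exp (s ^ 2 * c ^ 2 / 2) *
          (Fintype.card (Fin n → F) * exp (n * (s ^ 2 * c ^ 2 / 2))) := by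
          rw [← sum_mul]; gcongr
      _ = _ := by
          rw [hc']; push_cast
          rw [add_mul, one_mul, exp_add]; ring

theorem mcd {P F : Type} [Fintype P] [DecidableEq P] [Fintype F] [Nonempty F] (s c : ℝ)
    (hc : 0 < c) (X : (P → F) → ℝ) (hX : ∀ ω x v, |X (Function.update ω x v) - X ω| ≤ c) :
    ∑ ω, exp (s * ((∑ η, X η) / Fintype.card (P → F) - X ω)) ≤
      Fintype.card (P → F) * exp (Fintype.card P * (s ^ 2 * c ^ 2 / 2)) := by
  let e := Fintype.equivFin P
  let E : (Fin (Fintype.card P) → F) ≃ (P → F) := (e.symm.arrowCongr (Equiv.refl F))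
  have h1 := mcd_fin s c hc (Fintype.card P) (fun ω => X (E ω)) (fun ω x v => by
    have : E (Function.update ω x v) = Function.update (E ω) (e.symm x) v := by
      exact Function.update_comp_equiv ω e x v
    rw [this]; exact hX _ _ _)
  rw [E.sum_comp X, Fintype.card_congr E] at h1
  rw [← E.sum_comp]; exact h1

theorem pick_fun {P F ι : Type} [Fintype P] [DecidableEq P] [Fintype F] [Nonempty F]
    (J : Finset ι) (X : ι → (P → F) → ℝ) (c : ι → ℝ) (hc : ∀ j ∈ J, 0 < c j)
    (hX : ∀ j ∈ J, ∀ ω x v, |X j (Function.update ω x v) - X j ω| ≤ c j) (l : ℝ) (hl : 0 ≤ l)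
    (hJ : J.card * exp (-(l ^ 2 * Fintype.card P / 2)) < 1) :
    ∃ ω, ∀ j ∈ J, (∑ η, X j η) / Fintype.card (P → F) - l * c j * Fintype.card P ≤ X j ω := by
  classical
  have hN : (0 : ℝ) < Fintype.card (P → F) := by exact_mod_cast Fintype.card_pos
  let B : ι → Finset (P → F) := fun j => univ.filter fun ω =>
    X j ω < (∑ η, X j η) / Fintype.card (P → F) - l * c j * Fintype.card P
  have h1 : ∀ j ∈ J, ((B j).card : ℝ) ≤
      Fintype.card (P → F) * exp (-(l ^ 2 * Fintype.card P / 2)) := by
    intro j hj
    have hc' := hc j hj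
    have h2 := mcd (l / c j) (c j) hc' (X j) (hX j hj)
    have h3 : ((B j).card : ℝ) * exp (l ^ 2 * Fintype.card P) ≤
        ∑ ω, exp (l / c j * ((∑ η, X j η) / Fintype.card (P → F) - X j ω)) := by
      rw [← nsmul_eq_mul, ← sum_const]
      refine (sum_le_sum fun ω hω => ?_).trans
        (sum_le_sum_of_subset_of_nonneg (subset_univ _) fun _ _ _ => (exp_pos _).le)
      have h4 := (mem_filter.1 hω).2
      refine exp_le_exp.2 ?_
      calc l ^ 2 * Fintype.card P = l / c j * (l * c j * Fintype.card P) := by field_simp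
        _ ≤ _ := mul_le_mul_of_nonneg_left (by linarith) (by positivity)
    have h4 : (Fintype.card P : ℝ) * ((l / c j) ^ 2 * c j ^ 2 / 2) =
        -(l ^ 2 * Fintype.card P / 2) + l ^ 2 * Fintype.card P := by field_simp; ring
    rw [h4, exp_add, ← mul_assoc] at h2
    exact le_of_mul_le_mul_right (h3.trans h2) (exp_pos _)
  have h2 : (J.biUnion B).card < (univ : Finset (P → F)).card := by
    have h3 : ((J.biUnion B).card : ℝ) ≤
        J.card * (Fintype.card (P → F) * exp (-(l ^ 2 * Fintype.card P / 2))) := by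
      refine le_trans (Nat.cast_le.2 card_biUnion_le) ?_
      push_cast
      exact (sum_le_card_nsmul _ _ _ h1).trans (by rw [nsmul_eq_mul])
    rw [card_univ]
    exact_mod_cast (show ((J.biUnion B).card : ℝ) < Fintype.card (P → F) by nlinarith)
  obtain ⟨ω, _, hω⟩ := exists_mem_notMem_of_card_lt_card h2
  refine ⟨ω, fun j hj => ?_⟩
  by_contra h
  exact hω (mem_biUnion.2 ⟨j, hj, mem_filter.2 ⟨mem_univ _, not_le.1 h⟩⟩)

theorem card_zero_on {P : Type} [Fintype P] [DecidableEq P] (t : ℕ) (T : Finset P) :
    ((univ.filter fun ω : P → Fin (t + 1) => ∀ x ∈ T, ω x = 0).card : ℝ) =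
      Fintype.card (P → Fin (t + 1)) / (t + 1) ^ T.card := by
  have h1 : (univ.filter fun ω : P → Fin (t + 1) => ∀ x ∈ T, ω x = 0) =
      Fintype.piFinset fun x => if x ∈ T then {0} else univ := by
    ext ω
    simp only [mem_filter, mem_univ, true_and, Fintype.mem_piFinset]
    refine forall_congr' fun x => ?_
    split_ifs with h <;> simp [h]
  rw [h1, Fintype.card_piFinset]
  simp only [apply_ite card, card_singleton, card_univ, Fintype.card_fin, Fintype.card_fun]
  rw [prod_ite, prod_const_one, one_mul, prod_const, filter_not, filter_mem_eq_inter, univ_inter,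
    card_univ_sdiff]
  push_cast
  rw [eq_div_iff (by positivity), ← pow_add, Nat.sub_add_cancel (card_le_univ T)]

theorem pick_set {P ι τ : Type} [Fintype P] [DecidableEq P] (t : ℕ)
    (J : Finset ι) (Ω : ι → Finset τ) (T : ι → τ → Finset P) (Δ : ι → ℕ) (hΔ : ∀ j ∈ J, 0 < Δ j)
    (hT : ∀ j ∈ J, ∀ w ∈ Ω j, (T j w).card ≤ 4)
    (hd : ∀ j ∈ J, ∀ x, ((Ω j).filter fun w => x ∈ T j w).card ≤ Δ j) (l : ℝ) (hl : 0 ≤ l)
    (hJ : (J.card + 1) * exp (-(l ^ 2 * Fintype.card P / 2)) < 1) :
    ∃ Z : Finset P, (Z.card : ℝ) ≤ (1 / (t + 1) + l) * Fintype.card P ∧ ∀ j ∈ J,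
      (1 / (t + 1)) ^ 4 * (Ω j).card - l * Δ j * Fintype.card P ≤
        ((Ω j).filter fun w => T j w ⊆ Z).card := by
  classical
  have hN : (0 : ℝ) < Fintype.card (P → Fin (t + 1)) := by exact_mod_cast Fintype.card_pos
  let X : Option ι → (P → Fin (t + 1)) → ℝ := fun j ω => match j with
    | none => -∑ x, if ω x = 0 then 1 else 0
    | some j => ∑ w ∈ Ω j, if ∀ x ∈ T j w, ω x = 0 then 1 else 0
  let c : Option ι → ℝ := fun j => match j with
    | none => 1
    | some j => Δ j
  have g1 : ∀ j ∈ insertNone J, 0 < c j := by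
    rintro (_ | j) hj
    · simp [c]
    · simpa [c] using hΔ j (by simpa using hj)
  have g2 : ∀ j ∈ insertNone J, ∀ ω x v, |X j (Function.update ω x v) - X j ω| ≤ c j := by
    rintro (_ | j) hj ω x v
    · simp only [X, c, neg_sub_neg, ← sum_sub_distrib]
      rw [sum_eq_single x (fun y _ hy => by simp [Function.update_of_ne hy]) (by simp)]
      split_ifs <;> simp
    · simp only [X, c, ← sum_sub_distrib]
      refine (abs_sum_le_sum_abs _ _).trans ?_
      refine le_trans (sum_le_sum (g := fun w => if x ∈ T j w then (1 : ℝ) else 0) fun w _ => ?_) ?_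
      · by_cases hx : x ∈ T j w
        · rw [if_pos hx]; split_ifs <;> simp
        · have : (∀ y ∈ T j w, Function.update ω x v y = 0) ↔ ∀ y ∈ T j w, ω y = 0 :=
            forall₂_congr fun y hy => by
              rw [Function.update_of_ne (show y ≠ x from fun e => hx (e ▸ hy))]
          simp [this, hx]
      · rw [sum_boole]; exact_mod_cast hd j (by simpa using hj) x
  obtain ⟨ω, hω⟩ := pick_fun (insertNone J) X c g1 g2 l hl
    (by rw [card_insertNone]; exact_mod_cast hJ)
  · refine ⟨univ.filter fun x => ω x = 0, ?_, fun j hj => ?_⟩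
    · have h1 := hω none (by simp)
      have h2 : ∑ η, X none η = -(Fintype.card P * (Fintype.card (P → Fin (t + 1)) / (t + 1))) := by
        simp only [X, sum_neg_distrib]
        rw [sum_comm]
        have : ∀ x : P, ∑ η : P → Fin (t + 1), (if η x = 0 then (1 : ℝ) else 0) =
            Fintype.card (P → Fin (t + 1)) / (t + 1) := by
          intro x
          have := card_zero_on t {x}
          simpa using this
        simp only [this]; simp
      have h3 : X none ω = -((univ.filter fun x => ω x = 0).card : ℝ) := by simp [X]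
      rw [h2, h3] at h1
      have h4 : -((Fintype.card P : ℝ) * (Fintype.card (P → Fin (t + 1)) / (t + 1))) /
          Fintype.card (P → Fin (t + 1)) = -(1 / (t + 1) * Fintype.card P) := by field_simp
      rw [h4] at h1
      simp only [c] at h1
      linarith
    · have h1 := hω (some j) (by simpa using hj)
      have h2 : (1 / (t + 1) : ℝ) ^ 4 * (Ω j).card ≤
          (∑ η, X (some j) η) / Fintype.card (P → Fin (t + 1)) := by
        rw [le_div_iff₀ hN]
        simp only [X]
        rw [sum_comm, mul_right_comm, mul_comm, ← nsmul_eq_mul, ← sum_const]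
        refine sum_le_sum fun w hw => ?_
        have h3 := card_zero_on t (T j w)
        rw [sum_boole, h3, one_div, inv_pow, inv_mul_eq_div]
        have h4 : (1 : ℝ) ≤ t + 1 := by linarith [(Nat.cast_nonneg t : (0 : ℝ) ≤ t)]
        gcongr
        exact hT j hj w hw
      have h3 : X (some j) ω =
          ((Ω j).filter fun w => T j w ⊆ univ.filter fun x => ω x = 0).card := by
        simp only [X]
        rw [sum_boole]
        congr 2
        exact filter_congr fun w _ => by simp [subset_iff]
      rw [← h3]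
      simp only [c] at h1
      linarith

end Pool.Agent.Lib.MP_2c654c_co.Abs
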