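import Mathlib

set_option autoImplicit false

namespace Pool.Agent.Lib.MP_2c654c_co.Abs

open Finset

/-- every real representation of dimension below `D` is trivial -/
def QR (G : Type) [Group G] (D : ℕ) : Prop :=
  ∀ d : ℕ, d < D → ∀ ρ : Representation ℝ G (Fin d → ℝ), ∀ g, ρ g = 1

theorem QR.triv {G : Type} [Group G] {D : ℕ} (h : QR G D) (W : Type) [AddCommGroup W]
    [Module ℝ W] [FiniteDimensional ℝ W] (hW : Module.finrank ℝ W < D)
    (ρ : Representation ℝ G W) (g : G) : ρ g = 1 := by
  let e : W ≃ₗ[ℝ] (Fin (Module.finrank ℝ W) → ℝ) := (Module.finBasis ℝ W).equivFun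
  let ρ' : Representation ℝ G (Fin (Module.finrank ℝ W) → ℝ) :=
    { toFun := fun t => e.toLinearMap ∘ₗ ρ t ∘ₗ e.symm.toLinearMap
      map_one' := by apply LinearMap.ext; intro x; simp
      map_mul' := fun a b => by
        apply LinearMap.ext; intro x; simp }
  have h1 := h _ hW ρ' g
  apply LinearMap.ext
  intro x
  have h2 := congrArg (fun f => f (e x)) h1
  simpa [ρ'] using h2

/-- the mixing inequality -/
def Mix (G : Type) [Group G] [Fintype G] (δ : ℝ) : Prop :=
  ∀ v : G → G → ℝ, (∀ t e e', ∑ x, v (t * e) x * v (t * e') x = ∑ x, v e x * v e' x) →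
    (∀ x, ∑ e, v e x = 0) → ∀ g : G → ℝ,
    ∑ x, (∑ e, g e * v e x) ^ 2 ≤ δ * Fintype.card G * (∑ e, g e ^ 2) * ∑ x, v 1 x ^ 2

theorem mix_of_qr {G : Type} [Group G] [Fintype G] {D : ℕ} (hD : 0 < D) (h : QR G D) :
    Mix G (1 / D) := by
  classical
  intro v hinv h0 g
  let K : Matrix G G ℝ := Matrix.of fun e e' => ∑ x, v e x * v e' x
  have hKs : ∀ e e', K e e' = K e' e := fun e e' => by
    simp only [K, Matrix.of_apply]; exact sum_congr rfl fun x _ => mul_comm _ _
  have hK : K.IsHermitian := by
    ext e e'; simp [Matrix.conjTranspose_apply, hKs e' e]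
  let u : G → G → ℝ := fun i e => hK.eigenvectorBasis i e
  let l : G → ℝ := hK.eigenvalues
  have hu1 : ∀ i j, ∑ e, u i e * u j e = if i = j then 1 else 0 := by
    intro i j
    have := (orthonormal_iff_ite.1 hK.eigenvectorBasis.orthonormal) i j
    rw [← this, PiLp.inner_apply]
    exact sum_congr rfl fun e _ => by simp [u, mul_comm]
  have hu2 : ∀ e e', ∑ i, u i e * u i e' = if e = e' then 1 else 0 := by
    intro e e'
    have h1 : (hK.eigenvectorUnitary : Matrix G G ℝ) * star (hK.eigenvectorUnitary : Matrix G G ℝ) = 1 :=
      Matrix.mem_unitaryGroup_iff.1 hK.eigenvectorUnitary.2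
    have h2 := congrFun (congrFun h1 e) e'
    rw [Matrix.mul_apply, Matrix.one_apply] at h2
    rw [← h2]
    exact sum_congr rfl fun i _ => by simp [u, Matrix.star_apply]
  have hu3 : ∀ i e, ∑ e', K e e' * u i e' = l i * u i e := by
    intro i e
    have := congrFun (hK.mulVec_eigenvectorBasis i) e
    simpa [Matrix.mulVec, dotProduct] using this
  have hq : ∀ y : G → ℝ, ∑ x, (∑ e, y e * v e x) ^ 2 = ∑ e, y e * ∑ e', K e e' * y e' := by
    intro y
    simp only [K, Matrix.of_apply, sq, sum_mul, mul_sum]
    rw [sum_comm]
    refine sum_congr rfl fun e _ => ?_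
    rw [sum_comm]
    refine sum_congr rfl fun e' _ => sum_congr rfl fun x _ => by ring
  have hexp : ∀ y : G → ℝ, ∀ e, y e = ∑ i, (∑ e', u i e' * y e') * u i e := by
    intro y e
    simp only [sum_mul]
    rw [sum_comm]
    have : ∀ e', ∑ i, u i e' * y e' * u i e = (if e' = e then 1 else 0) * y e' := by
      intro e'; rw [← hu2, sum_mul]; exact sum_congr rfl fun i _ => by ring
    simp [this]
  have hl0 : ∀ i, 0 ≤ l i := by
    intro i
    have h1 := hq (u i)
    simp only [hu3] at h1
    have h2 : ∑ e, u i e * (l i * u i e) = l i := by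
      have := hu1 i i
      rw [if_pos rfl] at this
      calc _ = l i * ∑ e, u i e * u i e := by rw [mul_sum]; exact sum_congr rfl fun e _ => by ring
        _ = l i := by rw [this, mul_one]
    rw [← h2, ← h1]; positivity
  have htr : ∑ i, l i = Fintype.card G * ∑ x, v 1 x ^ 2 := by
    have h1 : ∑ i, l i = ∑ e, K e e := by
      have := hK.trace_eq_sum_eigenvalues
      simp only [Matrix.trace, Matrix.diag] at this
      rw [this]; simp [l]
    have h2 : ∀ e, K e e = ∑ x, v 1 x ^ 2 := by
      intro e
      have := hinv e 1 1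
      simp only [mul_one] at this
      simp only [K, Matrix.of_apply, this, sq]
    simp [h1, h2]
  have hl : ∀ j, l j ≤ 1 / D * Fintype.card G * ∑ x, v 1 x ^ 2 := by
    intro j
    have hD' : (0 : ℝ) < D := by exact_mod_cast hD
    by_cases hj : l j = 0
    · rw [hj]; positivity
    let W : Submodule ℝ (G → ℝ) :=
      { carrier := {y | ∀ e, ∑ e', K e e' * y e' = l j * y e}
        add_mem' := fun {a b} ha hb e => by
          simp only [Pi.add_apply, mul_add, sum_add_distrib, ha e, hb e]
        zero_mem' := fun e => by simp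
        smul_mem' := fun c a ha e => by
          simp only [Pi.smul_apply, smul_eq_mul]
          calc _ = c * ∑ e', K e e' * a e' := by
                rw [mul_sum]; exact sum_congr rfl fun _ _ => by ring
            _ = _ := by rw [ha e]; ring }
    have hW : ∀ t : G, ∀ y ∈ W, (fun e => y (t⁻¹ * e)) ∈ W := by
      intro t y hy e
      have h1 := hy (t⁻¹ * e)
      rw [← h1, ← Equiv.sum_comp (Equiv.mulLeft t)]
      refine sum_congr rfl fun e' _ => ?_
      have := hinv t (t⁻¹ * e) e'
      simp only [mul_inv_cancel_left] at this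
      simp [K, this]
    let ρ : Representation ℝ G W :=
      { toFun := fun t =>
          { toFun := fun y => ⟨fun e => y.1 (t⁻¹ * e), hW t _ y.2⟩
            map_add' := fun a b => rfl
            map_smul' := fun c a => rfl }
        map_one' := by ext y e; simp
        map_mul' := fun a b => by ext y e; simp [mul_assoc] }
    let J := univ.filter fun i => l i = l j
    have hJ : D ≤ J.card := by
      by_contra hlt
      let φ : W →ₗ[ℝ] (J → ℝ) :=
        { toFun := fun y i => ∑ e, u i e * y.1 e
          map_add' := fun a b => by ext i; simp [mul_add, sum_add_distrib]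
          map_smul' := fun c a => by
            ext i; simp only [SetLike.val_smul, Pi.smul_apply, smul_eq_mul, RingHom.id_apply]
            rw [mul_sum]; exact sum_congr rfl fun _ _ => by ring }
      have hφ : Function.Injective φ := by
        rw [injective_iff_map_eq_zero]
        intro y hy
        ext e
        rw [hexp y.1 e]
        refine sum_eq_zero fun i _ => ?_
        by_cases hi : l i = l j
        · have := congrFun hy ⟨i, by simp [J, hi]⟩
          simp only [φ, LinearMap.coe_mk, AddHom.coe_mk, Pi.zero_apply] at this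
          rw [this, zero_mul]
        · have h1 : l j * ∑ e', u i e' * y.1 e' = l i * ∑ e', u i e' * y.1 e' := by
            calc _ = ∑ e', u i e' * ∑ e'', K e' e'' * y.1 e'' := by
                  rw [mul_sum]; exact sum_congr rfl fun e' _ => by rw [y.2 e']; ring
              _ = ∑ e'', (∑ e', K e'' e' * u i e') * y.1 e'' := by
                  simp only [mul_sum, sum_mul]; rw [sum_comm]
                  exact sum_congr rfl fun a _ => sum_congr rfl fun b _ => by rw [hKs b a]; ring
              _ = _ := by
                  rw [mul_sum]; exact sum_congr rfl fun e' _ => by rw [hu3]; ring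
          have h2 : ∑ e', u i e' * y.1 e' = 0 := by
            by_contra h3
            exact hi (mul_right_cancel₀ h3 h1).symm
          rw [h2, zero_mul]
      have h1 : Module.finrank ℝ W < D := by
        have := LinearMap.finrank_le_finrank_of_injective hφ
        simp only [Module.finrank_fintype_fun_eq_card, Fintype.card_coe] at this
        omega
      have h2 : ∀ t, u j t = u j 1 := by
        intro t
        have h3 := congrArg (fun f => (f ⟨u j, hu3 j⟩).1 t) (h.triv W h1 ρ t)
        simpa [ρ] using h3.symm
      have h3 : l j * u j 1 = 0 := by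
        rw [← hu3]
        simp only [h2, K, Matrix.of_apply]
        rw [← sum_mul, sum_comm]
        simp only [← mul_sum, h0]; simp
      have h4 : u j 1 = 0 := (mul_eq_zero.1 h3).resolve_left hj
      have h5 := hu1 j j
      simp [h2, h4] at h5
    have h1 : (D : ℝ) * l j ≤ ∑ i, l i := by
      calc (D : ℝ) * l j ≤ J.card * l j := by
            apply mul_le_mul_of_nonneg_right _ (hl0 j); exact_mod_cast hJ
        _ = ∑ i ∈ J, l i := by
            rw [sum_congr rfl (g := fun _ => l j) fun i hi => (mem_filter.1 hi).2, sum_const,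
              nsmul_eq_mul]
        _ ≤ _ := sum_le_sum_of_subset_of_nonneg (subset_univ _) fun i _ _ => hl0 i
    rw [htr] at h1
    rw [mul_assoc, one_div, inv_mul_eq_div, le_div_iff₀ hD', mul_comm]; exact h1
  let c : G → ℝ := fun i => ∑ e', u i e' * g e'
  have h1 : ∀ e, ∑ e', K e e' * g e' = ∑ i, c i * (l i * u i e) := by
    intro e
    calc _ = ∑ e', K e e' * ∑ i, c i * u i e' := sum_congr rfl fun e' _ => by rw [← hexp g e']
      _ = _ := by
        simp only [mul_sum]; rw [sum_comm]
        refine sum_congr rfl fun i _ => ?_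
        rw [← hu3, mul_sum]; exact sum_congr rfl fun _ _ => by ring
  have h2 : ∑ e, g e * ∑ i, c i * (l i * u i e) = ∑ i, l i * c i ^ 2 := by
    simp only [mul_sum]; rw [sum_comm]
    refine sum_congr rfl fun i _ => ?_
    calc _ = (c i * l i) * ∑ e, u i e * g e := by
          rw [mul_sum]; exact sum_congr rfl fun _ _ => by ring
      _ = _ := by simp only [c]; ring
  have h3 : ∑ e, g e ^ 2 = ∑ i, c i ^ 2 := by
    calc _ = ∑ e, g e * ∑ i, c i * u i e := sum_congr rfl fun e _ => by rw [← hexp g e, sq]
      _ = _ := by
        simp only [mul_sum]; rw [sum_comm]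
        refine sum_congr rfl fun i _ => ?_
        calc _ = c i * ∑ e, u i e * g e := by
              rw [mul_sum]; exact sum_congr rfl fun _ _ => by ring
          _ = _ := by simp only [c]; ring
  rw [hq]
  simp only [h1]
  rw [h2, h3, mul_right_comm, mul_sum]
  exact sum_le_sum fun i _ => mul_le_mul_of_nonneg_right (hl i) (sq_nonneg _)

end Pool.Agent.Lib.MP_2c654c_co.Abs
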