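import Mathlib
import Pool.Agent.Lib.MP_2c654c_co.Abs.Mix

set_option autoImplicit false

namespace Pool.Agent.Lib.MP_2c654c_co.Abs

open Finset

variable {G : Type} [Group G] [Fintype G]

theorem sum_mr {M : Type} [AddCommMonoid M] (F : G → M) (f : G) : ∑ k, F (k * f) = ∑ k, F k :=
  Equiv.sum_comp (Equiv.mulRight f) F

theorem sum_ml {M : Type} [AddCommMonoid M] (F : G → M) (f : G) : ∑ k, F (f * k) = ∑ k, F k :=
  Equiv.sum_comp (Equiv.mulLeft f) F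

theorem sum_iv {M : Type} [AddCommMonoid M] (F : G → M) : ∑ k, F k⁻¹ = ∑ k, F k :=
  Equiv.sum_comp (Equiv.inv G) F

theorem sum_cj {M : Type} [AddCommMonoid M] (F : G → M) (f : G) :
    ∑ k, F (f⁻¹ * k * f) = ∑ k, F k := by
  rw [sum_ml (fun k => F (k * f)) f⁻¹, sum_mr]

theorem Mix.mono {δ δ' : ℝ} (h : Mix G δ) (hδ : δ ≤ δ') : Mix G δ' := by
  intro v h1 h2 g
  refine (h v h1 h2 g).trans ?_
  have : 0 ≤ (Fintype.card G : ℝ) * (∑ e, g e ^ 2) * ∑ x, v 1 x ^ 2 := by positivity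
  nlinarith

theorem Mix.conv {δ : ℝ} (h : Mix G δ) (p g : G → ℝ) (hp : ∑ x, p x = 0) :
    ∑ x, (∑ e, g e * p (x * e⁻¹)) ^ 2 ≤ δ * Fintype.card G * (∑ e, g e ^ 2) * ∑ x, p x ^ 2 := by
  have := h (fun e x => p (x * e)) (fun t e e' => ?_) (fun x => ?_) (fun e => g e⁻¹)
  · rw [sum_iv (fun e => g e ^ 2)] at this
    simp only [mul_one] at this
    refine le_trans (le_of_eq ?_) this
    refine sum_congr rfl fun x _ => ?_
    rw [← sum_iv]; simp
  · rw [← sum_mr _ t⁻¹]; exact sum_congr rfl fun x _ => by simp [mul_assoc]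
  · rw [sum_ml, hp]

theorem Mix.conj {δ : ℝ} (h : Mix G δ) (p g : G → ℝ) (hp : ∀ x, ∑ e, p (e⁻¹ * x * e) = 0) :
    ∑ x, (∑ e, g e * p (e⁻¹ * x * e)) ^ 2 ≤
      δ * Fintype.card G * (∑ e, g e ^ 2) * ∑ x, p x ^ 2 := by
  have := h (fun e x => p (e⁻¹ * x * e)) (fun t e e' => ?_) hp g
  · simpa using this
  · rw [← sum_cj _ t⁻¹]; exact sum_congr rfl fun x _ => by simp [mul_assoc]

omit [Group G] in
theorem sum_sq_le {p : G → ℝ} (hp : ∀ x, |p x| ≤ 1) : ∑ x, p x ^ 2 ≤ Fintype.card G := by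
  calc _ ≤ ∑ _x : G, (1 : ℝ) := sum_le_sum fun x _ => by
        have := hp x; rw [← sq_abs]; nlinarith [abs_nonneg (p x)]
    _ = _ := by simp

theorem npos : (0 : ℝ) < Fintype.card G := by exact_mod_cast Fintype.card_pos

theorem var_le (p : G → ℝ) :
    ∑ x, (p x - (∑ y, p y) / Fintype.card G) ^ 2 ≤ ∑ x, p x ^ 2 := by
  have hn := npos (G := G)
  set m := (∑ y, p y) / Fintype.card G with hm
  have h1 : ∑ y, p y = m * Fintype.card G := by rw [hm]; field_simp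
  have h2 : ∑ x, (p x - m) ^ 2 = ∑ x, p x ^ 2 - 2 * m * ∑ x, p x + Fintype.card G * m ^ 2 := by
    simp only [sub_sq, sum_add_distrib, sum_sub_distrib, sum_const, card_univ, nsmul_eq_mul, mul_sum]
    congr 2; exact sum_congr rfl fun _ _ => by ring
  rw [h2, h1]; nlinarith [sq_nonneg m]

theorem Mix.pair {η : ℝ} (hη : 0 ≤ η) (h : Mix G (η ^ 2)) (Ψ p g : G → ℝ) (hΨ : ∀ x, |Ψ x| ≤ 1)
    (hp : ∑ x, p x = 0) (hp' : ∑ x, p x ^ 2 ≤ Fintype.card G) (hg : ∀ x, |g x| ≤ 1) :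
    |∑ x, Ψ x * ∑ e, g e * p (x * e⁻¹)| ≤ η * Fintype.card G ^ 2 := by
  have hn := npos (G := G)
  have h1 := sum_mul_sq_le_sq_mul_sq univ Ψ (fun x => ∑ e, g e * p (x * e⁻¹))
  have h2 := h.conv p g hp
  have h3 := sum_sq_le hΨ
  have h4 := sum_sq_le hg
  apply abs_le_of_sq_le_sq _ (by positivity)
  refine h1.trans ?_
  calc _ ≤ (Fintype.card G : ℝ) * (η ^ 2 * Fintype.card G * Fintype.card G * Fintype.card G) := by
        apply mul_le_mul h3 (h2.trans _) (by positivity) (by positivity)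
        gcongr
    _ = _ := by ring

theorem Mix.triple {η : ℝ} (hη : 0 ≤ η) (h : Mix G (η ^ 2)) (Ψ H g : G → ℝ) (hΨ : ∀ x, |Ψ x| ≤ 1)
    (hH : ∀ x, |H x| ≤ 1) (hg : ∀ x, |g x| ≤ 1) :
    |∑ b, Ψ b * ∑ f, H f * g (f⁻¹ * b) -
      (∑ b, Ψ b) * (∑ f, H f) * (∑ y, g y) / Fintype.card G| ≤ η * Fintype.card G ^ 2 := by
  have hn := npos (G := G)
  set m := (∑ y, H y) / Fintype.card G with hm
  have h1 := h.pair hη Ψ (fun x => H x - m) g hΨ
    (by simp only [sum_sub_distrib, sum_const, card_univ, nsmul_eq_mul, hm]; field_simp; ring)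
    ((var_le H).trans (sum_sq_le hH)) hg
  have h2 : ∀ b, ∑ f, H f * g (f⁻¹ * b) = ∑ e, g e * (H (b * e⁻¹) - m) + m * ∑ y, g y := by
    intro b
    rw [← sum_ml _ b, ← sum_iv, mul_sum, ← sum_add_distrib]
    exact sum_congr rfl fun e _ => by simp; ring
  simp only [h2, mul_add, sum_add_distrib, ← sum_mul]
  have h3 : (∑ b, Ψ b) * (m * ∑ y, g y) = (∑ b, Ψ b) * (∑ f, H f) * (∑ y, g y) / Fintype.card G := by
    rw [hm]; field_simp
  rw [h3, add_sub_cancel_right]; exact h1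

/-- the four-function count -/
noncomputable def Lam (g h φ ψ : G → ℝ) : ℝ := ∑ e, ∑ f, g e * h f * φ (e * f) * ψ (f * e)

theorem Lam_symm (g h φ ψ : G → ℝ) : Lam g h φ ψ = Lam h g ψ φ := by
  unfold Lam; rw [sum_comm]
  exact sum_congr rfl fun _ _ => sum_congr rfl fun _ _ => by ring

omit [Group G] in
theorem abs_sum_le {p : G → ℝ} (hp : ∀ x, |p x| ≤ 1) : |∑ x, p x| ≤ Fintype.card G := by
  refine (abs_sum_le_sum_abs _ _).trans ?_
  calc _ ≤ ∑ _x : G, (1 : ℝ) := sum_le_sum fun x _ => hp x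
    _ = _ := by simp

theorem abs_mul_le {a b : ℝ} (ha : |a| ≤ 1) (hb : |b| ≤ 1) : |a * b| ≤ 1 := by
  rw [abs_mul]; exact mul_le_one₀ ha (abs_nonneg _) hb

theorem Mix.lam0 {ε : ℝ} (hε : 0 ≤ ε) (hm : Mix G ((ε ^ 2 / 2) ^ 2)) (g h φ ψ : G → ℝ)
    (hg : ∀ x, |g x| ≤ 1) (hh : ∀ x, |h x| ≤ 1) (hφ : ∀ x, |φ x| ≤ 1) (hψ : ∀ x, |ψ x| ≤ 1)
    (h0 : ∑ x, h x = 0) : |Lam g h φ ψ| ≤ ε * Fintype.card G ^ 2 := by
  have hn := npos (G := G)
  set η := ε ^ 2 / 2 with hη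
  have hη0 : 0 ≤ η := by positivity
  let S : G → ℝ := fun a => ∑ f, g (a * f⁻¹) * h f * ψ (f * a * f⁻¹)
  have h1 : Lam g h φ ψ = ∑ a, φ a * S a := by
    unfold Lam
    simp only [S, mul_sum]
    rw [sum_comm, sum_comm (f := fun a f => φ a * (g (a * f⁻¹) * h f * ψ (f * a * f⁻¹)))]
    refine sum_congr rfl fun f _ => ?_
    rw [← sum_mr _ f⁻¹]
    exact sum_congr rfl fun a _ => by simp [mul_assoc]; ring
  have h2 : ∑ a, S a ^ 2 = ∑ k, ∑ b, (ψ b * ψ (k * b * k⁻¹)) *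
      ∑ f, (h f * h (k * f)) * (g (f⁻¹ * b) * g (f⁻¹ * b * k⁻¹)) := by
    simp only [S, sq, sum_mul, mul_sum]
    rw [sum_comm]
    conv_rhs => rw [sum_comm]; arg 2; intro b; rw [sum_comm]
    conv_rhs => rw [sum_comm]
    refine sum_congr rfl fun f _ => ?_
    rw [← sum_cj _ f]
    refine sum_congr rfl fun b _ => ?_
    rw [← sum_mr _ f]
    exact sum_congr rfl fun k _ => by simp [mul_assoc]; ring
  have h3 : ∀ k, ∑ b, (ψ b * ψ (k * b * k⁻¹)) *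
      ∑ f, (h f * h (k * f)) * (g (f⁻¹ * b) * g (f⁻¹ * b * k⁻¹)) ≤
      Fintype.card G * |∑ f, h f * h (k * f)| + η * Fintype.card G ^ 2 := by
    intro k
    have h4 := hm.triple hη0 (fun b => ψ b * ψ (k * b * k⁻¹)) (fun f => h f * h (k * f))
      (fun y => g y * g (y * k⁻¹)) (fun _ => abs_mul_le (hψ _) (hψ _))
      (fun _ => abs_mul_le (hh _) (hh _)) (fun _ => abs_mul_le (hg _) (hg _))
    have h5 := abs_sum_le (p := fun b => ψ b * ψ (k * b * k⁻¹)) fun _ => abs_mul_le (hψ _) (hψ _)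
    have h6 := abs_sum_le (p := fun y => g y * g (y * k⁻¹)) fun _ => abs_mul_le (hg _) (hg _)
    have h7 : (∑ b, ψ b * ψ (k * b * k⁻¹)) * (∑ f, h f * h (k * f)) * (∑ y, g y * g (y * k⁻¹)) /
        Fintype.card G ≤ Fintype.card G * |∑ f, h f * h (k * f)| := by
      rw [div_le_iff₀ hn]
      refine (le_abs_self _).trans ?_
      rw [abs_mul, abs_mul]
      gcongr
    have h8 := (abs_le.1 h4).2
    linarith
  have h4 : ∑ k, |∑ f, h f * h (k * f)| ≤ η * Fintype.card G ^ 2 := by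
    have h5 := hm.pair hη0 (fun k => if 0 ≤ ∑ f, h f * h (k * f) then 1 else -1) h (fun e => h e⁻¹)
      (fun k => by split_ifs <;> simp) h0 (sum_sq_le hh) (fun _ => hh _)
    refine le_trans (le_of_eq ?_) ((le_abs_self _).trans h5)
    refine sum_congr rfl fun k _ => ?_
    rw [sum_iv (fun e => h e * h (k * e))]
    split_ifs with h6
    · rw [abs_of_nonneg h6, one_mul]
    · rw [abs_of_neg (not_le.1 h6)]; ring
  have h5 : ∑ a, S a ^ 2 ≤ 2 * η * Fintype.card G ^ 3 := by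
    rw [h2]
    refine (sum_le_sum fun k _ => h3 k).trans ?_
    simp only [sum_add_distrib, ← mul_sum, sum_const, card_univ, nsmul_eq_mul]
    nlinarith
  rw [h1]
  apply abs_le_of_sq_le_sq _ (by positivity)
  refine (sum_mul_sq_le_sq_mul_sq univ φ S).trans ?_
  calc _ ≤ (Fintype.card G : ℝ) * (2 * η * Fintype.card G ^ 3) :=
        mul_le_mul (sum_sq_le hφ) h5 (by positivity) (by positivity)
    _ = _ := by rw [hη]; ring

theorem Mix.lam {ε : ℝ} (hε : 0 ≤ ε) (hm : Mix G ((ε ^ 2 / 2) ^ 2)) (g h φ ψ : G → ℝ)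
    (hg : ∀ x, 0 ≤ g x ∧ g x ≤ 1) (hh : ∀ x, 0 ≤ h x ∧ h x ≤ 1) (hφ : ∀ x, |φ x| ≤ 1)
    (hψ : ∀ x, |ψ x| ≤ 1) :
    |Lam g h φ ψ - (∑ x, g x) / Fintype.card G * ((∑ x, h x) / Fintype.card G) *
      ∑ a, φ a * ∑ e, ψ (e⁻¹ * a * e)| ≤ 2 * ε * Fintype.card G ^ 2 := by
  have hn := npos (G := G)
  have key : ∀ p : G → ℝ, (∀ x, 0 ≤ p x ∧ p x ≤ 1) →
      (0 ≤ (∑ x, p x) / Fintype.card G ∧ (∑ x, p x) / Fintype.card G ≤ 1) := by
    intro p hp
    refine ⟨div_nonneg (sum_nonneg fun x _ => (hp x).1) hn.le, ?_⟩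
    rw [div_le_one hn]
    calc _ ≤ ∑ _x : G, (1 : ℝ) := sum_le_sum fun x _ => (hp x).2
      _ = _ := by simp
  set a := (∑ x, g x) / Fintype.card G with ha
  set b := (∑ x, h x) / Fintype.card G with hb
  have ha' := key g hg
  have hb' := key h hh
  rw [← ha] at ha'
  rw [← hb] at hb'
  have h1 := hm.lam0 hε g (fun x => h x - b) φ ψ (fun x => abs_le.2 ⟨by linarith [hg x], (hg x).2⟩)
    (fun x => abs_le.2 ⟨by linarith [hh x], by linarith [hh x]⟩) hφ hψ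
    (by simp only [sum_sub_distrib, sum_const, card_univ, nsmul_eq_mul, hb]; field_simp; ring)
  have h2 := hm.lam0 hε (fun _ => b) (fun x => g x - a) ψ φ
    (fun x => abs_le.2 ⟨by linarith, hb'.2⟩)
    (fun x => abs_le.2 ⟨by linarith [hg x], by linarith [hg x]⟩) hψ hφ
    (by simp only [sum_sub_distrib, sum_const, card_univ, nsmul_eq_mul, ha]; field_simp; ring)
  rw [← Lam_symm] at h2
  have h3 : ∑ x, φ x * ∑ e, ψ (e⁻¹ * x * e) = ∑ e, ∑ f, φ (e * f) * ψ (f * e) := by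
    simp only [mul_sum]
    rw [sum_comm]
    refine sum_congr rfl fun e _ => ?_
    rw [← sum_ml _ e]
    exact sum_congr rfl fun f _ => by simp
  have h4 : Lam g h φ ψ - a * b * ∑ x, φ x * ∑ e, ψ (e⁻¹ * x * e) =
      Lam g (fun x => h x - b) φ ψ + Lam (fun x => g x - a) (fun _ => b) φ ψ := by
    rw [h3]
    simp only [Lam, mul_sum, ← sum_add_distrib, ← sum_sub_distrib]
    exact sum_congr rfl fun _ _ => sum_congr rfl fun _ _ => by ring
  rw [h4]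
  refine (abs_add_le _ _).trans ?_
  linarith

end Pool.Agent.Lib.MP_2c654c_co.Abs
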