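import Mathlib
import Pool.Agent.Lib.MP_2c654c_co.Abs.Count

set_option autoImplicit false

namespace Pool.Agent.Lib.MP_2c654c_co.Abs

open Finset

variable {G : Type} [Group G] [Fintype G] [DecidableEq G]

/-- conjugacy class -/
def cl (a : G) : Finset G := univ.image fun e => e⁻¹ * a * e

/-- order of the centraliser -/
def zc (a : G) : ℕ := (univ.filter fun e => e⁻¹ * a * e = a).card

/-- number of conjugators into `S` -/
def cc (a : G) (S : Finset G) : ℕ := (univ.filter fun e => e⁻¹ * a * e ∈ S).card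

theorem mem_cl {a b : G} : b ∈ cl a ↔ ∃ e, e⁻¹ * a * e = b := by simp [cl]

theorem self_mem_cl (a : G) : a ∈ cl a := mem_cl.2 ⟨1, by simp⟩

theorem cj_mem_cl (a e : G) : e⁻¹ * a * e ∈ cl a := mem_cl.2 ⟨e, rfl⟩

theorem swap_mem_cl (e f : G) : f * e ∈ cl (e * f) := mem_cl.2 ⟨e, by group⟩

theorem cl_symm {a b : G} (h : b ∈ cl a) : a ∈ cl b := by
  obtain ⟨e, rfl⟩ := mem_cl.1 h
  exact mem_cl.2 ⟨e⁻¹, by group⟩

theorem cl_trans {a b c : G} (h : b ∈ cl a) (h' : c ∈ cl b) : c ∈ cl a := by
  obtain ⟨e, rfl⟩ := mem_cl.1 h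
  obtain ⟨f, rfl⟩ := mem_cl.1 h'
  exact mem_cl.2 ⟨e * f, by group⟩

theorem cl_eq {a b : G} (h : b ∈ cl a) : cl b = cl a := by
  ext c; exact ⟨fun h' => cl_trans h h', fun h' => cl_trans (cl_symm h) h'⟩

theorem cl_one : cl (1 : G) = {1} := by
  ext b; simp [mem_cl, eq_comm]

theorem ne_one_of_cl {a b : G} (h : b ∈ cl a) (ha : a ≠ 1) : b ≠ 1 := by
  rintro rfl
  have := cl_symm h
  rw [cl_one] at this
  exact ha (mem_singleton.1 this)

theorem fib_eq {a b : G} (h : b ∈ cl a) : (univ.filter fun e => e⁻¹ * a * e = b).card = zc a := by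
  obtain ⟨x, rfl⟩ := mem_cl.1 h
  unfold zc
  apply card_bij (fun e _ => e * x⁻¹)
  · intro e he
    have := (mem_filter.1 he).2
    refine mem_filter.2 ⟨mem_univ _, ?_⟩
    calc (e * x⁻¹)⁻¹ * a * (e * x⁻¹) = x * (e⁻¹ * a * e) * x⁻¹ := by group
      _ = a := by rw [this]; group
  · intro e _ e' _ h; exact mul_right_cancel h
  · intro e he
    have := (mem_filter.1 he).2
    refine ⟨e * x, mem_filter.2 ⟨mem_univ _, ?_⟩, by group⟩
    calc (e * x)⁻¹ * a * (e * x) = x⁻¹ * (e⁻¹ * a * e) * x := by group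
      _ = _ := by rw [this]

theorem fib_le (a b : G) : (univ.filter fun e => e⁻¹ * a * e = b).card ≤ zc a := by
  by_cases h : b ∈ cl a
  · exact (fib_eq h).le
  · rw [card_eq_zero.2]
    · exact Nat.zero_le _
    · exact filter_eq_empty_iff.2 fun e _ he => h (mem_cl.2 ⟨e, he⟩)

theorem cc_eq (a : G) (S : Finset G) : cc a S = zc a * (S ∩ cl a).card := by
  unfold cc
  rw [card_eq_sum_card_fiberwise (f := fun e => e⁻¹ * a * e) (t := S ∩ cl a)]
  · rw [mul_comm, ← smul_eq_mul, ← sum_const]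
    refine sum_congr rfl fun b hb => ?_
    rw [← fib_eq (mem_inter.1 hb).2, filter_filter]
    congr 1
    refine filter_congr fun e _ => ⟨fun h => h.2, fun h => ⟨?_, h⟩⟩
    rw [h]; exact (mem_inter.1 hb).1
  · intro e he
    exact mem_coe.2 (mem_inter.2 ⟨(mem_filter.1 (mem_coe.1 he)).2, cj_mem_cl a e⟩)

theorem cc_univ (a : G) : cc a univ = Fintype.card G := by simp [cc]

theorem zc_mul (a : G) : zc a * (cl a).card = Fintype.card G := by
  rw [← cc_univ a, cc_eq, univ_inter]

theorem zc_pos (a : G) : 0 < zc a :=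
  card_pos.2 ⟨1, by simp⟩

theorem zc_cl {a b : G} (h : b ∈ cl a) : zc b = zc a := by
  have h1 := zc_mul a
  have h2 := zc_mul b
  rw [cl_eq h, ← h1] at h2
  exact Nat.eq_of_mul_eq_mul_right (card_pos.2 ⟨a, self_mem_cl a⟩) h2

theorem cc_cl {a b : G} (h : b ∈ cl a) (S : Finset G) : cc b S = cc a S := by
  rw [cc_eq, cc_eq, zc_cl h, cl_eq h]

theorem cc_mono (a : G) {S T : Finset G} (h : S ⊆ T) : cc a S ≤ cc a T :=
  card_le_card fun _ he => mem_filter.2 ⟨mem_univ _, h (mem_filter.1 he).2⟩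

theorem cc_le (a : G) (S : Finset G) : cc a S ≤ Fintype.card G := card_le_univ _

theorem cc_union_le (a : G) (S T : Finset G) : cc a (S ∪ T) ≤ cc a S + cc a T := by
  unfold cc
  refine le_trans (card_le_card fun e he => ?_) (card_union_le _ _)
  simpa using he

theorem cc_union (a : G) {S T : Finset G} (h : Disjoint S T) :
    cc a (S ∪ T) = cc a S + cc a T := by
  rw [cc_eq, cc_eq, cc_eq, union_inter_distrib_right, card_union_of_disjoint, mul_add]
  exact h.mono inter_subset_left inter_subset_left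

theorem cc_empty (a : G) : cc a ∅ = 0 := by simp [cc]

theorem cc_single_le (a b : G) : cc a {b} ≤ zc a := by
  simpa [cc] using fib_le a b

theorem cc_single {a b : G} (h : b ∈ cl a) : cc a {b} = zc a := by
  simpa [cc] using fib_eq h

theorem cc_single_not {a b : G} (h : b ∉ cl a) : cc a {b} = 0 := by
  rw [cc_eq, singleton_inter_of_notMem h]; simp

theorem cc_insert_le (a b : G) (S : Finset G) : cc a (insert b S) ≤ cc a S + zc a := by
  rw [insert_eq, add_comm]
  exact (cc_union_le _ _ _).trans (Nat.add_le_add_right (cc_single_le a b) _)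

theorem cc_card_le (a : G) (S : Finset G) : cc a S ≤ zc a * S.card := by
  rw [cc_eq]; exact Nat.mul_le_mul_left _ (card_le_card inter_subset_left)

theorem cc_real (a : G) (S : Finset G) :
    ∑ e, (if e⁻¹ * a * e ∈ S then (1 : ℝ) else 0) = cc a S := by
  simp [cc]

theorem sum_cc (S : Finset G) : ∑ a, cc a S = Fintype.card G * S.card := by
  have : ∀ a, cc a S = ∑ e, if e⁻¹ * a * e ∈ S then 1 else 0 := fun a => by simp [cc]
  simp only [this]
  rw [sum_comm]
  have h2 : ∀ e : G, ∑ a, (if e⁻¹ * a * e ∈ S then 1 else 0) = S.card := fun e => by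
    rw [sum_cj (fun a => if a ∈ S then 1 else 0)]; simp
  simp [h2]

theorem card_le_of_cc {S : Finset G} {x : ℝ} (h : ∀ a, (cc a S : ℝ) ≤ x) : (S.card : ℝ) ≤ x := by
  have hn := npos (G := G)
  have h1 : ((∑ a, cc a S : ℕ) : ℝ) ≤ Fintype.card G * x := by
    push_cast
    refine (sum_le_sum fun a _ => h a).trans ?_
    simp
  rw [sum_cc] at h1
  push_cast at h1
  exact le_of_mul_le_mul_left h1 hn

theorem card_heavy (S : Finset G) {x : ℝ} :
    x * (univ.filter fun a => x ≤ cc a S).card ≤ Fintype.card G * S.card := by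
  have h1 : ((Fintype.card G * S.card : ℕ) : ℝ) = ∑ a, (cc a S : ℝ) := by
    rw [← sum_cc]; push_cast; rfl
  push_cast at h1
  rw [h1, mul_comm, ← nsmul_eq_mul, ← sum_const]
  refine (sum_le_sum fun a ha => (mem_filter.1 ha).2).trans ?_
  exact sum_le_sum_of_subset_of_nonneg (subset_univ _) fun _ _ _ => by positivity

theorem cc_one {S : Finset G} (h : (1 : G) ∉ S) : cc 1 S = 0 := by
  simp [cc, h]

theorem cc_image {ι : Type} [DecidableEq ι] (I : Finset ι) (p q : ι → G)
    (hp : Set.InjOn p I) (hq : Set.InjOn q I) (h : ∀ i ∈ I, q i ∈ cl (p i)) (a : G) :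
    cc a (I.image q) = cc a (I.image p) := by
  have key : ∀ p : ι → G, Set.InjOn p I →
      (I.image p ∩ cl a).card = (I.filter fun i => p i ∈ cl a).card := by
    intro p hp
    rw [← card_image_of_injOn (f := p) (hp.mono (by intro i hi; exact (mem_filter.1 hi).1))]
    congr 1
    ext b; simp only [mem_inter, mem_image, mem_filter]
    constructor
    · rintro ⟨⟨i, hi, rfl⟩, h2⟩; exact ⟨i, ⟨hi, h2⟩, rfl⟩
    · rintro ⟨i, ⟨hi, h2⟩, rfl⟩; exact ⟨⟨i, hi, rfl⟩, h2⟩
  rw [cc_eq, cc_eq, key p hp, key q hq]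
  congr 2
  exact filter_congr fun i hi =>
    ⟨fun h1 => cl_trans h1 (cl_symm (h i hi)), fun h1 => cl_trans h1 (h i hi)⟩

/-- standing hypotheses -/
structure Hyp (G : Type) [Group G] [Fintype G] [DecidableEq G] (δ : ℝ) : Prop where
  mix : Mix G δ
  zle : ∀ a : G, a ≠ 1 → (zc a : ℝ) ≤ δ * Fintype.card G
  one_le : 1 ≤ δ * Fintype.card G
  zge : ∀ a : G, 8 ≤ zc a

theorem Hyp.mono {δ δ' : ℝ} (h : Hyp G δ) (hδ : δ ≤ δ') : Hyp G δ' :=
  ⟨h.mix.mono hδ, fun a ha => (h.zle a ha).trans (mul_le_mul_of_nonneg_right hδ npos.le),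
    h.one_le.trans (mul_le_mul_of_nonneg_right hδ npos.le), h.zge⟩

theorem Hyp.pos {δ : ℝ} (h : Hyp G δ) : 0 < δ := by
  have := h.one_le
  have hn := npos (G := G)
  by_contra h1
  nlinarith

theorem zc_le_of_mix {δ : ℝ} (h : Mix G δ) {a x : G} (hx : x⁻¹ * a * x ≠ a) :
    (zc a : ℝ) ≤ 2 * δ * Fintype.card G := by
  set b := x⁻¹ * a * x with hb
  have h1 := h.conj (fun y => (if y = a then 1 else 0) - (if y = b then 1 else 0))
    (fun e => if e⁻¹ * a * e = a then 1 else 0) (fun y => ?_)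
  · have h2 : ∑ e, (if e⁻¹ * a * e = a then (1 : ℝ) else 0) ^ 2 = zc a := by simp [zc]
    have h3 : ∑ y, ((if y = a then (1 : ℝ) else 0) - (if y = b then 1 else 0)) ^ 2 = 2 := by
      have : ∀ y, ((if y = a then (1 : ℝ) else 0) - (if y = b then 1 else 0)) ^ 2 =
          (if y = a then (1 : ℝ) else 0) + (if y = b then 1 else 0) := by
        intro y
        by_cases h4 : y = a
        · have : y ≠ b := fun h5 => hx (h5.symm.trans h4)
          simp [h4, h4 ▸ this]
        · by_cases h5 : y = b <;> simp [h4, h5, hx]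
      simp only [this, sum_add_distrib]; simp; norm_num
    have h4 : ∑ e, (if e⁻¹ * a * e = a then (1 : ℝ) else 0) *
        ((if e⁻¹ * a * e = a then 1 else 0) - (if e⁻¹ * a * e = b then 1 else 0)) = zc a := by
      rw [← h2]
      refine sum_congr rfl fun e _ => ?_
      by_cases h5 : e⁻¹ * a * e = a
      · simp [h5, Ne.symm hx]
      · simp [h5]
    have h5 := single_le_sum (f := fun y => (∑ e, (if e⁻¹ * a * e = a then (1 : ℝ) else 0) *
        ((if e⁻¹ * y * e = a then 1 else 0) - (if e⁻¹ * y * e = b then 1 else 0))) ^ 2)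
        (fun _ _ => sq_nonneg _) (mem_univ a)
    rw [h2, h3] at h1
    simp only [h4] at h5
    have h6 : (0 : ℝ) < zc a := by exact_mod_cast zc_pos a
    nlinarith
  · rw [sum_sub_distrib]
    have h2 := cc_real y {a}
    have h3 := cc_real y {b}
    simp only [mem_singleton] at h2 h3
    rw [h2, h3, sub_eq_zero]
    by_cases h4 : a ∈ cl y
    · rw [cc_single h4, cc_single (cl_trans h4 (cj_mem_cl a x))]
    · rw [cc_single_not h4, cc_single_not fun h5 => h4 (cl_trans h5 (cl_symm (cj_mem_cl a x)))]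

theorem Hyp.sqrt_le {δ : ℝ} (h : Hyp G δ) (hδ : δ ≤ 1 / 10 ^ 12) (g : G) :
    50 * (univ.filter fun x => x * x = g).card ≤ Fintype.card G := by
  have hn := npos (G := G)
  by_cases hg : g = 1
  · subst hg
    set I := univ.filter fun x : G => x * x = 1 with hI
    let p : G → ℝ := fun x => if x ∈ I then 1 else 0
    have hp : ∀ x, |p x| ≤ 1 := fun x => by simp only [p]; split_ifs <;> simp
    have h1 := (h.mix.mono (δ' := (1 / 10 ^ 6) ^ 2) (by linarith)).triple (by norm_num) p p p hp hp hp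
    have h2 : ∑ x, p x = I.card := by simp [p]
    have h3 : ∑ b, p b * ∑ f, p f * p (f⁻¹ * b) ≤ ∑ b : G, (zc b : ℝ) := by
      refine sum_le_sum fun b _ => ?_
      have h4 : (zc b : ℝ) = ∑ f, if f⁻¹ * b * f = b then 1 else 0 := by simp [zc]
      rw [h4, mul_sum]
      refine sum_le_sum fun f _ => ?_
      simp only [p, hI, mem_filter, mem_univ, true_and]
      by_cases h5 : b * b = 1
      · by_cases h6 : f * f = 1
        · by_cases h7 : f⁻¹ * b * (f⁻¹ * b) = 1
          · have h8 : f⁻¹ * b * f = b := by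
              have h9 : f⁻¹ = f := inv_eq_of_mul_eq_one_right h6
              rw [h9] at h7 ⊢
              calc f * b * f = f * b * (f * b) * b * (b * b)⁻¹ := by group
                _ = b := by rw [h7, h5]; group
            simp [h5, h6, h7, h8]
          · rw [if_neg h7]; split_ifs <;> simp
        · rw [if_neg h6]; split_ifs <;> simp
      · rw [if_neg h5]; split_ifs <;> simp
    have h4 : ∑ b : G, (zc b : ℝ) ≤ 2 * δ * Fintype.card G ^ 2 := by
      calc _ ≤ ∑ b : G, ((if b = 1 then (Fintype.card G : ℝ) else 0) + δ * Fintype.card G) := by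
            refine sum_le_sum fun b _ => ?_
            split_ifs with h5
            · have : (zc b : ℝ) ≤ Fintype.card G := by exact_mod_cast card_le_univ _
              have := h.one_le; linarith
            · have := h.zle b h5; linarith
        _ = Fintype.card G + δ * Fintype.card G ^ 2 := by simp [sum_add_distrib]; ring
        _ ≤ _ := by have := h.one_le; nlinarith
    rw [h2] at h1
    have h5 := (abs_le.1 h1).1
    have h6 : (I.card : ℝ) * I.card * I.card / Fintype.card G ≤ 2 / 10 ^ 6 * Fintype.card G ^ 2 := by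
      nlinarith [sq_nonneg (Fintype.card G : ℝ)]
    rw [div_le_iff₀ hn] at h6
    by_contra h7
    have h8 : (Fintype.card G : ℝ) < 50 * I.card := by exact_mod_cast not_le.1 h7
    have h9 : (Fintype.card G : ℝ) ^ 3 < (50 * I.card) ^ 3 := by gcongr
    nlinarith [pow_pos hn 3]
  · have h1 : (univ.filter fun x => x * x = g).card ≤ zc g := by
      refine card_le_card fun x hx => mem_filter.2 ⟨mem_univ _, ?_⟩
      rw [← (mem_filter.1 hx).2]; group
    have h2 := h.zle g hg
    have h3 : ((univ.filter fun x => x * x = g).card : ℝ) ≤ zc g := by exact_mod_cast h1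
    have : (50 : ℝ) * (univ.filter fun x => x * x = g).card ≤ Fintype.card G := by nlinarith
    exact_mod_cast this

end Pool.Agent.Lib.MP_2c654c_co.Abs
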