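import Mathlib
import Pool.Agent.Lib.MP_2c654c_co.Abs.Cls

set_option autoImplicit false

namespace Pool.Agent.Lib.MP_2c654c_co.Abs

open Finset Sum

variable {G : Type} [Group G] [Fintype G] [DecidableEq G]

/-- unit vector of a label -/
def lab (x : G) : G ⊕ G → ℕ := Pi.single (inl x) 1

/-- unit vector of a product -/
def prd (x : G) : G ⊕ G → ℕ := Pi.single (inr x) 1

/-- the vector of the edge on labels `e, f` -/
def edge (e f : G) : G ⊕ G → ℕ := lab e + lab f + prd (e * f) + prd (f * e)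

/-- sums of edges -/
def Cone (G : Type) [Group G] [DecidableEq G] : AddSubmonoid (G ⊕ G → ℕ) :=
  AddSubmonoid.closure (Set.range fun p : G × G => edge p.1 p.2)

omit [Fintype G] in
theorem edge_mem (e f : G) : edge e f ∈ Cone G := AddSubmonoid.subset_closure ⟨(e, f), rfl⟩

/-- indicator vector -/
def ch (S : Finset (G ⊕ G)) : G ⊕ G → ℕ := fun v => if v ∈ S then 1 else 0

omit [Group G] [Fintype G] in
theorem ch_union {S T : Finset (G ⊕ G)} (h : Disjoint S T) : ch (S ∪ T) = ch S + ch T := by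
  ext v
  have : v ∈ S → v ∉ T := fun hv => disjoint_left.1 h hv
  by_cases h1 : v ∈ S <;> by_cases h2 : v ∈ T <;> simp_all [ch]

omit [Group G] [Fintype G] in
theorem ch_empty : ch (∅ : Finset (G ⊕ G)) = 0 := by ext v; simp [ch]

omit [Group G] [Fintype G] in
theorem ch_sum (S : Finset (G ⊕ G)) : ch S = ∑ v ∈ S, Pi.single v 1 := by
  ext v; simp [ch, Pi.single_apply, Finset.sum_apply]

omit [Group G] [Fintype G] in
theorem ch_image {ι : Type} (I : Finset ι) (f : ι → G ⊕ G) (hf : Set.InjOn f I) :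
    ch (I.image f) = ∑ i ∈ I, Pi.single (f i) 1 := by
  rw [ch_sum, sum_image hf]

/-- robust realisability of a family of port vectors -/
def RS (b k : ℕ) (𝒜 : Set (G ⊕ G → ℕ)) : Prop :=
  ∀ F : Finset (G ⊕ G), F.card + k ≤ b →
    ∃ S : Finset (G ⊕ G), S.card ≤ k ∧ Disjoint S F ∧ ∀ A ∈ 𝒜, ch S + A ∈ Cone G

section
omit [Fintype G]
variable {b k l : ℕ} {𝒜 ℬ 𝒟 : Set (G ⊕ G → ℕ)}

theorem RS.mono (h : RS b k 𝒜) (hk : k ≤ l) : RS b l 𝒜 := by
  intro F hF
  obtain ⟨S, h1, h2, h3⟩ := h F (by omega)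
  exact ⟨S, by omega, h2, h3⟩

theorem RS.sub (h : RS b k 𝒜) (hk : 𝒟 ⊆ 𝒜) : RS b k 𝒟 := by
  intro F hF
  obtain ⟨S, h1, h2, h3⟩ := h F hF
  exact ⟨S, h1, h2, fun A hA => h3 A (hk hA)⟩

theorem RS.add (h : RS b k 𝒜) (h' : RS b l ℬ) (hD : ∀ D ∈ 𝒟, ∃ A ∈ 𝒜, ∃ B ∈ ℬ, D = A + B) :
    RS b (k + l) 𝒟 := by
  intro F hF
  obtain ⟨S, h1, h2, h3⟩ := h F (by omega)
  obtain ⟨T, h4, h5, h6⟩ := h' (F ∪ S) (by have := card_union_le F S; omega)
  rw [disjoint_union_right] at h5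
  refine ⟨S ∪ T, by have := card_union_le S T; omega, disjoint_union_left.2 ⟨h2, h5.1⟩, ?_⟩
  intro D hD'
  obtain ⟨A, hA, B, hB, rfl⟩ := hD D hD'
  rw [ch_union h5.2.symm, add_add_add_comm]
  exact add_mem (h3 A hA) (h6 B hB)

theorem RS.cancel (h : ∀ F : Finset (G ⊕ G), F.card + (k + l) ≤ b → ∃ T : Finset (G ⊕ G),
    T.card ≤ l ∧ Disjoint T F ∧ RS b k ((fun A => ch T + A) '' 𝒜)) : RS b (k + l) 𝒜 := by
  intro F hF
  obtain ⟨T, h1, h2, h3⟩ := h F hF
  obtain ⟨S, h4, h5, h6⟩ := h3 (F ∪ T) (by have := card_union_le F T; omega)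
  rw [disjoint_union_right] at h5
  refine ⟨S ∪ T, by have := card_union_le S T; omega, disjoint_union_left.2 ⟨h5.1, h2⟩, ?_⟩
  intro A hA
  rw [ch_union h5.2, add_assoc]
  exact h6 _ ⟨A, hA, rfl⟩

theorem RS.zero : RS b 0 ({0} : Set (G ⊕ G → ℕ)) := by
  intro F _
  refine ⟨∅, le_rfl, disjoint_empty_left _, ?_⟩
  rintro A rfl
  rw [ch_empty]; simp

theorem RS.sum {ι : Type} [DecidableEq ι] (I : Finset ι) (c : ι → ℕ) (𝒜 : ι → Set (G ⊕ G → ℕ))
    (h : ∀ i ∈ I, RS b (c i) (𝒜 i)) :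
    RS b (∑ i ∈ I, c i) {D | ∃ A : ι → G ⊕ G → ℕ, (∀ i ∈ I, A i ∈ 𝒜 i) ∧ D = ∑ i ∈ I, A i} := by
  induction I using Finset.induction_on with
  | empty => exact RS.zero.sub (by rintro D ⟨A, _, rfl⟩; simp)
  | insert j I hj ih =>
    rw [sum_insert hj]
    refine (h j (mem_insert_self _ _)).add (ih fun i hi => h i (mem_insert_of_mem hi)) ?_
    rintro D ⟨A, hA, rfl⟩
    exact ⟨A j, hA j (mem_insert_self _ _), _, ⟨A, fun i hi => hA i (mem_insert_of_mem hi), rfl⟩,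
      sum_insert hj⟩

/-- two-state version -/
def R2 (b k : ℕ) (A B : G ⊕ G → ℕ) : Prop := RS b k {A, B}

variable {A B A' B' : G ⊕ G → ℕ}

theorem R2.add (h : R2 b k A B) (h' : R2 b l A' B') : R2 b (k + l) (A + A') (B + B') := by
  refine RS.add h h' ?_
  rintro D (rfl | rfl)
  · exact ⟨A, Or.inl rfl, A', Or.inl rfl, rfl⟩
  · exact ⟨B, Or.inr rfl, B', Or.inr rfl, rfl⟩

theorem R2.symm (h : R2 b k A B) : R2 b k B A := by
  unfold R2 at *; rwa [Set.pair_comm]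

theorem R2.of_eq (h : R2 b k A B) (hA : A = A') (hB : B = B') : R2 b k A' B' := by
  subst hA hB; exact h

theorem R2.mono (h : R2 b k A B) (hk : k ≤ l) : R2 b l A B := RS.mono h hk

theorem R2.cancel (h : ∀ F : Finset (G ⊕ G), F.card + (k + l) ≤ b → ∃ T : Finset (G ⊕ G),
    T.card ≤ l ∧ Disjoint T F ∧ R2 b k (A + ch T) (B + ch T)) : R2 b (k + l) A B := by
  refine RS.cancel fun F hF => ?_
  obtain ⟨T, h1, h2, h3⟩ := h F hF
  refine ⟨T, h1, h2, RS.sub h3 ?_⟩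
  rintro D ⟨C, rfl | rfl, rfl⟩
  · exact Or.inl (add_comm _ _)
  · exact Or.inr (add_comm _ _)

end

/-- vertex with a free parameter -/
def vert (y : G) : (G × G) ⊕ (G × G) → G ⊕ G :=
  Sum.map (fun p => p.1 * y * p.2) (fun p => p.1 * y * p.2)

theorem card_coin {δ : ℝ} (h : Hyp G δ) {p q : G × G} (hpq : p ≠ q) :
    ((univ.filter fun y => p.1 * y * p.2 = q.1 * y * q.2).card : ℝ) ≤ δ * Fintype.card G := by
  by_cases h1 : q.1⁻¹ * p.1 = 1
  · rw [card_eq_zero.2]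
    · have := h.one_le; simp only [Nat.cast_zero]; linarith
    · refine filter_eq_empty_iff.2 fun y _ hy => hpq ?_
      have h2 : p.1 = q.1 := (inv_mul_eq_one.1 h1).symm
      rw [h2] at hy
      exact Prod.ext h2 (mul_left_cancel hy)
  · refine le_trans ?_ (h.zle _ h1)
    have := fib_le (q.1⁻¹ * p.1) (q.2 * p.2⁻¹)
    refine Nat.cast_le.2 (le_trans (card_le_card fun y hy => ?_) this)
    refine mem_filter.2 ⟨mem_univ _, ?_⟩
    calc y⁻¹ * (q.1⁻¹ * p.1) * y = y⁻¹ * q.1⁻¹ * (p.1 * y * p.2) * p.2⁻¹ := by group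
      _ = _ := by rw [(mem_filter.1 hy).2]; group

theorem free {δ : ℝ} (h : Hyp G δ) (I : Finset ((G × G) ⊕ (G × G))) (F : Finset (G ⊕ G))
    (E : Finset G)
    (hc : (I.card : ℝ) * F.card + I.card ^ 2 * (δ * Fintype.card G) + E.card < Fintype.card G) :
    ∃ y, y ∉ E ∧ Set.InjOn (vert y) I ∧ ∀ i ∈ I, vert y i ∉ F := by
  let B1 := I.biUnion fun i => univ.filter fun y => vert y i ∈ F
  let B2 := (I ×ˢ I).biUnion fun p => univ.filter fun y => p.1 ≠ p.2 ∧ vert y p.1 = vert y p.2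
  have h1 : B1.card ≤ I.card * F.card := by
    refine card_biUnion_le_card_mul _ _ _ fun i _ => ?_
    refine card_le_card_of_injOn (fun y => vert y i) (fun y hy => (mem_filter.1 hy).2) ?_
    intro y _ y' _ hy
    rcases i with p | p <;> simpa [vert] using hy
  have h2 : (B2.card : ℝ) ≤ I.card ^ 2 * (δ * Fintype.card G) := by
    refine le_trans (Nat.cast_le.2 card_biUnion_le) ?_
    push_cast
    rw [sq, ← Nat.cast_mul, ← card_product, ← nsmul_eq_mul, ← sum_const]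
    refine sum_le_sum fun p _ => ?_
    have h0 : (0 : ℝ) ≤ δ * Fintype.card G := by have := h.one_le; linarith
    obtain ⟨p | p, q | q⟩ := p
    · by_cases hpq : p = q
      · simpa [hpq] using h0
      · simpa [vert, hpq] using card_coin h hpq
    · simpa [vert] using h0
    · simpa [vert] using h0
    · by_cases hpq : p = q
      · simpa [hpq] using h0
      · simpa [vert, hpq] using card_coin h hpq
  have h3 : (B1 ∪ B2 ∪ E).card < (univ : Finset G).card := by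
    have h4 := card_union_le (B1 ∪ B2) E
    have h5 := card_union_le B1 B2
    have h6 : ((B1 ∪ B2 ∪ E).card : ℝ) ≤ B1.card + B2.card + E.card := by
      exact_mod_cast h4.trans (Nat.add_le_add_right h5 _)
    have h7 : (B1.card : ℝ) ≤ I.card * F.card := by exact_mod_cast h1
    rw [card_univ]
    exact_mod_cast (show ((B1 ∪ B2 ∪ E).card : ℝ) < Fintype.card G by linarith)
  obtain ⟨y, _, hy⟩ := exists_mem_notMem_of_card_lt_card h3
  simp only [mem_union, not_or] at hy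
  refine ⟨y, hy.2, fun i hi j hj hij => ?_, fun i hi hF => hy.1.1 ?_⟩
  · by_contra hne
    exact hy.1.2 (mem_biUnion.2 ⟨(i, j), mem_product.2 ⟨hi, hj⟩, mem_filter.2 ⟨mem_univ _, hne, hij⟩⟩)
  · exact mem_biUnion.2 ⟨i, hi, mem_filter.2 ⟨mem_univ _, hF⟩⟩

theorem free_list {δ : ℝ} (h : Hyp G δ) (hδ : δ ≤ 1 / 1000) {b : ℕ} (hb : 20 * b ≤ Fintype.card G)
    (l : List ((G × G) ⊕ (G × G))) (hl : l.Nodup) (hl' : l.length ≤ 12)
    (F : Finset (G ⊕ G)) (hF : F.card ≤ b) :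
    ∃ y, ∃ T : Finset (G ⊕ G), T.card ≤ l.length ∧ Disjoint T F ∧
      ch T = (l.map fun i => Pi.single (vert y i) 1).sum := by
  have hn := npos (G := G)
  have h1 : (l.toFinset.card : ℝ) ≤ 12 := by exact_mod_cast (List.toFinset_card_le l).trans hl'
  have h2 : (20 : ℝ) * F.card ≤ Fintype.card G := by exact_mod_cast (by omega)
  have h0 := h.pos
  obtain ⟨y, _, h3, h4⟩ := free h l.toFinset F ∅ (by
    have h5 : (l.toFinset.card : ℝ) * F.card ≤ 12 * F.card := by gcongr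
    have h6 : (l.toFinset.card : ℝ) ^ 2 * (δ * Fintype.card G) ≤
      12 ^ 2 * (1 / 1000 * Fintype.card G) := by gcongr
    simp only [card_empty, Nat.cast_zero]; linarith)
  refine ⟨y, l.toFinset.image (vert y), card_image_le.trans (List.toFinset_card_le l), ?_, ?_⟩
  · rw [disjoint_left]; intro v hv
    obtain ⟨i, hi, rfl⟩ := mem_image.1 hv
    exact h4 i hi
  · rw [ch_image _ _ h3, List.sum_toFinset _ hl]

theorem rs_refl {δ : ℝ} (h : Hyp G δ) (hδ : δ ≤ 1 / 1000) {b : ℕ} (hb : 20 * b ≤ Fintype.card G)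
    {u : G} (hu : u ≠ 1) : RS b 3 {lab u} := by
  intro F hF
  obtain ⟨y, T, h1, h2, h3⟩ := free_list h hδ hb [inl (1, 1), inr (u, 1), inr (1, u)]
    (by simp [hu]) (by simp) F (by omega)
  refine ⟨T, h1, h2, ?_⟩
  rintro A rfl
  have : ch T + lab u = edge u y := by
    rw [h3]; simp [vert, edge, lab, prd]; abel
  rw [this]; exact edge_mem _ _

theorem rel0 {δ : ℝ} (hy : Hyp G δ) (hδ : δ ≤ 1 / 1000) {b : ℕ} (hb : 20 * b ≤ Fintype.card G)
    {g h x x' : G} (h1 : x ≠ 1) (h2 : g * x ≠ 1) (h3 : h * x ≠ 1) (h4 : g * (h * x) ≠ 1)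
    (h1' : x' ≠ 1) (h2' : g * x' ≠ 1) (h3' : h * x' ≠ 1) (h4' : g * (h * x') ≠ 1) :
    R2 b 12 (lab (g * (h * x)) + lab x + (lab (h * x') + lab (g * x')))
      (lab (h * x) + lab (g * x) + (lab (g * (h * x')) + lab x')) := by
  have r : ∀ {u : G}, u ≠ 1 → R2 b 3 (lab u) (lab u) := fun hu =>
    (rs_refl hy hδ hb hu).sub (by simp)
  by_cases hg : g = 1
  · subst hg
    exact ((((r h3).add (r h1)).add (r h3')).add (r h1')).of_eq (by simp; abel) (by simp; abel)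
  by_cases hh : h = 1
  · subst hh
    exact ((((r h2).add (r h1)).add (r h2')).add (r h1')).of_eq (by simp; abel) (by simp; abel)
  by_cases hx : x = x'
  · subst hx
    exact ((((r h2).add (r h1)).add (r h3)).add (r h4)).of_eq (by abel) (by abel)
  intro F hF
  have e1 : ∀ {z : G}, h * z ≠ 1 → z⁻¹ ≠ h := fun hz e => hz (by rw [← e]; simp)
  have e2 : ∀ {z : G}, g * z ≠ 1 → z⁻¹ ≠ g := fun hz e => hz (by rw [← e]; simp)
  have e3 : ∀ {z : G}, g * (h * z) ≠ 1 → z⁻¹ ≠ g * h :=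
    fun hz e => hz (by rw [← mul_assoc, ← e]; simp)
  obtain ⟨y, T, h5, h6, h7⟩ := free_list hy hδ hb
    [inl (x⁻¹, 1), inl (x⁻¹, g), inl (x'⁻¹, 1), inl (x'⁻¹, g),
      inr (x⁻¹, g * (h * x)), inr (x⁻¹, g * x), inr (x'⁻¹, g * (h * x')), inr (x'⁻¹, g * x'),
      inr (g * h, 1), inr (1, g), inr (h, g), inr (g, 1)]
    (by simp [hg, hh, hx, h1, h2, h4, h1', h2', h4', e1 h3, e1 h3', e3 h4, e3 h4', Ne.symm hg,
      Ne.symm hh]) (by simp) F (by omega)
  refine ⟨T, h5, h6, ?_⟩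
  rintro A (rfl | rfl)
  · have : ch T + (lab (g * (h * x)) + lab x + (lab (h * x') + lab (g * x'))) =
        edge (g * (h * x)) (x⁻¹ * y) + edge x (x⁻¹ * y * g) + edge (h * x') (x'⁻¹ * y * g) +
          edge (g * x') (x'⁻¹ * y) := by
      rw [h7]; simp [vert, edge, lab, prd, mul_assoc]; abel
    rw [this]
    exact add_mem (add_mem (add_mem (edge_mem _ _) (edge_mem _ _)) (edge_mem _ _)) (edge_mem _ _)
  · have : ch T + (lab (h * x) + lab (g * x) + (lab (g * (h * x')) + lab x')) =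
        edge (g * (h * x')) (x'⁻¹ * y) + edge x' (x'⁻¹ * y * g) + edge (h * x) (x⁻¹ * y * g) +
          edge (g * x) (x⁻¹ * y) := by
      rw [h7]; simp [vert, edge, lab, prd, mul_assoc]; abel
    rw [this]
    exact add_mem (add_mem (add_mem (edge_mem _ _) (edge_mem _ _)) (edge_mem _ _)) (edge_mem _ _)

end Pool.Agent.Lib.MP_2c654c_co.Abs
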