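import Mathlib
import Pool.Agent.Lib.MP_2c654c_co.Abs.Cone

set_option autoImplicit false

namespace Pool.Agent.Lib.MP_2c654c_co.Abs

open Finset Sum

variable {G : Type} [Group G] [Fintype G] [DecidableEq G]

/-- labels `L` and products `P` carry a perfect matching -/
def PM (L P : Finset G) : Prop := ch (L.disjSum P) ∈ Cone G

section
omit [Fintype G]

theorem PM.empty : PM (∅ : Finset G) ∅ := by
  unfold PM
  rw [show (∅ : Finset G).disjSum ∅ = ∅ from by ext v; rcases v with v | v <;> simp, ch_empty]
  exact zero_mem _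

theorem PM.union {L P L' P' : Finset G} (h : PM L P) (h' : PM L' P') (hL : Disjoint L L')
    (hP : Disjoint P P') : PM (L ∪ L') (P ∪ P') := by
  have h1 : ch ((L ∪ L').disjSum (P ∪ P')) = ch (L.disjSum P) + ch (L'.disjSum P') := by
    ext v
    rcases v with v | v
    · have : v ∈ L → v ∉ L' := fun hv => disjoint_left.1 hL hv
      by_cases h1 : v ∈ L <;> by_cases h2 : v ∈ L' <;> simp_all [ch]
    · have : v ∈ P → v ∉ P' := fun hv => disjoint_left.1 hP hv
      by_cases h1 : v ∈ P <;> by_cases h2 : v ∈ P' <;> simp_all [ch]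
  unfold PM
  rw [h1]; exact add_mem h h'

/-- vertex set of an edge -/
def eset (p : G × G) : Finset (G ⊕ G) := {inl p.1, inl p.2, inr (p.1 * p.2), inr (p.2 * p.1)}

theorem ch_eset {p : G × G} (h : p.1 * p.2 ≠ p.2 * p.1) : ch (eset p) = edge p.1 p.2 := by
  have h1 : p.1 ≠ p.2 := fun e => h (by rw [e])
  rw [ch_sum, eset, sum_insert (by simp [h1]), sum_insert (by simp), sum_pair (by simpa using h)]
  simp only [edge, lab, prd]; abel

theorem card_eset {p : G × G} (h : p.1 * p.2 ≠ p.2 * p.1) : (eset p).card = 4 := by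
  have h1 : p.1 ≠ p.2 := fun e => h (by rw [e])
  rw [eset, card_insert_of_notMem (by simp [h1]), card_insert_of_notMem (by simp),
    card_pair (by simpa using h)]

theorem PM.edge {e f : G} (h : e * f ≠ f * e) : PM {e, f} {e * f, f * e} := by
  have h1 : ({e, f} : Finset G).disjSum {e * f, f * e} = eset (e, f) := by
    ext v; rcases v with v | v <;> simp [eset]
  unfold PM
  rw [h1, ch_eset h]; exact edge_mem _ _

theorem PM.of_ch {S : Finset (G ⊕ G)} (h : ch S ∈ Cone G) : PM S.toLeft S.toRight := by
  unfold PM; rwa [toLeft_disjSum_toRight]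

theorem PM.of_eq {L P L' P' : Finset G} (h : PM L P) (hL : L = L') (hP : P = P') : PM L' P' := by
  subst hL hP; exact h

theorem PM.extract {L P : Finset G} (h : PM L P) : ∃ θ : G → G,
    (∀ e ∈ L, θ e ∈ L ∧ θ (θ e) = e ∧ e * θ e ∈ P) ∧ Set.InjOn (fun e => e * θ e) L := by
  have key : ∀ v ∈ Cone G, (∀ x, v x ≤ 1) → ∃ θ : G → G,
      (∀ e, v (inl e) = 1 → v (inl (θ e)) = 1 ∧ θ (θ e) = e ∧ v (inr (e * θ e)) = 1) ∧
      ∀ e e', v (inl e) = 1 → v (inl e') = 1 → e * θ e = e' * θ e' → e = e' := by
    intro v hv
    induction hv using AddSubmonoid.closure_induction with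
    | mem v hv =>
      obtain ⟨⟨e, f⟩, rfl⟩ := hv
      intro h1
      have h2 : e * f ≠ f * e := by
        intro h2
        have := h1 (inr (e * f))
        simp [Abs.edge, lab, prd, ← h2] at this
      have h3 : e ≠ f := fun e => h2 (by rw [e])
      have h4 : ∀ x, Abs.edge e f (inl x) = 1 → x = e ∨ x = f := by
        intro x hx
        by_contra h5
        rw [not_or] at h5
        simp [Abs.edge, lab, prd, h5.1, h5.2] at hx
      refine ⟨fun x => if x = e then f else e, fun x hx => ?_, fun x y hx hy => ?_⟩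
      · rcases h4 x hx with rfl | rfl <;> simp [Abs.edge, lab, prd, h2, h3, h2.symm, h3.symm]
      · rcases h4 x hx with rfl | rfl <;> rcases h4 y hy with rfl | rfl <;>
          simp [h2, h3, h2.symm, h3.symm]
    | zero => exact fun _ => ⟨id, by simp, by simp⟩
    | add v w _ _ ihv ihw =>
      intro h1
      have h2 : ∀ x, v x + w x ≤ 1 := h1
      obtain ⟨θ, a1, a2⟩ := ihv fun x => by have := h2 x; omega
      obtain ⟨σ, b1, b2⟩ := ihw fun x => by have := h2 x; omega
      refine ⟨fun x => if v (inl x) = 1 then θ x else σ x, fun x hx => ?_, fun x y hx hy => ?_⟩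
      · simp only [Pi.add_apply] at hx ⊢
        by_cases h3 : v (inl x) = 1
        · obtain ⟨c1, c2, c3⟩ := a1 x h3
          have := h2 (inl (θ x)); have := h2 (inr (x * θ x))
          simp only [h3, c1, c2, if_true, true_and]; omega
        · obtain ⟨c1, c2, c3⟩ := b1 x (by have := h2 (inl x); omega)
          have := h2 (inl (σ x)); have := h2 (inr (x * σ x))
          have h4 : ¬ v (inl (σ x)) = 1 := by omega
          simp only [h3, h4, c2, if_false, true_and]; omega
      · simp only [Pi.add_apply] at hx hy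
        have := h2 (inl x); have := h2 (inl y)
        by_cases h3 : v (inl x) = 1 <;> by_cases h4 : v (inl y) = 1 <;>
          simp only [h3, h4, if_true, if_false] <;> intro h5
        · exact a2 x y h3 h4 h5
        · have c1 := (a1 x h3).2.2
          have c2 := (b1 y (by omega)).2.2
          rw [← h5] at c2
          have := h2 (inr (x * θ x)); omega
        · have c1 := (a1 y h4).2.2
          have c2 := (b1 x (by omega)).2.2
          rw [h5] at c2
          have := h2 (inr (y * θ y)); omega
        · exact b2 x y (by omega) (by omega) h5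
  obtain ⟨θ, h1, h2⟩ := key _ h (fun x => by unfold ch; split_ifs <;> simp)
  refine ⟨θ, fun e he => ?_, fun e he e' he' => h2 e e' ?_ ?_⟩
  · simpa [ch] using h1 e (by simp [ch, he])
  · simp [ch, mem_coe.1 he]
  · simp [ch, mem_coe.1 he']

end

theorem PM.card {L P : Finset G} (h : PM L P) : L.card = P.card := by
  have key : ∀ v ∈ Cone G, ∑ x, v (inl x) = ∑ x, v (inr x) := by
    intro v hv
    induction hv using AddSubmonoid.closure_induction with
    | mem v hv =>
      obtain ⟨⟨e, f⟩, rfl⟩ := hv
      simp [Abs.edge, lab, prd, sum_add_distrib, Pi.single_apply]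
    | zero => simp
    | add v w _ _ ihv ihw => simp [sum_add_distrib, ihv, ihw]
  simpa [ch] using key _ h

theorem PM.even {L P : Finset G} (h : PM L P) (a : G) : Even (P ∩ cl a).card := by
  have key : ∀ v ∈ Cone G, Even (∑ x ∈ cl a, v (inr x)) := by
    intro v hv
    induction hv using AddSubmonoid.closure_induction with
    | mem v hv =>
      obtain ⟨⟨e, f⟩, rfl⟩ := hv
      have h1 : e * f ∈ cl a ↔ f * e ∈ cl a :=
        ⟨fun h => cl_trans h (swap_mem_cl e f), fun h => cl_trans h (swap_mem_cl f e)⟩
      by_cases h2 : f * e ∈ cl a <;>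
        simp [Abs.edge, lab, prd, sum_add_distrib, Pi.single_apply, h1, h2]
    | zero => simp
    | add v w _ _ ihv ihw => simpa [sum_add_distrib] using ihv.add ihw
  have := key _ h
  rwa [show ∑ x ∈ cl a, ch (L.disjSum P) (inr x) = (P ∩ cl a).card from by
    simp [ch, inter_comm]] at this

end Pool.Agent.Lib.MP_2c654c_co.Abs
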