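import Mathlib
import Pool.Agent.Lib.MP_2c654c_co.Abs.PM

set_option autoImplicit false

namespace Pool.Agent.Lib.MP_2c654c_co.Abs

open Finset Sum

variable {G : Type} [Group G] [Fintype G] [DecidableEq G]

theorem exists_dense {δ σ : ℝ} (hy : Hyp G δ) (hσ : 0 ≤ σ) (F : Finset G)
    (hF : ∀ a, a ≠ 1 → cc a F + σ * Fintype.card G < Fintype.card G) :
    ∃ Y : Finset G, Disjoint Y F ∧ (∀ a, (cc a Y : ℝ) ≤ σ * Fintype.card G) ∧
      ∀ a, a ≠ 1 → (σ - δ) * Fintype.card G ≤ cc a Y := by
  classical
  have hn := npos (G := G)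
  obtain ⟨Y, hY, hmax⟩ := exists_max_image
    (univ.filter fun Y : Finset G => Disjoint Y F ∧ ∀ a, (cc a Y : ℝ) ≤ σ * Fintype.card G)
    card ⟨∅, by simp [cc_empty]; positivity⟩
  obtain ⟨h1, h2⟩ := (mem_filter.1 hY).2
  refine ⟨Y, h1, h2, fun a ha => ?_⟩
  by_contra h3
  have h4 := hy.zle a ha
  obtain ⟨e, _, he⟩ := exists_mem_notMem_of_card_lt_card
    (s := univ.filter fun e => e⁻¹ * a * e ∈ F ∪ Y) (t := univ) (by
      have h5 := (Nat.cast_le (α := ℝ)).2 (cc_union_le a F Y)
      push_cast at h5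
      rw [card_univ]
      exact_mod_cast (show (cc a (F ∪ Y) : ℝ) < Fintype.card G by linarith [hF a ha, h2 a]))
  simp only [mem_filter, mem_univ, true_and, mem_union, not_or] at he
  have h5 := hmax (insert (e⁻¹ * a * e) Y) (mem_filter.2 ⟨mem_univ _,
    disjoint_insert_left.2 ⟨he.1, h1⟩, fun a' => ?_⟩)
  · rw [card_insert_of_notMem he.2] at h5; omega
  · by_cases h6 : a' ∈ cl a
    · have h7 := (Nat.cast_le (α := ℝ)).2 (cc_insert_le a (e⁻¹ * a * e) Y)
      push_cast at h7
      rw [cc_cl h6]; linarith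
    · have h7 := cc_union_le a' {e⁻¹ * a * e} Y
      rw [cc_single_not (fun h => h6 (cl_trans (cj_mem_cl a e) (cl_symm h))), ← insert_eq,
        zero_add] at h7
      exact le_trans (Nat.cast_le.2 h7) (h2 a')

/-- labels of a reservoir -/
def rl (A : Finset G) (r : G → G) : Finset G := A.image r ∪ A.image fun c => (r c)⁻¹ * c

/-- partners of a reservoir -/
def rp (A : Finset G) (r : G → G) : Finset G := A.image fun c => (r c)⁻¹ * c * r c

/-- a matching covering the products in `A` -/
structure Res (A : Finset G) (r : G → G) : Prop where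
  i1 : Set.InjOn r A
  i2 : Set.InjOn (fun c => (r c)⁻¹ * c) A
  i3 : ∀ c ∈ A, ∀ c' ∈ A, r c ≠ (r c')⁻¹ * c'
  i4 : Set.InjOn (fun c => (r c)⁻¹ * c * r c) A
  i5 : ∀ c ∈ A, (r c)⁻¹ * c * r c ∉ A

section
omit [Fintype G]

theorem card_rl (A : Finset G) (r : G → G) : (rl A r).card ≤ 2 * A.card := by
  have := card_union_le (A.image r) (A.image fun c => (r c)⁻¹ * c)
  have : (A.image r).card ≤ A.card := card_image_le
  have : (A.image fun c => (r c)⁻¹ * c).card ≤ A.card := card_image_le
  unfold rl; omega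

theorem rl_mono {A B : Finset G} (h : B ⊆ A) (r : G → G) : rl B r ⊆ rl A r :=
  union_subset_union (image_subset_image h) (image_subset_image h)

theorem rp_mono {A B : Finset G} (h : B ⊆ A) (r : G → G) : rp B r ⊆ rp A r :=
  image_subset_image h

theorem Res.disj {A : Finset G} {r : G → G} (h : Res A r) : Disjoint A (rp A r) := by
  rw [disjoint_right]; intro x hx
  obtain ⟨c, hc, rfl⟩ := mem_image.1 hx
  exact h.i5 c hc

theorem Res.pm {A : Finset G} {r : G → G} (h : Res A r) (B : Finset G) (hB : B ⊆ A) :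
    PM (rl B r) (B ∪ rp B r) := by
  induction B using Finset.induction_on with
  | empty => exact PM.empty.of_eq (by simp [rl]) (by simp [rp])
  | insert c B hc ih =>
    have h1 : c ∈ A := hB (mem_insert_self _ _)
    have h2 : B ⊆ A := (subset_insert _ _).trans hB
    have h3 : r c * ((r c)⁻¹ * c) = c := by group
    have h4 := PM.edge (e := r c) (f := (r c)⁻¹ * c) (by
      rw [h3]; intro e; exact h.i5 c h1 (e ▸ h1))
    rw [h3] at h4
    refine (h4.union (ih h2) ?_ ?_).of_eq ?_ ?_
    · simp only [rl, disjoint_insert_left, disjoint_singleton_left, mem_union, mem_image, not_or,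
        not_exists, not_and]
      exact ⟨⟨fun x hx e => hc (h.i1 (h2 hx) h1 e ▸ hx), fun x hx e => h.i3 c h1 x (h2 hx) e.symm⟩,
        fun x hx e => h.i3 x (h2 hx) c h1 e, fun x hx e => hc (h.i2 (h2 hx) h1 e ▸ hx)⟩
    · simp only [rp, disjoint_insert_left, disjoint_singleton_left, mem_union, mem_image, not_or,
        not_exists, not_and]
      exact ⟨⟨hc, fun x hx e => h.i5 x (h2 hx) (e ▸ h1)⟩, fun e => h.i5 c h1 (h2 e),
        fun x hx e => hc (h.i4 (h2 hx) h1 e ▸ hx)⟩
    · ext x; simp only [rl, mem_union, mem_insert, mem_singleton, image_insert]; tauto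
    · ext x; simp only [rp, mem_union, mem_insert, mem_singleton, image_insert]; tauto

end

theorem Res.cc_rp {A : Finset G} {r : G → G} (h : Res A r) {B : Finset G} (hB : B ⊆ A) (a : G) :
    cc a (rp B r) = cc a B := by
  have := cc_image B id (fun c => (r c)⁻¹ * c * r c) (fun _ _ _ _ h => h) (h.i4.mono hB)
    (fun i _ => cj_mem_cl i (r i)) a
  rwa [image_id] at this

theorem card_inv_mul (S : Finset G) (c : G) :
    (univ.filter fun e => e⁻¹ * c ∈ S).card ≤ S.card :=
  card_le_card_of_injOn (fun e => e⁻¹ * c) (fun _ hy => (mem_filter.1 hy).2)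
    (fun a _ b _ h => by simpa using h)

theorem cover (A FL FP : Finset G) (h1 : 10 * (FL.card + 2 * A.card) ≤ Fintype.card G)
    (h2 : ∀ a ∈ A, 10 * (cc a FP + 2 * cc a A) ≤ Fintype.card G) :
    ∃ r, Res A r ∧ Disjoint (rl A r) FL ∧ Disjoint (rp A r) FP := by
  have key : ∀ B ⊆ A, ∃ r, Res B r ∧ Disjoint (rl B r) FL ∧ Disjoint (rp B r) (FP ∪ A) := by
    intro B
    induction B using Finset.induction_on with
    | empty => exact fun _ => ⟨id, ⟨by simp, by simp, by simp, by simp, by simp⟩, by simp [rl],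
        by simp [rp]⟩
    | insert c B hc ih =>
      intro hB
      have h3 : c ∈ A := hB (mem_insert_self _ _)
      have h4 : B ⊆ A := (subset_insert _ _).trans hB
      obtain ⟨r, hr, h5, h6⟩ := ih h4
      obtain ⟨e, _, he⟩ := exists_mem_notMem_of_card_lt_card
        (s := (FL ∪ rl B r) ∪ (univ.filter fun e => e⁻¹ * c ∈ FL ∪ rl B r) ∪
          univ.filter fun e => e⁻¹ * c * e ∈ FP ∪ A ∪ rp B r) (t := univ) (by
          have a1 := card_union_le FL (rl B r)
          have a2 := card_rl B r
          have a3 := card_le_card h4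
          have a4 := card_inv_mul (FL ∪ rl B r) c
          have a5 := cc_union_le c (FP ∪ A) (rp B r)
          have a6 := cc_union_le c FP A
          have a7 := hr.cc_rp Subset.rfl c
          have a8 := cc_mono c h4
          have a9 := h2 c h3
          have a10 := Fintype.card_pos (α := G)
          refine lt_of_le_of_lt (card_union_le _ _) (lt_of_le_of_lt
            (Nat.add_le_add_right (card_union_le _ _) _) ?_)
          rw [card_univ]
          change _ + _ + cc c _ < _
          omega)
      simp only [mem_union, mem_filter, mem_univ, true_and, not_or, rl, rp, mem_image, not_exists,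
        not_and] at he
      obtain ⟨⟨⟨e1, e2, e3⟩, e4, e5, e6⟩, ⟨e7, e8⟩, e9⟩ := he
      have u1 : Function.update r c e c = e := Function.update_self _ _ _
      have u2 : ∀ x ∈ B, Function.update r c e x = r x :=
        fun x hx => Function.update_of_ne (show x ≠ c from fun h => hc (h ▸ hx)) _ _
      have e10 : e ≠ e⁻¹ * c := fun h => e8 (by
        rw [show e⁻¹ * c * e = c from by
          calc e⁻¹ * c * e = e * (e⁻¹ * c) := by rw [← h]
            _ = c := by group]; exact h3)
      have h7 : ∀ x ∈ B, (r x)⁻¹ * x * r x ∉ FP ∪ A :=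
        fun x hx => disjoint_left.1 h6 (mem_image_of_mem _ hx)
      refine ⟨Function.update r c e, ⟨?_, ?_, ?_, ?_, ?_⟩, ?_, ?_⟩
      · intro x hx' y hy' h
        rcases mem_insert.1 hx' with rfl | hx <;> rcases mem_insert.1 hy' with rfl | hy
        · rfl
        · rw [u1, u2 y hy] at h; exact absurd h.symm (e2 y hy)
        · rw [u1, u2 x hx] at h; exact absurd h (e2 x hx)
        · rw [u2 x hx, u2 y hy] at h; exact hr.i1 hx hy h
      · intro x hx' y hy' h
        rcases mem_insert.1 hx' with rfl | hx <;> rcases mem_insert.1 hy' with rfl | hy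
        · rfl
        · simp only [u1, u2 y hy] at h; exact absurd h.symm (e6 y hy)
        · simp only [u1, u2 x hx] at h; exact absurd h (e6 x hx)
        · simp only [u2 x hx, u2 y hy] at h; exact hr.i2 hx hy h
      · intro x hx' y hy' h
        rcases mem_insert.1 hx' with rfl | hx <;> rcases mem_insert.1 hy' with rfl | hy
        · rw [u1] at h; exact e10 h
        · rw [u1, u2 y hy] at h; exact e3 y hy h.symm
        · rw [u1, u2 x hx] at h; exact e5 x hx h
        · rw [u2 x hx, u2 y hy] at h; exact hr.i3 x hx y hy h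
      · intro x hx' y hy' h
        rcases mem_insert.1 hx' with rfl | hx <;> rcases mem_insert.1 hy' with rfl | hy
        · rfl
        · simp only [u1, u2 y hy] at h; exact absurd h.symm (e9 y hy)
        · simp only [u1, u2 x hx] at h; exact absurd h (e9 x hx)
        · simp only [u2 x hx, u2 y hy] at h; exact hr.i4 hx hy h
      · intro x hx h
        rcases mem_insert.1 hx with rfl | hx
        · rw [u1] at h; exact e8 (hB h)
        · rw [u2 x hx] at h; exact h7 x hx (mem_union_right _ (hB h))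
      · rw [disjoint_left]; intro x hx
        simp only [rl, mem_union, mem_image, mem_insert] at hx
        rcases hx with ⟨y, rfl | hy, rfl⟩ | ⟨y, rfl | hy, rfl⟩
        · rwa [u1]
        · rw [u2 y hy]; exact disjoint_left.1 h5 (mem_union_left _ (mem_image_of_mem _ hy))
        · rwa [u1]
        · rw [u2 y hy]; exact disjoint_left.1 h5 (mem_union_right _ (mem_image_of_mem _ hy))
      · rw [disjoint_left]; intro x hx
        simp only [rp, mem_image, mem_insert] at hx
        rcases hx with ⟨y, rfl | hy, rfl⟩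
        · rw [u1]; simp [e7, e8]
        · rw [u2 y hy]; exact h7 y hy
  obtain ⟨r, a1, a2, a3⟩ := key A Subset.rfl
  exact ⟨r, a1, a2, a3.mono_right subset_union_left⟩

theorem class_mix {δ κ : ℝ} (hy : Hyp G δ) (hκ : 0 < κ) (S A : Finset G)
    (hS : 32 * S.card ≤ Fintype.card G) (a0 : G) (hA : κ * Fintype.card G ≤ cc a0 A) :
    (cc a0 (univ.filter fun a => cc a A < 16 * (S.filter fun e => e⁻¹ * a * e ∈ A).card) : ℝ) ≤
      1024 * δ / κ ^ 2 * Fintype.card G := by
  have hn := npos (G := G)
  have hδ := hy.pos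
  set n : ℝ := (Fintype.card G : ℝ) with hn'
  set B := univ.filter fun a => cc a A < 16 * (S.filter fun e => e⁻¹ * a * e ∈ A).card with hB
  set d : ℝ := cc a0 A / n with hd
  have hd1 : κ ≤ d := by rw [hd, le_div_iff₀ hn]; exact hA
  have hd2 : d ≤ 1 := by rw [hd, div_le_one hn, hn']; exact_mod_cast cc_le a0 A
  let p : G → ℝ := fun x => if x ∈ cl a0 then (if x ∈ A then 1 else 0) - d else 0
  have hp : ∀ x ∈ cl a0, ∀ e, p (e⁻¹ * x * e) = (if e⁻¹ * x * e ∈ A then 1 else 0) - d :=
    fun x hx e => if_pos (cl_trans hx (cj_mem_cl x e))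
  have h1 := hy.mix.conj p (fun e => if e ∈ S then 1 else 0) (fun x => by
    by_cases hx : x ∈ cl a0
    · simp only [hp x hx, sum_sub_distrib, cc_real, cc_cl hx, sum_const, card_univ, nsmul_eq_mul,
        hd, ← hn']
      field_simp; ring
    · exact sum_eq_zero fun e _ => if_neg fun h => hx (cl_trans h (cl_symm (cj_mem_cl x e))))
  have h2 : ∑ e, (if e ∈ S then (1 : ℝ) else 0) ^ 2 ≤ n :=
    sum_sq_le fun x => by split_ifs <;> simp
  have h3 : ∑ x, p x ^ 2 ≤ (cl a0).card := by
    calc _ ≤ ∑ x, if x ∈ cl a0 then (1 : ℝ) else 0 := sum_le_sum fun x _ => by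
          simp only [p]; split_ifs <;> nlinarith
      _ = _ := by simp
  have h4 : ((B ∩ cl a0).card : ℝ) * (κ * n / 32) ^ 2 ≤
      ∑ x, (∑ e, (if e ∈ S then 1 else 0) * p (e⁻¹ * x * e)) ^ 2 := by
    rw [← nsmul_eq_mul, ← sum_const]
    refine (sum_le_sum fun x hx => ?_).trans
      (sum_le_sum_of_subset_of_nonneg (subset_univ _) fun _ _ _ => sq_nonneg _)
    obtain ⟨h5, h6⟩ := mem_inter.1 hx
    have h7 := (mem_filter.1 h5).2
    rw [cc_cl h6] at h7
    have h8 : (cc a0 A : ℝ) < 16 * (S.filter fun e => e⁻¹ * x * e ∈ A).card := by exact_mod_cast h7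
    have h9 : ∑ e, (if e ∈ S then 1 else 0) * p (e⁻¹ * x * e) =
        (S.filter fun e => e⁻¹ * x * e ∈ A).card - S.card * d := by
      simp only [hp x h6, ite_mul, one_mul, zero_mul, sum_ite_mem, univ_inter, sum_sub_distrib,
        sum_boole, sum_const, nsmul_eq_mul]
    have h10 : (32 : ℝ) * S.card ≤ n := by rw [hn']; exact_mod_cast hS
    have h11 : (cc a0 A : ℝ) = d * n := by rw [hd]; field_simp
    rw [h9]
    refine pow_le_pow_left₀ (by positivity) ?_ 2
    nlinarith
  have h5 : ((B ∩ cl a0).card : ℝ) * (κ * n / 32) ^ 2 ≤ δ * n * n * (cl a0).card :=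
    h4.trans (h1.trans (by gcongr))
  have h6 : (zc a0 : ℝ) * (cl a0).card = n := by rw [hn']; exact_mod_cast zc_mul a0
  rw [cc_eq]
  push_cast
  rw [div_mul_eq_mul_div, le_div_iff₀ (by positivity)]
  have h7 : (0 : ℝ) ≤ zc a0 := by positivity
  have h8 := mul_le_mul_of_nonneg_left h5 h7
  have h9 : (zc a0 : ℝ) * (δ * n * n * (cl a0).card) = δ * n * n * n := by rw [← h6]; ring
  rw [h9] at h8
  refine le_of_mul_le_mul_right (a := n ^ 2) ?_ (by positivity)
  nlinarith

end Pool.Agent.Lib.MP_2c654c_co.Abs
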