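import Mathlib
import Pool.Agent.Lib.MP_2c654c_co.Abs.Greedy
import Pool.Agent.Lib.MP_2c654c_co.Abs.McD

set_option autoImplicit false

namespace Pool.Agent.Lib.MP_2c654c_co.Abs

open Finset Sum

variable {G : Type} [Group G] [Fintype G] [DecidableEq G]

theorem card_le_list {α : Type} [DecidableEq α] (l : List (Finset α)) :
    ∀ S : Finset α, (∀ p ∈ S, ∃ T ∈ l, p ∈ T) → S.card ≤ (l.map card).sum := by
  induction l with
  | nil => intro S h; simpa [eq_empty_iff_forall_notMem] using h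
  | cons T l ih =>
    intro S h
    have h1 := ih (S \ T) fun p hp => by
      obtain ⟨U, hU, h2⟩ := h p (mem_sdiff.1 hp).1
      rcases List.mem_cons.1 hU with rfl | hU
      · exact absurd h2 (mem_sdiff.1 hp).2
      · exact ⟨U, hU, h2⟩
    have h2 := le_card_sdiff T S
    simp only [List.map_cons, List.sum_cons]; omega

/-- a set together with its inverses -/
def sy (L : Finset G) : Finset G := L ∪ L.image fun x => x⁻¹

/-- few conjugators of `a` into `A` are blocked by `L` -/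
def Good (L A : Finset G) (a : G) : Prop :=
  16 * ((sy L).filter fun e => e⁻¹ * a * e ∈ A).card ≤ cc a A

theorem Good.c1 {L A : Finset G} {a : G} (h : Good L A a) :
    16 * (univ.filter fun e => e ∈ L ∧ e⁻¹ * a * e ∈ A).card ≤ cc a A := by
  refine le_trans (Nat.mul_le_mul_left _ (card_le_card fun e he => ?_)) h
  have := (mem_filter.1 he).2
  exact mem_filter.2 ⟨mem_union_left _ this.1, this.2⟩

theorem Good.c2 {L A : Finset G} {a : G} (h : Good L A a) :
    16 * (univ.filter fun e => e⁻¹ * a ∈ L ∧ e⁻¹ * a * e ∈ A).card ≤ cc a A := by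
  refine le_trans (Nat.mul_le_mul_left _ (card_le_card_of_injOn (fun e => a⁻¹ * e) (fun e he => ?_)
    (mul_right_injective _).injOn)) h
  have := (mem_filter.1 (mem_coe.1 he)).2
  refine mem_coe.2 (mem_filter.2 ⟨mem_union_right _ (mem_image.2 ⟨_, this.1, by group⟩), ?_⟩)
  rw [show (a⁻¹ * e)⁻¹ * a * (a⁻¹ * e) = e⁻¹ * a * e by group]; exact this.2

/-- rerouting patterns -/
def T0 (A : Finset G) (r : G → G) (a b : G) : Finset (G × G) :=
  univ.filter fun p => p.1⁻¹ * a * p.1 ∈ A ∧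
    p.2⁻¹ * b * p.2 = (r (p.1⁻¹ * a * p.1))⁻¹ * (p.1⁻¹ * a * p.1) * r (p.1⁻¹ * a * p.1)

theorem T0_fst (A : Finset G) (r : G → G) {a b : G} (hb : b ∈ cl a) (Q : G → Prop)
    [DecidablePred Q] : ((T0 A r a b).filter fun p => Q p.1).card =
      (univ.filter fun e => Q e ∧ e⁻¹ * a * e ∈ A).card * zc a := by
  rw [card_eq_sum_card_fiberwise (f := Prod.fst)
    (t := univ.filter fun e => Q e ∧ e⁻¹ * a * e ∈ A), ← smul_eq_mul, ← sum_const]
  · refine sum_congr rfl fun e he => ?_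
    have h1 := (mem_filter.1 he).2
    rw [← zc_cl hb, ← fib_eq (b := (r (e⁻¹ * a * e))⁻¹ * (e⁻¹ * a * e) * r (e⁻¹ * a * e))
      (cl_trans (cl_trans (cl_symm hb) (cj_mem_cl a e)) (cj_mem_cl _ _))]
    refine card_bij (fun p _ => p.2) (fun p hp => ?_) (fun p hp q hq h => ?_) fun y hy =>
      ⟨(e, y), ?_, rfl⟩
    · simp only [T0, mem_filter, mem_univ, true_and] at hp ⊢
      rw [← hp.2]; exact hp.1.1.2
    · exact Prod.ext ((mem_filter.1 hp).2.trans (mem_filter.1 hq).2.symm) h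
    · simp only [T0, mem_filter, mem_univ, true_and] at hy ⊢
      exact ⟨⟨⟨h1.2, hy⟩, h1.1⟩, trivial⟩
  · intro p hp
    simp only [T0, coe_filter, mem_filter, mem_univ, true_and, Set.mem_ofPred_eq] at hp ⊢
    exact ⟨hp.2, hp.1.1⟩

theorem T0_snd {A : Finset G} {r : G → G} (hr : Res A r) (a b : G) (Q : G → Prop)
    [DecidablePred Q] : ((T0 A r a b).filter fun p => Q p.2).card ≤
      (univ.filter fun e => Q e ∧ e⁻¹ * b * e ∈ rp A r).card * zc a := by
  rw [card_eq_sum_card_fiberwise (f := Prod.snd)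
    (t := univ.filter fun e => Q e ∧ e⁻¹ * b * e ∈ rp A r), ← smul_eq_mul, ← sum_const]
  · refine sum_le_sum fun e he => ?_
    obtain ⟨c, hc, h1⟩ := mem_image.1 (mem_filter.1 he).2.2
    refine le_trans (card_le_card_of_injOn Prod.fst (fun p hp => ?_) fun p hp q hq h => ?_)
      (fib_le a c)
    · simp only [T0, coe_filter, mem_filter, mem_univ, true_and, Set.mem_ofPred_eq] at hp ⊢
      refine hr.i4 hp.1.1.1 hc ?_
      simp only []
      rw [← hp.1.1.2, hp.2, h1]
    · exact Prod.ext h ((mem_filter.1 hp).2.trans (mem_filter.1 hq).2.symm)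
  · intro p hp
    simp only [T0, coe_filter, mem_filter, mem_univ, true_and, Set.mem_ofPred_eq] at hp ⊢
    exact ⟨hp.2, mem_image.2 ⟨_, hp.1.1, hp.1.2.symm⟩⟩

theorem T0_coin (A : Finset G) (r : G → G) (a b : G) (φ : G → G) :
    ((T0 A r a b).filter fun p => p.2 = φ p.1).card ≤ cc a A := by
  refine card_le_card_of_injOn Prod.fst (fun p hp => ?_) fun p hp q hq h => ?_
  · simp only [T0, coe_filter, mem_filter, mem_univ, true_and, Set.mem_ofPred_eq] at hp ⊢
    exact hp.1.1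
  · refine Prod.ext h ?_
    rw [(mem_filter.1 hp).2, (mem_filter.1 hq).2, h]

/-- admissible rerouting patterns -/
def Om (A : Finset G) (r : G → G) (a b : G) : Finset (G × G) :=
  (T0 A r a b).filter fun p => p.1 ∉ rl A r ∧ p.1⁻¹ * a ∉ rl A r ∧ p.2 ∉ rl A r ∧
    p.2⁻¹ * b ∉ rl A r ∧ p.2 ≠ p.1 ∧ p.2 ≠ p.1⁻¹ * a ∧ p.2 ≠ b * p.1⁻¹ ∧ p.2 ≠ b * (a⁻¹ * p.1)

theorem card_Om {A : Finset G} {r : G → G} (hr : Res A r) {a b : G} (hb : b ∈ cl a)
    (h8 : 8 ≤ zc a) (ha : Good (rl A r) A a) (hb' : Good (rl A r) (rp A r) b) :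
    cc a A * zc a ≤ 4 * (Om A r a b).card := by
  have h0 := T0_fst A r hb (fun _ => True)
  have h1 := T0_fst A r hb (fun e => e ∈ rl A r)
  have h2 := T0_fst A r hb (fun e => e⁻¹ * a ∈ rl A r)
  have h3 := T0_snd hr a b (fun e => e ∈ rl A r)
  have h4 := T0_snd hr a b (fun e => e⁻¹ * b ∈ rl A r)
  have h5 := T0_coin A r a b (fun e => e)
  have h6 := T0_coin A r a b (fun e => e⁻¹ * a)
  have h7 := T0_coin A r a b (fun e => b * e⁻¹)
  have h9 := T0_coin A r a b (fun e => b * (a⁻¹ * e))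
  have c1 := Nat.mul_le_mul_right (zc a) ha.c1
  have c2 := Nat.mul_le_mul_right (zc a) ha.c2
  have c3 := Nat.mul_le_mul_right (zc a) hb'.c1
  have c4 := Nat.mul_le_mul_right (zc a) hb'.c2
  rw [hr.cc_rp Subset.rfl, cc_cl hb] at c3 c4
  have c5 := Nat.mul_le_mul_left (cc a A) h8
  simp only [true_and, filter_true] at h0
  change _ = cc a A * zc a at h0
  have h10 := card_le_list [Om A r a b, (T0 A r a b).filter fun p => p.1 ∈ rl A r,
      (T0 A r a b).filter fun p => p.1⁻¹ * a ∈ rl A r, (T0 A r a b).filter fun p => p.2 ∈ rl A r,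
      (T0 A r a b).filter fun p => p.2⁻¹ * b ∈ rl A r, (T0 A r a b).filter fun p => p.2 = p.1,
      (T0 A r a b).filter fun p => p.2 = p.1⁻¹ * a, (T0 A r a b).filter fun p => p.2 = b * p.1⁻¹,
      (T0 A r a b).filter fun p => p.2 = b * (a⁻¹ * p.1)] (T0 A r a b) (fun p hp => by
    simp only [Om, List.mem_cons, List.not_mem_nil, or_false, exists_eq_or_imp, exists_eq_left,
      mem_filter, hp, true_and]
    tauto)
  simp only [List.map_cons, List.map_nil, List.sum_cons, List.sum_nil] at h10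
  simp only [mul_assoc] at c1 c2 c3 c4
  simp only [mul_assoc] at h1 h2 h3 h4 h10
  omega

theorem T0_deg {A : Finset G} {r : G → G} (hr : Res A r) {a b : G} (hb : b ∈ cl a)
    (F : Finset G) : ((T0 A r a b).filter fun p => p.1 ∈ F ∨ p.1⁻¹ * a ∈ F ∨ p.2 ∈ F ∨
      p.2⁻¹ * b ∈ F).card ≤ 4 * (F.card * zc a) := by
  have h1 := T0_fst A r hb (fun e => e ∈ F)
  have h2 := T0_fst A r hb (fun e => e⁻¹ * a ∈ F)
  have h3 := T0_snd hr a b (fun e => e ∈ F)
  have h4 := T0_snd hr a b (fun e => e⁻¹ * b ∈ F)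
  have k1 : ∀ Q : G → Prop, ∀ _ : DecidablePred Q,
      (univ.filter fun e => e ∈ F ∧ Q e).card * zc a ≤ F.card * zc a := fun Q _ =>
    Nat.mul_le_mul_right _ (card_le_card fun e he => (mem_filter.1 he).2.1)
  have k2 : ∀ (x : G) (Q : G → Prop), ∀ _ : DecidablePred Q,
      (univ.filter fun e => e⁻¹ * x ∈ F ∧ Q e).card * zc a ≤ F.card * zc a := fun x Q _ =>
    Nat.mul_le_mul_right _ (le_trans (card_le_card fun e he =>
      mem_filter.2 ⟨mem_univ _, (mem_filter.1 he).2.1⟩) (card_inv_mul F x))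
  have h5 := h1.le.trans (k1 _ _)
  have h6 := h2.le.trans (k2 _ _ _)
  have h7 := h3.trans (k1 _ _)
  have h8 := h4.trans (k2 _ _ _)
  simp only [filter_or]
  refine (card_union_le _ _).trans ((Nat.add_le_add_left ((card_union_le _ _).trans
    (Nat.add_le_add_left (card_union_le _ _) _)) _).trans ?_)
  omega

/-- edges inside `U` whose labels avoid `L` -/
def Ed (L U : Finset G) : Finset (G × G) :=
  univ.filter fun p => p.1 ∈ U ∧ p.2⁻¹ * p.1 * p.2 ∈ U ∧ p.2⁻¹ * p.1 * p.2 ≠ p.1 ∧ p.2 ∉ L ∧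
    p.2⁻¹ * p.1 ∉ L

theorem Ed_deg (L U F : Finset G) :
    ((Ed L U).filter fun p => p.2 ∈ F ∨ p.2⁻¹ * p.1 ∈ F).card ≤ 2 * (U.card * F.card) := by
  rw [filter_or, two_mul, ← card_product]
  refine (card_union_le _ _).trans (add_le_add (card_le_card fun p hp => ?_)
    (card_le_card_of_injOn (fun p => (p.1, p.2⁻¹ * p.1)) (fun p hp => ?_) fun p _ q _ h => ?_))
  · simp only [Ed, mem_filter, mem_univ, true_and, mem_product] at hp ⊢
    exact ⟨hp.1.1, hp.2⟩
  · simp only [Ed, coe_filter, mem_filter, mem_univ, true_and, Set.mem_ofPred_eq, coe_product,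
      Set.mem_prod, mem_coe] at hp ⊢
    exact ⟨hp.1.1, hp.2⟩
  · simp only [Prod.mk.injEq] at h
    obtain ⟨h1, h2⟩ := h
    rw [h1] at h2
    exact Prod.ext h1 (by simpa using h2)

theorem card_Ed {δ γ : ℝ} (hy : Hyp G δ) (hγ : 0 < γ) (hγ1 : γ ≤ 1) (hδ : δ ≤ γ ^ 3 / 2048)
    (L U : Finset G) (hL : 64 * L.card ≤ Fintype.card G) {a0 : G} (ha : a0 ≠ 1) (hU : U ⊆ cl a0)
    (hc : γ * Fintype.card G ≤ cc a0 U) : γ / 4 * Fintype.card G * U.card ≤ (Ed L U).card := by
  have hn := npos (G := G)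
  have hS : 32 * (sy L).card ≤ Fintype.card G := by
    have := card_union_le L (L.image fun x => x⁻¹)
    have : (L.image fun x => x⁻¹).card ≤ L.card := card_image_le
    unfold sy; omega
  have h1 := class_mix hy hγ (sy L) U hS a0 hc
  set B := univ.filter fun a => cc a U < 16 * ((sy L).filter fun e => e⁻¹ * a * e ∈ U).card
  have h2 : 2 * cc a0 B ≤ cc a0 U := by
    have h3 : 1024 * δ / γ ^ 2 ≤ γ / 2 := by
      rw [div_le_iff₀ (by positivity)]; linarith
    exact_mod_cast (show (2 : ℝ) * cc a0 B ≤ cc a0 U by nlinarith)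
  have h3 : U.card ≤ 2 * (U \ B).card := by
    rw [cc_eq, cc_eq, inter_eq_left.2 hU, ← mul_assoc, mul_comm 2, mul_assoc] at h2
    have h4 := Nat.le_of_mul_le_mul_left h2 (zc_pos a0)
    have h5 := card_sdiff_add_card_inter U B
    have h6 : (U ∩ B).card ≤ (B ∩ cl a0).card :=
      card_le_card fun x hx => mem_inter.2 ⟨(mem_inter.1 hx).2, hU (mem_inter.1 hx).1⟩
    omega
  have h4 : ∀ a ∈ U \ B, γ / 2 * Fintype.card G ≤
      (((Ed L U).filter fun p => p.1 = a).card : ℝ) := by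
    intro a ha'
    obtain ⟨h5, h6⟩ := mem_sdiff.1 ha'
    have h7 : Good L U a := by simpa [B, Good] using h6
    have h8 := h7.c1
    have h9 := h7.c2
    have h10 : cc a U ≤ ((Ed L U).filter fun p => p.1 = a).card + zc a +
        (univ.filter fun e => e ∈ L ∧ e⁻¹ * a * e ∈ U).card +
        (univ.filter fun e => e⁻¹ * a ∈ L ∧ e⁻¹ * a * e ∈ U).card := by
      have h11 : (univ.filter fun e => e⁻¹ * a * e ∈ U ∧ e⁻¹ * a * e ≠ a ∧ e ∉ L ∧
          e⁻¹ * a ∉ L).card ≤ ((Ed L U).filter fun p => p.1 = a).card :=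
        card_le_card_of_injOn (fun e => (a, e)) (fun e he => by simpa [Ed, h5] using he)
          fun e _ e' _ h => by simpa using h
      have h12 := card_le_list [univ.filter fun e => e⁻¹ * a * e ∈ U ∧ e⁻¹ * a * e ≠ a ∧ e ∉ L ∧
          e⁻¹ * a ∉ L, univ.filter fun e => e⁻¹ * a * e = a,
          univ.filter fun e => e ∈ L ∧ e⁻¹ * a * e ∈ U,
          univ.filter fun e => e⁻¹ * a ∈ L ∧ e⁻¹ * a * e ∈ U]
          (univ.filter fun e => e⁻¹ * a * e ∈ U) (fun p hp => by
        simp only [List.mem_cons, List.not_mem_nil, or_false, exists_eq_or_imp, exists_eq_left,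
          mem_filter, mem_univ, true_and] at hp ⊢
        tauto)
      simp only [List.map_cons, List.map_nil, List.sum_cons, List.sum_nil] at h12
      unfold cc zc
      omega
    have h11 := hy.zle a (ne_one_of_cl (hU h5) ha)
    have h12 : 7 * cc a U ≤ 8 * (((Ed L U).filter fun p => p.1 = a).card + zc a) := by omega
    have h13 := (Nat.cast_le (α := ℝ)).2 h12
    push_cast at h13
    rw [cc_cl (hU h5)] at h13
    have h14 : δ ≤ γ / 4 := by nlinarith [pow_pos hγ 2, pow_le_one₀ hγ.le hγ1 (n := 2)]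
    nlinarith
  have h5 : ((U \ B).card : ℝ) * (γ / 2 * Fintype.card G) ≤ (Ed L U).card := by
    rw [← nsmul_eq_mul, ← sum_const]
    refine (sum_le_sum h4).trans ?_
    rw [card_eq_sum_card_fiberwise (f := Prod.fst) (s := Ed L U) (t := univ) (by simp)]
    push_cast
    exact sum_le_sum_of_subset_of_nonneg (subset_univ _) fun _ _ _ => by positivity
  have h6 : (U.card : ℝ) ≤ 2 * (U \ B).card := by exact_mod_cast h3
  nlinarith [mul_pos hγ hn]

/-- rerouting property of a label set -/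
def PropR (A : Finset G) (r : G → G) (Z : Finset G) (κ : ℝ) : Prop :=
  ∀ a b, a ≠ 1 → b ∈ cl a → Good (rl A r) A a → Good (rl A r) (rp A r) b → ∀ Fz Fr : Finset G,
    4 * (Fz.card : ℝ) + cc a Fr < κ * Fintype.card G → ∃ p ∈ Om A r a b,
      p.1⁻¹ * a * p.1 ∉ Fr ∧ ({p.1, p.1⁻¹ * a, p.2, p.2⁻¹ * b} : Finset G) ⊆ Z \ Fz

/-- density property of a label set on small classes -/
def PropD (L Z : Finset G) (γ ε κ : ℝ) : Prop :=
  ∀ a0, a0 ≠ 1 → ((cl a0).card : ℝ) ≤ ε * Fintype.card G → ∀ U ⊆ cl a0,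
    γ * Fintype.card G ≤ cc a0 U → ∀ Fz : Finset G, 2 * (Fz.card : ℝ) < κ * Fintype.card G →
      ∃ p ∈ Ed L U, ({p.2, p.2⁻¹ * p.1} : Finset G) ⊆ Z \ Fz

theorem rand {δ γ ε l σ : ℝ} (t : ℕ) (hy : Hyp G δ) (hγ : 0 < γ) (hγ1 : γ ≤ 1)
    (hδ : δ ≤ γ ^ 3 / 2048) (hl : 0 < l) (hδl : δ ≤ l ^ 6 / 2000) (hε : ε ≤ l ^ 2 / 4)
    {A : Finset G} {r : G → G} (hr : Res A r) (hL : 64 * (rl A r).card ≤ Fintype.card G)
    (hA : ∀ a, a ≠ 1 → σ * Fintype.card G ≤ cc a A) (F : Finset G) :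
    ∃ Z : Finset G, (Z.card : ℝ) ≤ (1 / (t + 1) + l) * Fintype.card G ∧
      (1 / (t + 1)) ^ 4 * (univ \ F).card - l * Fintype.card G ≤ (Z \ F).card ∧
      PropR A r Z ((1 / (t + 1)) ^ 4 * σ / 4 - 4 * l) ∧
      PropD (rl A r) Z γ ε ((1 / (t + 1)) ^ 4 * γ / 4 - 2 * l) := by
  classical
  have hn := npos (G := G)
  have hδ0 := hy.pos
  let J2 : Finset (G × G) := univ.filter fun p => p.2 ∈ cl p.1
  let J3 : Finset (Finset G) :=
    ((univ.filter fun a : G => ((cl a).card : ℝ) ≤ ε * Fintype.card G).biUnion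
      fun a => (cl a).powerset).filter Finset.Nonempty
  let J : Finset (Option ((G × G) ⊕ Finset G)) := insertNone (J2.disjSum J3)
  let Ω : Option ((G × G) ⊕ Finset G) → Finset (G × G) := fun j => match j with
    | none => (univ \ F).image fun x => (x, x)
    | some (inl q) => Om A r q.1 q.2
    | some (inr U) => Ed (rl A r) U
  let T : Option ((G × G) ⊕ Finset G) → G × G → Finset G := fun j p => match j with
    | none => {p.1}
    | some (inl q) => {p.1, p.1⁻¹ * q.1, p.2, p.2⁻¹ * q.2}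
    | some (inr _) => {p.2, p.2⁻¹ * p.1}
  let Δ : Option ((G × G) ⊕ Finset G) → ℕ := fun j => match j with
    | none => 1
    | some (inl q) => 4 * zc q.1
    | some (inr U) => 2 * U.card
  have g1 : ∀ j ∈ J, 0 < Δ j := by
    rintro (_ | q | U) hj
    · simp [Δ]
    · simpa [Δ] using zc_pos q.1
    · have : U ∈ J3 := by simpa [J] using hj
      simpa [Δ] using (mem_filter.1 this).2
  have g2 : ∀ j ∈ J, ∀ w ∈ Ω j, (T j w).card ≤ 4 := by
    rintro (_ | q | U) _ w _
    · simp [T]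
    · exact card_le_four
    · exact card_le_two.trans (by norm_num)
  have g3 : ∀ j ∈ J, ∀ x, ((Ω j).filter fun w => x ∈ T j w).card ≤ Δ j := by
    rintro (_ | q | U) hj x
    · refine card_le_one.2 fun p hp q hq => ?_
      simp only [Ω, T, mem_filter, mem_image, mem_singleton] at hp hq
      obtain ⟨⟨y, _, rfl⟩, h1⟩ := hp
      obtain ⟨⟨z, _, rfl⟩, h2⟩ := hq
      rw [← show x = y from h1, ← show x = z from h2]
    · have h1 : q ∈ J2 := by simpa [J] using hj
      have h2 := T0_deg hr (mem_filter.1 h1).2 {x}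
      rw [card_singleton, one_mul] at h2
      refine le_trans (card_le_card fun p hp => ?_) h2
      simp only [Ω, T, Om, mem_filter, mem_insert, mem_singleton] at hp ⊢
      exact ⟨hp.1.1, by simpa only [eq_comm] using hp.2⟩
    · have h2 := Ed_deg (rl A r) U {x}
      rw [card_singleton, mul_one] at h2
      refine le_trans (card_le_card fun p hp => ?_) h2
      simp only [Ω, T, mem_filter, mem_insert, mem_singleton] at hp ⊢
      exact ⟨hp.1, by simpa only [eq_comm] using hp.2⟩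
  have g4 : ((J.card : ℝ) + 1) * Real.exp (-(l ^ 2 * Fintype.card G / 2)) < 1 := by
    set n : ℝ := (Fintype.card G : ℝ) with hn'
    have h1 : (J2.card : ℝ) ≤ n ^ 2 := by
      have := card_le_univ J2
      rw [Fintype.card_prod] at this
      rw [hn', sq]; exact_mod_cast this
    have h2 : (J3.card : ℝ) ≤ n * Real.exp (l ^ 2 * n / 4) := by
      refine le_trans (Nat.cast_le.2 ((card_filter_le _ _).trans card_biUnion_le)) ?_
      push_cast
      refine le_trans (sum_le_card_nsmul _ _ (Real.exp (l ^ 2 * n / 4)) fun a ha => ?_) ?_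
      · rw [card_powerset]
        push_cast
        calc (2 : ℝ) ^ (cl a).card ≤ Real.exp 1 ^ (cl a).card :=
              pow_le_pow_left₀ (by norm_num) (by linarith [Real.add_one_le_exp 1]) _
          _ = Real.exp ((cl a).card) := by rw [Real.exp_one_pow]
          _ ≤ _ := Real.exp_le_exp.2 (by nlinarith [(mem_filter.1 ha).2])
      · rw [nsmul_eq_mul]
        exact mul_le_mul_of_nonneg_right (by rw [hn']; exact_mod_cast card_le_univ _)
          (Real.exp_pos _).le
    have h3 : (J.card : ℝ) = J2.card + J3.card + 1 := by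
      simp only [J, card_insertNone, card_disjSum]; push_cast; ring
    have h4 : 1 ≤ Real.exp (l ^ 2 * n / 4) := Real.one_le_exp (by positivity)
    have h5 := Real.pow_div_factorial_le_exp (l ^ 2 * n / 4) (by positivity) 3
    have h6 : 2000 ≤ l ^ 6 * n := by have := hy.one_le; nlinarith
    have h7 : 1 ≤ n := by rw [hn']; exact_mod_cast Fintype.card_pos
    have h8 : 4 * n ^ 2 < Real.exp (l ^ 2 * n / 4) := by
      refine lt_of_lt_of_le ?_ h5
      rw [show (l ^ 2 * n / 4) ^ 3 / ((3 : ℕ).factorial : ℝ) = l ^ 6 * n * n ^ 2 / 384 by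
        simp [Nat.factorial]; ring]
      nlinarith [pow_pos hn 2]
    have h9 : Real.exp (l ^ 2 * n / 2) = Real.exp (l ^ 2 * n / 4) * Real.exp (l ^ 2 * n / 4) := by
      rw [← Real.exp_add]; congr 1; ring
    rw [Real.exp_neg, ← div_eq_mul_inv, div_lt_one (Real.exp_pos _), h9]
    calc (J.card : ℝ) + 1 ≤ 4 * n ^ 2 * Real.exp (l ^ 2 * n / 4) := by nlinarith
      _ < _ := by gcongr
  obtain ⟨Z, h1, h2⟩ := pick_set t J Ω T Δ g1 g2 g3 l hl.le g4
  have hρ : (0 : ℝ) < (1 / (t + 1)) ^ 4 := by positivity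
  refine ⟨Z, h1, ?_, ?_, ?_⟩
  · have h3 := h2 none (by simp [J])
    simp only [Ω, T, Δ, Nat.cast_one, mul_one] at h3
    rw [card_image_of_injective _ (fun a b h => (Prod.ext_iff.1 h).1)] at h3
    refine h3.trans (Nat.cast_le.2 (card_le_card_of_injOn Prod.fst (fun p hp => ?_)
      fun p hp q hq h => ?_))
    · simp only [coe_filter, mem_image, Set.mem_ofPred_eq] at hp
      obtain ⟨⟨y, hy, rfl⟩, h4⟩ := hp
      simpa using ⟨by simpa using h4, by simpa using hy⟩
    · simp only [coe_filter, mem_image, Set.mem_ofPred_eq] at hp hq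
      obtain ⟨⟨y, _, rfl⟩, _⟩ := hp
      obtain ⟨⟨z, _, rfl⟩, _⟩ := hq
      rw [show y = z from h]
  · intro a b ha hb ga gb Fz Fr hF
    have h3 := h2 (some (inl (a, b))) (by simp [J, J2, hb])
    simp only [Ω, T, Δ] at h3
    have h4 := (Nat.cast_le (α := ℝ)).2 (card_Om hr hb (hy.zge a) ga gb)
    have h5 := (Nat.cast_le (α := ℝ)).2 (T0_deg hr hb Fz)
    have h6 := T0_fst A r hb (fun e => e⁻¹ * a * e ∈ Fr)
    have h7 : (((T0 A r a b).filter fun p => p.1⁻¹ * a * p.1 ∈ Fr).card : ℝ) ≤ cc a Fr * zc a := by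
      rw [h6]
      have : (univ.filter fun e => e⁻¹ * a * e ∈ Fr ∧ e⁻¹ * a * e ∈ A).card ≤ cc a Fr :=
        card_le_card fun e he => mem_filter.2 ⟨mem_univ _, (mem_filter.1 he).2.1⟩
      exact_mod_cast Nat.mul_le_mul_right _ this
    have h8 := hA a ha
    have hz : (0 : ℝ) < zc a := by exact_mod_cast zc_pos a
    push_cast at h3 h4 h5
    obtain ⟨p, hp1, hp2⟩ := exists_mem_notMem_of_card_lt_card
      (s := ((T0 A r a b).filter fun p => p.1 ∈ Fz ∨ p.1⁻¹ * a ∈ Fz ∨ p.2 ∈ Fz ∨ p.2⁻¹ * b ∈ Fz) ∪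
        (T0 A r a b).filter fun p => p.1⁻¹ * a * p.1 ∈ Fr)
      (t := (Om A r a b).filter fun p => ({p.1, p.1⁻¹ * a, p.2, p.2⁻¹ * b} : Finset G) ⊆ Z) (by
        refine lt_of_le_of_lt (card_union_le _ _) (Nat.cast_lt (α := ℝ).1 ?_)
        push_cast
        refine lt_of_lt_of_le ?_ h3
        have h9 := mul_lt_mul_of_pos_right hF hz
        have h10 := mul_le_mul_of_nonneg_left (mul_le_mul_of_nonneg_right h8 hz.le) hρ.le
        have h11 := mul_le_mul_of_nonneg_left h4 hρ.le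
        linarith)
    obtain ⟨hp3, hp4⟩ := mem_filter.1 hp1
    have hp5 := (mem_filter.1 hp3).1
    simp only [mem_union, mem_filter, hp5, true_and, not_or] at hp2
    refine ⟨p, hp3, hp2.2, subset_sdiff.2 ⟨hp4, ?_⟩⟩
    simpa using hp2.1
  · intro a0 ha hc U hU hγU Fz hF
    have hU' : U.Nonempty := by
      rw [nonempty_iff_ne_empty]; rintro rfl
      rw [cc_empty] at hγU
      have := mul_pos hγ hn; simp at hγU; linarith
    have h3 := h2 (some (inr U)) (by
      simp only [J, J3, some_mem_insertNone, inr_mem_disjSum, mem_filter, mem_biUnion, mem_univ,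
        true_and, mem_powerset]
      exact ⟨⟨a0, hc, hU⟩, hU'⟩)
    simp only [Ω, T, Δ] at h3
    have h4 := card_Ed hy hγ hγ1 hδ _ U hL ha hU hγU
    have h5 := (Nat.cast_le (α := ℝ)).2 (Ed_deg (rl A r) U Fz)
    have hz : (0 : ℝ) < U.card := by exact_mod_cast card_pos.2 hU'
    push_cast at h3 h5
    obtain ⟨p, hp1, hp2⟩ := exists_mem_notMem_of_card_lt_card
      (s := (Ed (rl A r) U).filter fun p => p.2 ∈ Fz ∨ p.2⁻¹ * p.1 ∈ Fz)
      (t := (Ed (rl A r) U).filter fun p => ({p.2, p.2⁻¹ * p.1} : Finset G) ⊆ Z) (by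
        refine Nat.cast_lt (α := ℝ).1 (lt_of_lt_of_le ?_ h3)
        have h9 := mul_lt_mul_of_pos_right hF hz
        have h11 := mul_le_mul_of_nonneg_left h4 hρ.le
        linarith)
    obtain ⟨hp3, hp4⟩ := mem_filter.1 hp1
    simp only [mem_filter, hp3, true_and, not_or] at hp2
    refine ⟨p, hp3, subset_sdiff.2 ⟨hp4, ?_⟩⟩
    simpa using hp2

end Pool.Agent.Lib.MP_2c654c_co.Abs
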