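import Mathlib
import Pool.Agent.Lib.MP_2c654c_co.Abs.Rand

set_option autoImplicit false

namespace Pool.Agent.Lib.MP_2c654c_co.Abs

open Finset Sum

variable {G : Type} [Group G] [Fintype G] [DecidableEq G]

theorem down3 {L Z : Finset G} {γ ε κ : ℝ} (hγ : 0 < γ) (h : PropD L Z γ ε κ) (U F : Finset G)
    (h1 : 1 ∉ U) (hU : (U.card : ℝ) ≤ γ * ε * Fintype.card G)
    (hF : 2 * ((F.card : ℝ) + U.card) < κ * Fintype.card G) :
    ∃ TL ⊆ Z \ (L ∪ F), ∃ TP ⊆ U, PM TL TP ∧ ∀ a, (cc a (U \ TP) : ℝ) ≤ γ * Fintype.card G := by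
  classical
  have hn := npos (G := G)
  obtain ⟨⟨TL, TP⟩, hT, hmax⟩ := exists_max_image
    (univ.filter fun T : Finset G × Finset G => T.1 ⊆ Z \ (L ∪ F) ∧ T.2 ⊆ U ∧ PM T.1 T.2)
    (fun T => T.2.card) ⟨(∅, ∅), by simp [PM.empty]⟩
  obtain ⟨t1, t2, t3⟩ := (mem_filter.1 hT).2
  refine ⟨TL, t1, TP, t2, t3, fun a => ?_⟩
  by_contra h2
  have h3 := (not_le.1 h2).le
  have ha : a ≠ 1 := by
    rintro rfl
    rw [cc_one fun h => h1 (mem_sdiff.1 h).1] at h3
    have := mul_pos hγ hn; simp at h3; linarith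
  have h4 : cc a (U \ TP) = cc a ((U \ TP) ∩ cl a) := by rw [cc_eq, cc_eq, inter_assoc, inter_self]
  have h5 : ((cl a).card : ℝ) ≤ ε * Fintype.card G := by
    have h6 : (cc a (U \ TP) : ℝ) ≤ zc a * U.card := by
      exact_mod_cast (cc_mono a sdiff_subset).trans (cc_card_le a U)
    have h7 : (zc a : ℝ) * (cl a).card = Fintype.card G := by exact_mod_cast zc_mul a
    have hz : (0 : ℝ) < zc a := by exact_mod_cast zc_pos a
    refine le_of_mul_le_mul_left (a := zc a * γ) ?_ (by positivity)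
    nlinarith
  have h6 : (TL.card : ℝ) ≤ U.card := by
    have := t3.card
    exact_mod_cast this.le.trans (card_le_card t2)
  obtain ⟨p, hp1, hp2⟩ := h a ha h5 _ inter_subset_right (h4 ▸ h3) (F ∪ TL) (by
    have := (Nat.cast_le (α := ℝ)).2 (card_union_le F TL)
    push_cast at this; linarith)
  obtain ⟨x, e⟩ := p
  simp only [Ed, mem_filter, mem_univ, true_and, mem_inter, mem_sdiff, insert_subset_iff,
    singleton_subset_iff, mem_union, not_or] at hp1 hp2
  have h7 : e * (e⁻¹ * x) = x := by group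
  have h8 := PM.edge (e := e) (f := e⁻¹ * x) (by rw [h7]; exact hp1.2.2.1.symm)
  rw [h7] at h8
  have h9 : Disjoint {x, e⁻¹ * x * e} TP := by simp [hp1.1.1.2, hp1.2.1.1.2]
  have h10 := hmax (_, _) (mem_filter.2 ⟨mem_univ _, ?_, ?_,
    h8.union t3 (by simp [hp2.1.2.2, hp2.2.2.2]) h9⟩)
  · simp only [card_union_of_disjoint h9, card_pair hp1.2.2.1.symm] at h10; omega
  · refine union_subset ?_ t1
    simp [insert_subset_iff, hp2.1.1, hp2.2.1, hp2.1.2.1, hp2.2.2.1, hp1.2.2.2.1, hp1.2.2.2.2]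
  · refine union_subset ?_ t2
    simp [insert_subset_iff, hp1.1.1.1, hp1.2.1.1.1]

theorem down1 {δ κ : ℝ} (hy : Hyp G δ) (Z Y F : Finset G) (U : Finset G) (h1 : 1 ∉ U)
    (hU : ∀ u ∈ U, κ * Fintype.card G ≤ (Z.filter fun f => u * f ∈ Y ∧ f * u ∈ Y).card)
    (hZ : Disjoint U Z) (hF : (F.card : ℝ) + 5 * U.card + δ * Fintype.card G < κ * Fintype.card G) :
    ∃ ZU ⊆ Z \ F, ∃ YU ⊆ Y, PM (U ∪ ZU) YU ∧ ZU.card ≤ U.card := by
  induction U using Finset.induction_on with
  | empty => exact ⟨∅, by simp, ∅, by simp, by simpa using PM.empty, by simp⟩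
  | insert u U hu ih =>
    rw [card_insert_of_notMem hu] at hF ⊢
    push_cast at hF
    rw [disjoint_insert_left] at hZ
    obtain ⟨ZU, a1, YU, a2, a3, a4⟩ := ih (fun h => h1 (mem_insert_of_mem h))
      (fun x hx => hU x (mem_insert_of_mem hx)) hZ.2 (by linarith)
    have b1 := hU u (mem_insert_self _ _)
    have b2 := hy.zle u (fun h => h1 (h ▸ mem_insert_self _ _))
    have b3 : YU.card ≤ 2 * U.card := by
      have := card_union_le U ZU
      have := a3.card; omega
    obtain ⟨f, hf1, hf2⟩ := exists_mem_notMem_of_card_lt_card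
      (s := F ∪ ZU ∪ (univ.filter fun f => u * f ∈ YU) ∪ (univ.filter fun f => f * u ∈ YU) ∪
        univ.filter fun f => f⁻¹ * u * f = u)
      (t := Z.filter fun f => u * f ∈ Y ∧ f * u ∈ Y) (by
        have c1 : (univ.filter fun f => u * f ∈ YU).card ≤ YU.card :=
          card_le_card_of_injOn (fun f => u * f) (fun _ hy => (mem_filter.1 hy).2)
            (mul_right_injective _).injOn
        have c2 : (univ.filter fun f => f * u ∈ YU).card ≤ YU.card :=
          card_le_card_of_injOn (fun f => f * u) (fun _ hy => (mem_filter.1 hy).2)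
            (mul_left_injective _).injOn
        have c3 := card_union_le F ZU
        refine lt_of_le_of_lt (b := F.card + 5 * U.card + zc u) ((card_union_le _ _).trans
          (Nat.add_le_add_right ((card_union_le _ _).trans ((Nat.add_le_add_right
            (card_union_le _ _) _).trans (by omega))) _)) ?_
        refine Nat.cast_lt (α := ℝ).1 ?_
        push_cast; linarith)
    simp only [mem_filter, mem_union, mem_univ, true_and, not_or] at hf1 hf2
    obtain ⟨⟨⟨⟨d1, d2⟩, d3⟩, d4⟩, d5⟩ := hf2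
    have d6 : u * f ≠ f * u := fun e => d5 (by rw [mul_assoc, e]; group)
    have d7 : u ∉ ZU := fun h => hZ.1 (mem_sdiff.1 (a1 h)).1
    have d8 : f ∉ U := fun h => disjoint_left.1 hZ.2 h hf1.1
    refine ⟨insert f ZU, insert_subset (mem_sdiff.2 ⟨hf1.1, d1⟩) a1, {u * f, f * u} ∪ YU,
      union_subset (by simp [insert_subset_iff, hf1.2]) a2,
      ((PM.edge d6).union a3 (by simp [hu, d2, d7, d8]) (by simp [d3, d4])).of_eq ?_ rfl,
      (card_insert_le _ _).trans (by omega)⟩
    ext x; simp only [mem_union, mem_insert, mem_singleton]; tauto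

theorem down2 {A Z : Finset G} {r : G → G} {κ : ℝ} (hr : Res A r) (h : PropR A r Z κ) (k : ℕ) :
    ∀ U Fz Fr : Finset G, U.card = k → 1 ∉ U →
      (∀ a ∈ U, Good (rl A r) A a ∧ Good (rl A r) (rp A r) a) → Disjoint U (A ∪ rp A r) →
      (∀ a, Even (U ∩ cl a).card) →
      (∀ a, 4 * ((Fz.card : ℝ) + 2 * U.card) + cc a Fr + cc a U < κ * Fintype.card G) →
      ∃ ZU ⊆ Z \ (rl A r ∪ Fz), ∃ R ⊆ A \ Fr, PM ZU (U ∪ (R ∪ rp R r)) := by
  induction k using Nat.strong_induction_on with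
  | _ k ih =>
    intro U Fz Fr hk h1 hg hd he hF
    rcases U.eq_empty_or_nonempty with rfl | ⟨a, ha⟩
    · exact ⟨∅, by simp, ∅, by simp, by simpa [rp] using PM.empty⟩
    obtain ⟨b, hb1, hb2⟩ : ∃ b ∈ U ∩ cl a, b ≠ a := by
      refine exists_mem_ne ?_ a
      have h2 : 0 < (U ∩ cl a).card := card_pos.2 ⟨a, mem_inter.2 ⟨ha, self_mem_cl a⟩⟩
      obtain ⟨m, hm⟩ := he a
      omega
    obtain ⟨hb, hb3⟩ := mem_inter.1 hb1
    obtain ⟨⟨e, e'⟩, hp1, hp2, hp3⟩ := h a b (fun h => h1 (h ▸ ha)) hb3 (hg a ha).1 (hg b hb).2 Fz Fr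
      (by have := hF a; have : (0 : ℝ) ≤ U.card := by positivity
          have : (0 : ℝ) ≤ cc a U := by positivity
          linarith)
    simp only [Om, T0, mem_filter, mem_univ, true_and] at hp1 hp2 hp3
    obtain ⟨⟨q1, q2⟩, q3, q4, q5, q6, q7, q8, q9, q10⟩ := hp1
    set c := e⁻¹ * a * e with hc
    have hbe : b ∈ U.erase a := mem_erase.2 ⟨hb2, hb⟩
    have c1 : ((U.erase a).erase b).card + 2 = U.card := by
      rw [card_erase_of_mem hbe, card_erase_of_mem ha]
      have := card_pos.2 ⟨b, hbe⟩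
      rw [card_erase_of_mem ha] at this; omega
    have c2 : (U.erase a).erase b ⊆ U := (erase_subset _ _).trans (erase_subset _ _)
    obtain ⟨ZU, a1, R, a2, a3⟩ := ih _ (by omega) ((U.erase a).erase b)
      ({e, e⁻¹ * a, e', e'⁻¹ * b} ∪ Fz) (insert c Fr) rfl (fun h => h1 (c2 h))
      (fun x hx => hg x (c2 hx)) (hd.mono_left c2) (fun x => by
        have h2 := he x
        rw [erase_inter, erase_inter]
        by_cases h3 : a ∈ cl x
        · have h4 : a ∈ U ∩ cl x := mem_inter.2 ⟨ha, h3⟩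
          have h5 : b ∈ (U ∩ cl x).erase a := mem_erase.2 ⟨hb2, mem_inter.2 ⟨hb, cl_trans h3 hb3⟩⟩
          have h6 := card_pos.2 ⟨b, h5⟩
          rw [card_erase_of_mem h5, card_erase_of_mem h4] at *
          obtain ⟨m, hm⟩ := h2
          exact ⟨m - 1, by omega⟩
        · rw [erase_eq_of_notMem (a := a) (fun h => h3 (mem_inter.1 h).2),
            erase_eq_of_notMem (fun h => h3 (cl_trans (mem_inter.1 h).2 (cl_symm hb3)))]
          exact h2) (fun x => by
        have h2 := hF x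
        have h3 : ({e, e⁻¹ * a, e', e'⁻¹ * b} ∪ Fz).card ≤ 4 + Fz.card :=
          (card_union_le _ _).trans (Nat.add_le_add_right card_le_four _)
        have h4 : cc x (insert c Fr) + cc x ((U.erase a).erase b) ≤ cc x Fr + cc x U := by
          have h5 := cc_union_le x {c} Fr
          have h6 := cc_union x (S := {a}) (T := U.erase a) (by simp)
          rw [← insert_eq, insert_erase ha] at h6
          have h7 := cc_mono x (erase_subset b (U.erase a))
          have h8 : cc x {c} = cc x {a} := by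
            by_cases h9 : a ∈ cl x
            · rw [cc_single h9, cc_single (cl_trans h9 (cj_mem_cl a e))]
            · rw [cc_single_not h9, cc_single_not fun h => h9 (cl_trans h (cl_symm (cj_mem_cl a e)))]
          rw [← insert_eq] at h5; omega
        have h5 := (Nat.cast_le (α := ℝ)).2 h3
        have h6 := (Nat.cast_le (α := ℝ)).2 h4
        have h7 := congrArg (Nat.cast : ℕ → ℝ) c1
        push_cast at h5 h6 h7
        linarith)
    have hdA : ∀ x ∈ U, x ∉ A ∧ x ∉ rp A r := fun x hx => by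
      simpa using disjoint_left.1 hd hx
    have d1 : (r c)⁻¹ * c * r c ∈ rp A r := mem_image_of_mem _ q1
    have d2 : e * (e⁻¹ * a) = a := by group
    have d3 : e' * (e'⁻¹ * b) = b := by group
    have e1 := PM.edge (e := e) (f := e⁻¹ * a) (by
      rw [d2]; intro h; exact (hdA a ha).1 (h ▸ q1))
    have e2 := PM.edge (e := e') (f := e'⁻¹ * b) (by
      rw [d3, q2]; intro h; exact (hdA b hb).2 (h ▸ d1))
    rw [d2, ← hc] at e1
    rw [d3, q2] at e2
    have hRA : R ⊆ A := a2.trans sdiff_subset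
    have hcR : c ∉ R := fun h => (mem_sdiff.1 (a2 h)).2 (mem_insert_self _ _)
    have q9' : e'⁻¹ * b ≠ e := fun h => q9 (by rw [← h]; group)
    have q10' : e'⁻¹ * b ≠ e⁻¹ * a := fun h => q10 (by
      calc e' = b * (e'⁻¹ * b)⁻¹ := by group
        _ = _ := by rw [h]; group)
    have e3 := e1.union e2 (by simp [q7, q8, q9', q10']) (by
      simp only [disjoint_insert_left, disjoint_singleton_left, mem_insert, mem_singleton, not_or]
      exact ⟨⟨hb2.symm, fun h => (hdA a ha).2 (h ▸ d1)⟩, fun h => (hdA b hb).1 (h ▸ q1),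
        fun h => hr.i5 c q1 (h ▸ q1)⟩)
    have e4 := e3.union a3 (by
      refine Disjoint.mono_right a1 (disjoint_left.2 fun x hx hx' => (mem_sdiff.1 hx').2 ?_)
      simp only [mem_union, mem_insert, mem_singleton] at hx ⊢; tauto) (by
      have f1 : ∀ x ∈ U, x ∉ R ∪ rp R r := fun x hx h => by
        rcases mem_union.1 h with h | h
        · exact (hdA x hx).1 (hRA h)
        · exact (hdA x hx).2 (rp_mono hRA r h)
      simp only [disjoint_union_left, disjoint_insert_left, disjoint_singleton_left,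
        mem_union (s := (U.erase a).erase b), not_or]
      refine ⟨⟨⟨by simp, f1 a ha⟩, fun h => (hdA c (c2 h)).1 q1, ?_⟩, ⟨by simp, f1 b hb⟩,
        fun h => (hdA _ (c2 h)).2 d1, ?_⟩
      · rw [mem_union, not_or]
        exact ⟨hcR, fun h => disjoint_left.1 hr.disj q1 (rp_mono hRA r h)⟩
      · rw [mem_union, not_or]
        refine ⟨fun h => hr.i5 c q1 (hRA h), fun h => ?_⟩
        obtain ⟨y, hy, h2⟩ := mem_image.1 h
        exact hcR (hr.i4 (hRA hy) q1 h2 ▸ hy))
    refine ⟨_, union_subset ?_ (a1.trans (sdiff_subset_sdiff Subset.rfl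
      (union_subset_union Subset.rfl subset_union_right))), insert c R,
      insert_subset (mem_sdiff.2 ⟨q1, hp2⟩) (a2.trans (sdiff_subset_sdiff Subset.rfl
        (subset_insert _ _))), e4.of_eq rfl ?_⟩
    · simp only [insert_subset_iff, singleton_subset_iff, mem_sdiff] at hp3
      simp only [union_subset_iff, insert_subset_iff, singleton_subset_iff, mem_sdiff, mem_union,
        not_or]
      tauto
    · ext x
      simp only [rp, image_insert, mem_union, mem_insert, mem_singleton, mem_erase]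
      by_cases x1 : x = a <;> by_cases x2 : x = b <;> simp [x1, x2, ha, hb]
      tauto

theorem even_of_union {S T : Finset G} (h : Disjoint S T) (a : G) (h1 : Even ((S ∪ T) ∩ cl a).card)
    (h2 : Even (T ∩ cl a).card) : Even (S ∩ cl a).card := by
  rw [union_inter_distrib_right,
    card_union_of_disjoint (h.mono inter_subset_left inter_subset_left)] at h1
  exact (Nat.even_add.1 h1).2 h2

theorem stage {δ γ ε κ1 κR κD σ ξ : ℝ} (hy : Hyp G δ) (hγ : 0 < γ) (hε1 : ε ≤ 1)
    {A Z : Finset G} {r : G → G} (hr : Res A r) (hR : PropR A r Z κR)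
    (hD : PropD (rl A r) Z γ ε κD) (X L P Y : Finset G) (h1 : 1 ∉ L) (h2 : 1 ∉ P ∪ Y)
    (hLP : L.card = P.card) (hX : (X.card : ℝ) ≤ ξ * Fintype.card G)
    (hnib : ∃ TL ⊆ L, ∃ TP ⊆ P, PM TL TP ∧ (((P.filter fun a => γ * Fintype.card G ≤ cc a P) \
      TP).card : ℝ) ≤ γ * ε * Fintype.card G)
    (d1 : Disjoint L (Z \ (rl A r ∪ X))) (d2 : Disjoint L (rl A r)) (d3 : Disjoint P Y)
    (d4 : Disjoint (P ∪ Y) (A ∪ rp A r))
    (hg : ∀ a ∈ P ∪ Y, Good (rl A r) A a ∧ Good (rl A r) (rp A r) a)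
    (hL : ∀ u ∈ L, κ1 * Fintype.card G ≤
      ((Z \ (rl A r ∪ X)).filter fun f => u * f ∈ Y ∧ f * u ∈ Y).card)
    (he : ∀ a, Even ((P ∪ Y) ∩ cl a).card) (hY : ∀ a, (cc a Y : ℝ) ≤ σ * Fintype.card G)
    (n1 : 2 * (ξ + γ * ε) < κD) (n2 : 11 * γ + δ < κ1) (n3 : 4 * ξ + 30 * γ + 9 * σ < κR) :
    ∃ ZZ ⊆ (Z \ (rl A r ∪ X)) ∪ rl A r, PM (L ∪ ZZ) (P ∪ Y ∪ (A ∪ rp A r)) := by
  have hn := npos (G := G)
  set n : ℝ := (Fintype.card G : ℝ) with hn'
  obtain ⟨TL, t1, TP, t2, t3, t4⟩ := hnib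
  set Z1 := Z \ (rl A r ∪ X) with hZ1
  set Act := P.filter fun a => γ * n ≤ cc a P with hAct
  have hγn := mul_pos hγ hn
  have hγε : γ * ε * n ≤ γ * n := by nlinarith
  have h1P : 1 ∉ P := fun h => h2 (mem_union_left _ h)
  obtain ⟨T3L, s1, T3P, s2, s3, s4⟩ := down3 hγ hD (Act \ TP) X
    (fun h => h1P (mem_filter.1 (mem_sdiff.1 h).1).1) t4 (by nlinarith)
  have c1 : (T3L.card : ℝ) ≤ γ * n := by
    have := (Nat.cast_le (α := ℝ)).2 (s3.card.le.trans (card_le_card s2))
    linarith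
  have c2 : ∀ a, (cc a (P \ Act) : ℝ) ≤ γ * n := by
    intro a
    by_cases h : γ * n ≤ cc a P
    · rw [cc_eq, card_eq_zero.2]
      · simpa using hγn.le
      · refine eq_empty_of_forall_notMem fun x hx => ?_
        obtain ⟨h3, h4⟩ := mem_inter.1 hx
        exact (mem_sdiff.1 h3).2 (mem_filter.2 ⟨(mem_sdiff.1 h3).1, by rwa [cc_cl h4]⟩)
    · exact le_trans (Nat.cast_le.2 (cc_mono a sdiff_subset)) (not_le.1 h).le
  have c3 : ((L \ TL).card : ℝ) ≤ 2 * (γ * n) := by
    have h3 : (L \ TL).card = (P \ TP).card := by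
      rw [card_sdiff_of_subset t1, card_sdiff_of_subset t2, hLP, t3.card]
    have h4 : (P \ TP).card ≤ (P \ Act).card + (Act \ TP).card :=
      le_trans (card_le_card fun x hx => by
        simp only [mem_union, mem_sdiff] at hx ⊢; tauto) (card_union_le _ _)
    have h5 := card_le_of_cc c2
    have h6 := (Nat.cast_le (α := ℝ)).2 (h3.le.trans h4)
    push_cast at h6; linarith
  obtain ⟨Z2, u1, YU, u2, u3, u4⟩ := down1 hy Z1 Y T3L (L \ TL) (fun h => h1 (mem_sdiff.1 h).1)
    (fun u hu => hL u (mem_sdiff.1 hu).1) (d1.mono_left sdiff_subset) (by nlinarith)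
  have c4 : (Z2.card : ℝ) ≤ 2 * (γ * n) := le_trans (Nat.cast_le.2 u4) c3
  have s2' : T3P ⊆ P := s2.trans (sdiff_subset.trans (filter_subset _ _))
  have dT : Disjoint TP T3P := disjoint_right.2 fun x hx => (mem_sdiff.1 (s2 hx)).2
  set U := (P \ (TP ∪ T3P)) ∪ (Y \ YU) with hU
  have hUs : U ⊆ P ∪ Y := union_subset_union sdiff_subset sdiff_subset
  have m1 : PM (TL ∪ T3L ∪ (L \ TL ∪ Z2)) (TP ∪ T3P ∪ YU) := by
    refine (t3.union s3 (d1.mono t1 s1) dT).union u3 ?_ (d3.mono (union_subset t2 s2') u2)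
    rw [disjoint_union_left, disjoint_union_right, disjoint_union_right]
    exact ⟨⟨disjoint_sdiff, d1.mono t1 (u1.trans sdiff_subset)⟩, d1.symm.mono s1 sdiff_subset,
      disjoint_right.2 fun x hx => (mem_sdiff.1 (u1 hx)).2⟩
  have dU : Disjoint U (TP ∪ T3P ∪ YU) := by
    rw [hU, disjoint_union_left, disjoint_union_right (t := TP ∪ T3P),
      disjoint_union_right (t := TP ∪ T3P)]
    exact ⟨⟨sdiff_disjoint, d3.mono sdiff_subset u2⟩,
      d3.symm.mono sdiff_subset (union_subset t2 s2'), sdiff_disjoint⟩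
  have eU : U ∪ (TP ∪ T3P ∪ YU) = P ∪ Y := by
    rw [hU, union_union_union_comm, sdiff_union_of_subset (union_subset t2 s2'),
      sdiff_union_of_subset u2]
  have c5 : ∀ a, (cc a U : ℝ) ≤ 2 * (γ * n) + σ * n := by
    intro a
    have h3 : cc a U ≤ cc a (P \ Act) + cc a ((Act \ TP) \ T3P) + cc a Y :=
      le_trans (cc_mono a fun x hx => by
        simp only [hU, mem_union, mem_sdiff] at hx ⊢; tauto)
        ((cc_union_le _ _ _).trans (Nat.add_le_add_right (cc_union_le _ _ _) _))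
    have h4 := (Nat.cast_le (α := ℝ)).2 h3
    push_cast at h4; linarith [c2 a, s4 a, hY a]
  obtain ⟨Z3, v1, R, v2, v3⟩ := down2 hr hR _ U (X ∪ T3L ∪ Z2) ∅ rfl (fun h => h2 (hUs h))
    (fun a ha => hg a (hUs ha)) (d4.mono_left hUs)
    (fun a => even_of_union dU a (eU ▸ he a) (m1.even a)) (fun a => by
      have h3 := card_le_of_cc c5
      have h4 := (Nat.cast_le (α := ℝ)).2
        ((card_union_le (X ∪ T3L) Z2).trans (Nat.add_le_add_right (card_union_le _ _) _))
      push_cast at h4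
      rw [cc_empty, Nat.cast_zero]
      nlinarith [c5 a])
  have hRA : R ⊆ A := v2.trans sdiff_subset
  have v1' : Z3 ⊆ Z1 := v1.trans (sdiff_subset_sdiff Subset.rfl
    (union_subset_union Subset.rfl (subset_union_left.trans subset_union_left)))
  have m2 := hr.pm (A \ R) sdiff_subset
  have eL : TL ∪ T3L ∪ (L \ TL ∪ Z2) = L ∪ (T3L ∪ Z2) := by
    rw [union_union_union_comm, union_sdiff_of_subset t1]
  have hRR : R ∪ rp R r ⊆ A ∪ rp A r := union_subset_union hRA (rp_mono hRA r)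
  have m3 := (m1.of_eq eL rfl).union v3 (by
      rw [disjoint_union_left]
      refine ⟨d1.mono_right v1', disjoint_right.2 fun x hx h => (mem_sdiff.1 (v1 hx)).2 ?_⟩
      simp only [mem_union] at h ⊢; tauto) (by
      rw [disjoint_union_right]
      exact ⟨dU.symm, d4.mono (eU ▸ subset_union_right) hRR⟩)
  have eP : TP ∪ T3P ∪ YU ∪ (U ∪ (R ∪ rp R r)) = P ∪ Y ∪ (R ∪ rp R r) := by
    rw [← union_assoc, union_comm _ U, eU]
  have hZ1' : Disjoint Z1 (rl A r) := disjoint_left.2 fun x hx h =>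
    (mem_sdiff.1 hx).2 (mem_union_left _ h)
  have hZZ : T3L ∪ Z2 ∪ Z3 ⊆ Z1 := union_subset (union_subset s1 (u1.trans sdiff_subset)) v1'
  have m4 := (m3.of_eq (union_assoc _ _ _) eP).union m2 (by
      rw [disjoint_union_left]
      exact ⟨d2.mono_right (rl_mono sdiff_subset r), hZ1'.mono hZZ (rl_mono sdiff_subset r)⟩) (by
      rw [disjoint_union_left]
      refine ⟨d4.mono_right (union_subset_union sdiff_subset (rp_mono sdiff_subset r)), ?_⟩
      rw [disjoint_union_left, disjoint_union_right, disjoint_union_right]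
      refine ⟨⟨disjoint_sdiff, hr.disj.mono hRA (rp_mono sdiff_subset r)⟩,
        hr.disj.symm.mono (rp_mono hRA r) sdiff_subset, disjoint_left.2 fun x hx hx' => ?_⟩
      obtain ⟨y, hy, rfl⟩ := mem_image.1 hx
      obtain ⟨z, hz, e⟩ := mem_image.1 hx'
      exact (mem_sdiff.1 hz).2 (hr.i4 (mem_sdiff.1 hz).1 (hRA hy) e ▸ hy))
  refine ⟨T3L ∪ Z2 ∪ Z3 ∪ rl (A \ R) r, union_subset_union hZZ (rl_mono sdiff_subset r),
    m4.of_eq (union_assoc _ _ _) ?_⟩
  rw [union_assoc, union_union_union_comm R, union_sdiff_of_subset hRA, rp, rp, ← image_union,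
    union_sdiff_of_subset hRA, rp]

end Pool.Agent.Lib.MP_2c654c_co.Abs
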