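import Mathlib
import Pool.Agent.Lib.MP_2c654c_co.Abs.PM
import Pool.Agent.Lib.MP_d738f8_co.Nibble

set_option autoImplicit false

namespace Pool.Agent.Lib.MP_2c654c_co.Abs

open Finset Sum Pool.Agent.Lib.MP_d738f8_co

theorem card_pair_le {G : Type} [Group G] [Fintype G] [DecidableEq G] {δ : ℝ} (hy : Hyp G δ)
    (Gd : Finset (G × G)) (h1 : ∀ p ∈ Gd, p.1 * p.2 ≠ 1) {u v : G ⊕ G} (huv : u ≠ v) :
    ((Gd.filter fun p => u ∈ eset p ∧ v ∈ eset p).card : ℝ) ≤ 4 * (δ * Fintype.card G) := by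
  have h0 := hy.one_le
  have k1 : ∀ x a : G, ((Gd.filter fun p => inl x ∈ eset p ∧ inr a ∈ eset p).card : ℝ) ≤
      4 * (δ * Fintype.card G) := by
    intro x a
    have : (Gd.filter fun p => inl x ∈ eset p ∧ inr a ∈ eset p).card ≤ 4 := by
      refine le_trans (card_le_card (t := {(x, x⁻¹ * a), (x, a * x⁻¹), (a * x⁻¹, x), (x⁻¹ * a, x)})
        fun p hp => ?_) card_le_four
      obtain ⟨e, f⟩ := p
      have := (mem_filter.1 hp).2
      simp only [eset, mem_insert, inl.injEq, reduceCtorEq, mem_singleton, or_false, false_or,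
        inr.injEq] at this
      obtain ⟨rfl | rfl, rfl | rfl⟩ := this <;> simp
    have h2 : ((Gd.filter fun p => inl x ∈ eset p ∧ inr a ∈ eset p).card : ℝ) ≤ 4 := by
      exact_mod_cast this
    linarith
  rcases u with x | a <;> rcases v with y | b
  · have : (Gd.filter fun p => inl x ∈ eset p ∧ inl y ∈ eset p).card ≤ 2 := by
      refine le_trans (card_le_card (t := {(x, y), (y, x)}) fun p hp => ?_) card_le_two
      obtain ⟨e, f⟩ := p
      have := (mem_filter.1 hp).2
      simp only [eset, mem_insert, inl.injEq, reduceCtorEq, mem_singleton, or_false] at this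
      obtain ⟨rfl | rfl, rfl | rfl⟩ := this <;> simp at huv ⊢
    have h2 : ((Gd.filter fun p => inl x ∈ eset p ∧ inl y ∈ eset p).card : ℝ) ≤ 2 := by
      exact_mod_cast this
    linarith
  · exact k1 x b
  · simpa only [and_comm] using k1 y a
  · have k2 : ∀ a b : G, ((Gd.filter fun p => p.1 * p.2 = a ∧ p.2 * p.1 = b).card : ℝ) ≤
        δ * Fintype.card G := by
      intro a b
      by_cases ha : a = 1
      · rw [card_eq_zero.2 (filter_eq_empty_iff.2 fun p hp h => h1 p hp (h.1.trans ha))]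
        simp only [Nat.cast_zero]; linarith
      · refine le_trans (Nat.cast_le.2 (le_trans ?_ (fib_le a b))) (hy.zle a ha)
        refine card_le_card_of_injOn Prod.fst (fun p hp => ?_) fun p hp q hq h => ?_
        · obtain ⟨h2, h3⟩ := (mem_filter.1 (mem_coe.1 hp)).2
          refine mem_coe.2 (mem_filter.2 ⟨mem_univ _, ?_⟩)
          rw [← h2, ← h3]; group
        · have h2 := (mem_filter.1 (mem_coe.1 hp)).2.1
          have h3 := (mem_filter.1 (mem_coe.1 hq)).2.1
          refine Prod.ext h ?_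
          rw [← h3, h] at h2
          exact mul_left_cancel h2
    have : (Gd.filter fun p => inr a ∈ eset p ∧ inr b ∈ eset p).card ≤
        (Gd.filter fun p => p.1 * p.2 = a ∧ p.2 * p.1 = b).card +
        (Gd.filter fun p => p.1 * p.2 = b ∧ p.2 * p.1 = a).card := by
      refine le_trans (card_le_card fun p hp => ?_) (card_union_le _ _)
      obtain ⟨h2, h3⟩ := mem_filter.1 hp
      simp only [eset, mem_insert, reduceCtorEq, mem_singleton, false_or, inr.injEq] at h3
      obtain ⟨rfl | rfl, rfl | rfl⟩ := h3 <;> simp [h2] at huv ⊢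
    have h2 := (Nat.cast_le (α := ℝ)).2 this
    push_cast at h2
    linarith [k2 a b, k2 b a]

theorem round {β : ℝ} (hβ : 0 < β) : ∃ η : ℝ, 0 < η ∧ ∀ (G : Type) [Group G] [Fintype G]
    [DecidableEq G] (δ c : ℝ) (_ : Hyp G δ) (Gd : Finset (G × G)) (w : G × G → ℝ) (L A : Finset G),
    1 ∉ A → (∀ p ∈ Gd, p.1 * p.2 ≠ p.2 * p.1 ∧ p.1 ∈ L ∧ p.2 ∈ L ∧ p.1 * p.2 ∈ A ∧ p.2 * p.1 ∈ A) →
    (∀ p ∈ Gd, 0 ≤ w p ∧ w p ≤ c) → 0 ≤ c → 2 * c * (δ * Fintype.card G) ≤ η →
    (∀ v, ∑ p ∈ Gd, w p * chi v (eset p) ≤ 2) →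
    ∃ TL ⊆ L, ∃ TP ⊆ A, PM TL TP ∧ ∑ p ∈ Gd, w p - 4 * β * Fintype.card G ≤ TP.card := by
  obtain ⟨η, hη, H⟩ := nibble (r := 4) (by norm_num) hβ
  refine ⟨η, hη, fun G _ _ _ δ c hy Gd w L A hA hG hw hc hcη hl => ?_⟩
  let W : Finset (G ⊕ G) → ℝ := fun S => (∑ p ∈ Gd with eset p = S, w p) / 2
  have key : ∀ φ : Finset (G ⊕ G) → ℝ,
      ∑ S ∈ Gd.image eset, W S * φ S = (∑ p ∈ Gd, w p * φ (eset p)) / 2 := by
    intro φ
    rw [← sum_fiberwise_of_maps_to (s := Gd) (t := Gd.image eset) (g := eset)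
      (fun p hp => mem_image_of_mem _ hp), sum_div]
    refine sum_congr rfl fun S _ => ?_
    simp only [W]
    rw [div_mul_eq_mul_div, sum_mul]
    congr 1
    exact sum_congr rfl fun p hp => by rw [(mem_filter.1 hp).2]
  have hH := H (G ⊕ G) (Gd.image eset) W ?_ ?_ ?_ ?_
  · obtain ⟨M, hM1, hM2, hM3⟩ := hH
    have h1 : ∀ S ∈ M, ∃ p ∈ Gd, eset p = S := fun S hS => mem_image.1 (hM1 hS)
    have h2 : ch (M.biUnion id) ∈ Cone G := by
      rw [ch_sum, sum_biUnion hM2]
      refine sum_mem fun S hS => ?_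
      obtain ⟨p, hp, rfl⟩ := h1 S hS
      rw [id, ← ch_sum, ch_eset (hG p hp).1]; exact edge_mem _ _
    have h3 : (M.biUnion id).card = 4 * M.card := by
      rw [card_biUnion hM2, mul_comm, ← smul_eq_mul, ← sum_const]
      refine sum_congr rfl fun S hS => ?_
      obtain ⟨p, hp, rfl⟩ := h1 S hS
      exact card_eset (hG p hp).1
    have h4 := PM.of_ch h2
    refine ⟨_, fun x hx => ?_, _, fun x hx => ?_, h4, ?_⟩
    · obtain ⟨S, hS, hx⟩ := mem_biUnion.1 (mem_toLeft.1 hx)
      obtain ⟨p, hp, rfl⟩ := h1 S hS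
      obtain ⟨_, a1, a2, _⟩ := hG p hp
      simp only [id, eset, mem_insert, inl.injEq, reduceCtorEq, mem_singleton, or_false] at hx
      rcases hx with rfl | rfl <;> assumption
    · obtain ⟨S, hS, hx⟩ := mem_biUnion.1 (mem_toRight.1 hx)
      obtain ⟨p, hp, rfl⟩ := h1 S hS
      obtain ⟨_, _, _, a1, a2⟩ := hG p hp
      simp only [id, eset, mem_insert, inr.injEq, reduceCtorEq, mem_singleton, false_or] at hx
      rcases hx with rfl | rfl <;> assumption
    · have h5 := h4.card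
      have h6 := card_toLeft_add_card_toRight (u := M.biUnion id)
      have h7 : ((M.biUnion id).toRight.card : ℝ) = 2 * M.card := by
        exact_mod_cast (by omega)
      have h8 := key fun _ => 1
      simp only [mul_one] at h8
      rw [h8, Fintype.card_sum] at hM3
      push_cast at hM3
      linarith
  · intro S hS
    obtain ⟨p, hp, rfl⟩ := mem_image.1 hS
    exact card_eset (hG p hp).1
  · intro S _
    exact div_nonneg (sum_nonneg fun p hp => (hw p (mem_filter.1 hp).1).1) (by norm_num)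
  · intro v
    rw [load, key]; linarith [hl v]
  · intro u v huv
    rw [cod, key]
    have h1 := card_pair_le hy Gd (fun p hp e => hA (e ▸ (hG p hp).2.2.2.1)) huv
    have h2 : ∑ p ∈ Gd, w p * (chi u (eset p) * chi v (eset p)) ≤
        c * (Gd.filter fun p => u ∈ eset p ∧ v ∈ eset p).card := by
      rw [← sum_boole, mul_sum]
      refine sum_le_sum fun p hp => ?_
      have := hw p hp
      by_cases h3 : u ∈ eset p <;> by_cases h4 : v ∈ eset p <;> simp [chi, h3, h4, this.2]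
    nlinarith

theorem sum_zc_le {G : Type} [Group G] [Fintype G] [DecidableEq G] {δ : ℝ} (h : Hyp G δ) :
    ∑ b : G, (zc b : ℝ) ≤ 2 * δ * Fintype.card G ^ 2 := by
  have hn := npos (G := G)
  calc _ ≤ ∑ b : G, ((if b = 1 then (Fintype.card G : ℝ) else 0) + δ * Fintype.card G) := by
        refine sum_le_sum fun b _ => ?_
        split_ifs with h5
        · have : (zc b : ℝ) ≤ Fintype.card G := by exact_mod_cast card_le_univ _
          have := h.one_le; linarith
        · have := h.zle b h5; linarith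
    _ = Fintype.card G + δ * Fintype.card G ^ 2 := by simp [sum_add_distrib]; ring
    _ ≤ _ := by have := h.one_le; nlinarith

theorem nib {γ ε : ℝ} (hγ : 0 < γ) (hε : 0 < ε) (hε1 : ε ≤ 1) : ∃ δ : ℝ, 0 < δ ∧
    ∀ (G : Type) [Group G] [Fintype G] [DecidableEq G], Hyp G δ → ∀ L P : Finset G, 1 ∉ P →
      L.card = P.card → Fintype.card G ≤ 2 * L.card →
      ∃ TL ⊆ L, ∃ TP ⊆ P, PM TL TP ∧
        (((P.filter fun a => γ * Fintype.card G ≤ cc a P) \ TP).card : ℝ) ≤ ε * Fintype.card G := by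
  obtain ⟨η0, hη0, H⟩ := round (β := ε / 16) (by positivity)
  set η := ε / 4 with hη
  set ε2 := ε ^ 2 / 200 with hε2
  set ε' := γ * ε2 / 8 with hε'
  have hη1 : 0 < η := by positivity
  have hε2' : 0 < ε2 := by positivity
  have hε'' : 0 < ε' := by positivity
  refine ⟨min ((ε' ^ 2 / 2) ^ 2) (min (γ * ε / 64) (γ * η0 / 8)), by positivity, ?_⟩
  intro G _ _ _ hy L P hP hLP hL
  set δ := min ((ε' ^ 2 / 2) ^ 2) (min (γ * ε / 64) (γ * η0 / 8)) with hδ
  have hδ1 : δ ≤ (ε' ^ 2 / 2) ^ 2 := min_le_left _ _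
  have hδ2 : δ ≤ γ * ε / 64 := (min_le_right _ _).trans (min_le_left _ _)
  have hδ3 : δ ≤ γ * η0 / 8 := (min_le_right _ _).trans (min_le_right _ _)
  have hδ0 := hy.pos
  have hn := npos (G := G)
  set n : ℝ := (Fintype.card G : ℝ) with hn'
  set A := P.filter fun a => γ * n ≤ cc a P with hA
  set N : ℝ := (L.card : ℝ) with hN
  have hN1 : n ≤ 2 * N := by rw [hn', hN]; exact_mod_cast hL
  have hN0 : 0 < N := by linarith
  have hAN : (A.card : ℝ) ≤ N := by
    rw [hN, hLP]; exact_mod_cast card_le_card (filter_subset _ _)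
  have hNn : N ≤ n := by rw [hn', hN]; exact_mod_cast card_le_univ _
  let ind : Finset G → G → ℝ := fun S x => if x ∈ S then 1 else 0
  have hind : ∀ S x, 0 ≤ ind S x ∧ ind S x ≤ 1 := fun S x => by
    simp only [ind]; split_ifs <;> simp
  have hind' : ∀ S x, |ind S x| ≤ 1 := fun S x => abs_le.2 ⟨by linarith [hind S x], (hind S x).2⟩
  have hsum : ∀ S, ∑ x, ind S x = S.card := fun S => by simp [ind]
  have hint : ∀ S T x, ind (S ∩ T) x = ind S x * ind T x := fun S T x => by
    by_cases h1 : x ∈ S <;> by_cases h2 : x ∈ T <;> simp [ind, h1, h2]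
  let q : G → ℝ := fun a => ind A a * (γ * n / cc a P)
  have hq : ∀ a, 0 ≤ q a ∧ q a ≤ 1 := by
    intro a
    by_cases ha : a ∈ A
    · have h1 := (mem_filter.1 ha).2
      simp only [q, ind, if_pos ha, one_mul]
      exact ⟨by positivity, div_le_one_of_le₀ h1 (by positivity)⟩
    · simp [q, ind, ha]
  have hqs : ∀ a ∈ A, ∑ e, q (e⁻¹ * a * e) = γ * n := by
    intro a ha
    have h1 := (mem_filter.1 ha).2
    have h2 : (0 : ℝ) < cc a P := lt_of_lt_of_le (by positivity) h1
    have h3 : ∀ e, q (e⁻¹ * a * e) = (if e⁻¹ * a * e ∈ P then 1 else 0) * (γ * n / cc a P) := by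
      intro e
      simp only [q, ind, hA, mem_filter, cc_cl (cj_mem_cl a e), h1, and_true]
    simp only [h3]
    rw [← sum_mul, cc_real]; field_simp
  set c := n / (γ * N ^ 2) with hc
  have hc0 : 0 < c := by positivity
  have hc1 : c * γ * n ≤ 4 := by
    rw [hc, div_mul_eq_mul_div, div_mul_eq_mul_div, div_le_iff₀ (by positivity)]
    nlinarith [mul_le_mul hN1 hN1 hn.le (by positivity)]
  have hlam : ∀ S B : Finset G, B ⊆ A →
      |c * Lam (ind S) (ind L) (ind B) q - S.card * B.card / N| ≤ ε2 * n := by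
    intro S B hB
    have h1 := (hy.mix.mono hδ1).lam hε''.le (ind S) (ind L) (ind B) q (hind S) (hind L) (hind' B)
      (fun x => abs_le.2 ⟨by linarith [hq x], (hq x).2⟩)
    have h2 : ∑ a, ind B a * ∑ e, q (e⁻¹ * a * e) = B.card * (γ * n) := by
      rw [← hsum, sum_mul]
      refine sum_congr rfl fun a _ => ?_
      by_cases ha : a ∈ B
      · rw [hqs a (hB ha)]
      · simp [ind, ha]
    rw [h2, hsum, hsum, ← hn', ← hN] at h1
    have h3 : (S.card : ℝ) * B.card / N = c * (S.card / n * (N / n) * (B.card * (γ * n))) := by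
      rw [hc]; field_simp
    rw [h3, ← mul_sub, abs_mul, abs_of_pos hc0]
    calc _ ≤ c * (2 * ε' * n ^ 2) := by gcongr
      _ = (c * γ * n) * (ε2 * n) / 4 := by rw [hε']; ring
      _ ≤ 4 * (ε2 * n) / 4 := by gcongr
      _ = _ := by ring
  let w0 : G × G → ℝ := fun p => c * (ind L p.1 * ind L p.2 * ind A (p.1 * p.2) * q (p.2 * p.1))
  have hw0 : ∀ p, 0 ≤ w0 p ∧ w0 p ≤ c := by
    intro p
    have h1 := hind L p.1
    have h2 := hind L p.2
    have h3 := hind A (p.1 * p.2)
    have h4 := hq (p.2 * p.1)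
    refine ⟨mul_nonneg hc0.le (mul_nonneg (mul_nonneg (mul_nonneg h1.1 h2.1) h3.1) h4.1), ?_⟩
    refine mul_le_of_le_one_right hc0.le ?_
    exact mul_le_one₀ (mul_le_one₀ (mul_le_one₀ h1.2 h2.1 h2.2) h3.1 h3.2) h4.1 h4.2
  have hsw : ∀ p : G × G, w0 p.swap = w0 p := by
    intro p
    simp only [w0, q, Prod.fst_swap, Prod.snd_swap, cc_cl (swap_mem_cl p.1 p.2)]
    ring
  have hsw' : ∀ φ : G × G → ℝ, ∑ p, w0 p * φ p.swap = ∑ p, w0 p * φ p := by
    intro φ
    rw [← (Equiv.prodComm G G).sum_comp]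
    exact sum_congr rfl fun p _ => by simp [hsw]
  let lL : G → ℝ := fun x => ∑ p : G × G, w0 p * ind {x} p.1
  let lP : G → ℝ := fun a => ∑ p : G × G, w0 p * ind {a} (p.1 * p.2)
  set BL := univ.filter fun x => 1 + η < lL x with hBL
  set BP := univ.filter fun x => 1 + η < lP x with hBP
  have hone : ∀ (B : Finset G) (y : G), ∑ x ∈ B, ind {x} y = ind B y := by
    intro B y; simp [ind]
  have hover : ∀ (B : Finset G) (l : G → ℝ), (∀ x ∈ B, 1 + η < l x) →
      ∑ x ∈ B, l x ≤ B.card + ε2 * n → ∑ x ∈ B, l x ≤ ε / 32 * n := by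
    intro B l h1 h2
    have h3 : (B.card : ℝ) * (1 + η) ≤ ∑ x ∈ B, l x := by
      rw [← nsmul_eq_mul, ← sum_const]; exact sum_le_sum fun x hx => (h1 x hx).le
    have h4 : (B.card : ℝ) * η ≤ ε2 * n := by linarith
    have h5 : (B.card : ℝ) ≤ ε / 50 * n := by
      refine le_of_mul_le_mul_right (h4.trans (le_of_eq ?_)) hη1
      rw [hε2, hη]; ring
    have h6 : ε2 * n ≤ ε / 200 * n := by
      rw [hε2]; gcongr; nlinarith
    nlinarith
  have h1 : ∑ p, w0 p * ind BL p.1 ≤ ε / 32 * n := by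
    have h2 : ∑ x ∈ BL, lL x = ∑ p, w0 p * ind BL p.1 := by
      simp only [lL]; rw [sum_comm]
      exact sum_congr rfl fun p _ => by rw [← mul_sum, hone]
    rw [← h2]
    refine hover BL lL (fun x hx => (mem_filter.1 hx).2) ?_
    have h3 : ∑ p, w0 p * ind BL p.1 = c * Lam (ind (BL ∩ L)) (ind L) (ind A) q := by
      simp only [Lam, mul_sum, Fintype.sum_prod_type, w0]
      refine sum_congr rfl fun e _ => sum_congr rfl fun f _ => ?_
      rw [hint]; ring
    have h4 := (abs_le.1 (hlam (BL ∩ L) A Subset.rfl)).2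
    have h5 : ((BL ∩ L).card : ℝ) * A.card / N ≤ BL.card := by
      rw [div_le_iff₀ hN0]
      gcongr; exact inter_subset_left
    rw [h2, h3]; linarith
  have h2 : ∑ p, w0 p * ind BP (p.1 * p.2) ≤ ε / 32 * n := by
    have h2 : ∑ x ∈ BP, lP x = ∑ p, w0 p * ind BP (p.1 * p.2) := by
      simp only [lP]; rw [sum_comm]
      exact sum_congr rfl fun p _ => by rw [← mul_sum, hone]
    rw [← h2]
    refine hover BP lP (fun x hx => (mem_filter.1 hx).2) ?_
    have h3 : ∑ p, w0 p * ind BP (p.1 * p.2) = c * Lam (ind L) (ind L) (ind (BP ∩ A)) q := by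
      simp only [Lam, mul_sum, Fintype.sum_prod_type, w0]
      refine sum_congr rfl fun e _ => sum_congr rfl fun f _ => ?_
      rw [hint]; ring
    have h4 := (abs_le.1 (hlam L (BP ∩ A) inter_subset_right)).2
    have h5 : N * (BP ∩ A).card / N ≤ BP.card := by
      rw [mul_div_cancel_left₀ _ hN0.ne']
      exact_mod_cast card_le_card inter_subset_left
    rw [h2, h3]; linarith
  have h3 : ∑ p, w0 p * (if p.1 * p.2 = p.2 * p.1 then 1 else 0) ≤ ε / 8 * n := by
    calc _ ≤ ∑ p : G × G, c * (if p.1 * p.2 = p.2 * p.1 then 1 else 0) :=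
          sum_le_sum fun p _ => mul_le_mul_of_nonneg_right (hw0 p).2 (by split_ifs <;> simp)
      _ = c * ∑ b : G, (zc b : ℝ) := by
          rw [← mul_sum, Fintype.sum_prod_type]
          congr 1
          refine sum_congr rfl fun b _ => ?_
          rw [sum_boole, zc]
          congr 2
          exact filter_congr fun e _ => by rw [mul_assoc, inv_mul_eq_iff_eq_mul]
      _ ≤ c * (2 * (γ * ε / 64) * n ^ 2) := by
          refine mul_le_mul_of_nonneg_left ((sum_zc_le hy).trans ?_) hc0.le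
          gcongr
      _ = (c * γ * n) * (ε * n) / 32 := by ring
      _ ≤ 4 * (ε * n) / 32 := by gcongr
      _ = _ := by ring
  have h4 : (A.card : ℝ) - ε2 * n ≤ ∑ p, w0 p := by
    have h3 : ∑ p, w0 p = c * Lam (ind L) (ind L) (ind A) q := by
      simp only [Lam, mul_sum, Fintype.sum_prod_type, w0]
    have h4 := (abs_le.1 (hlam L A Subset.rfl)).1
    rw [mul_div_cancel_left₀ _ hN0.ne'] at h4
    linarith
  let Gd := univ.filter fun p : G × G => (p.1 * p.2 ≠ p.2 * p.1 ∧ p.1 ∈ L ∧ p.2 ∈ L ∧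
    p.1 * p.2 ∈ A ∧ p.2 * p.1 ∈ A) ∧ p.1 ∉ BL ∧ p.2 ∉ BL ∧ p.1 * p.2 ∉ BP ∧ p.2 * p.1 ∉ BP
  have h5 : (A.card : ℝ) - ε / 2 * n ≤ ∑ p ∈ Gd, w0 p := by
    have h6 : ∑ p, w0 p ≤ ∑ p ∈ Gd, w0 p + ∑ p, w0 p * (if p.1 * p.2 = p.2 * p.1 then 1 else 0) +
        ∑ p, w0 p * ind BL p.1 + ∑ p, w0 p * ind BL p.2 + ∑ p, w0 p * ind BP (p.1 * p.2) +
        ∑ p, w0 p * ind BP (p.2 * p.1) := by
      rw [sum_filter]
      simp only [← sum_add_distrib]
      refine sum_le_sum fun p _ => ?_
      have a0 := (hw0 p).1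
      have a1 := mul_nonneg a0 (hind BL p.1).1
      have a2 := mul_nonneg a0 (hind BL p.2).1
      have a3 := mul_nonneg a0 (hind BP (p.1 * p.2)).1
      have a4 := mul_nonneg a0 (hind BP (p.2 * p.1)).1
      by_cases b0 : p.1 * p.2 = p.2 * p.1
      · rw [if_pos b0]; split_ifs <;> linarith
      rw [if_neg b0]
      by_cases b1 : p.1 ∈ BL
      · have : ind BL p.1 = 1 := if_pos b1
        rw [this]; split_ifs <;> linarith
      by_cases b2 : p.2 ∈ BL
      · have : ind BL p.2 = 1 := if_pos b2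
        rw [this]; split_ifs <;> linarith
      by_cases b3 : p.1 * p.2 ∈ BP
      · have : ind BP (p.1 * p.2) = 1 := if_pos b3
        rw [this]; split_ifs <;> linarith
      by_cases b4 : p.2 * p.1 ∈ BP
      · have : ind BP (p.2 * p.1) = 1 := if_pos b4
        rw [this]; split_ifs <;> linarith
      split_ifs with b5
      · linarith
      · have : w0 p = 0 := by
          simp only [w0, q, ind]
          by_cases c1 : p.1 ∈ L <;> by_cases c2 : p.2 ∈ L <;> by_cases c3 : p.1 * p.2 ∈ A <;>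
            by_cases c4 : p.2 * p.1 ∈ A <;> simp [c1, c2, c3, c4]
          exact absurd ⟨⟨b0, c1, c2, c3, c4⟩, b1, b2, b3, b4⟩ b5
        linarith
    have h7 := hsw' fun p => ind BL p.1
    have h8 := hsw' fun p => ind BP (p.1 * p.2)
    simp only [Prod.fst_swap, Prod.snd_swap] at h7 h8
    have h9 : ε2 * n ≤ ε / 200 * n := by
      rw [hε2]; gcongr; nlinarith
    nlinarith
  have hH := H G δ c hy Gd (fun p => w0 p / (1 + η)) L A
    (fun h => hP (mem_filter.1 h).1) (fun p hp => (mem_filter.1 hp).2.1)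
    (fun p _ => ⟨div_nonneg (hw0 p).1 (by positivity),
      (div_le_self (hw0 p).1 (by linarith)).trans (hw0 p).2⟩) hc0.le (by
      calc 2 * c * (δ * n) ≤ 2 * c * (γ * η0 / 8 * n) := by gcongr
        _ = (c * γ * n) * η0 / 4 := by ring
        _ ≤ 4 * η0 / 4 := by gcongr
        _ = _ := by ring) ?_
  · obtain ⟨TL, t1, TP, t2, t3, t4⟩ := hH
    refine ⟨TL, t1, TP, t2.trans (filter_subset _ _), t3, ?_⟩
    rw [card_sdiff_of_subset t2, Nat.cast_sub (card_le_card t2)]
    rw [← sum_div, ← hn'] at t4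
    have h7 : η * n = ε / 4 * n := rfl
    have h6 : (A.card : ℝ) - ε / 2 * n - η * n ≤ (∑ p ∈ Gd, w0 p) / (1 + η) := by
      rw [le_div_iff₀ (by positivity)]
      nlinarith [mul_pos hη1 hn, mul_pos hε hn, mul_pos (mul_pos hη1 hη1) hn,
        mul_pos (mul_pos hη1 hε) hn]
    linarith
  · have key : ∀ (v : G ⊕ G) (φ : G × G → ℝ), (∀ p, 0 ≤ φ p) →
        (∀ p ∈ Gd, chi v (eset p) ≤ φ p + φ p.swap) → ∑ p, w0 p * φ p ≤ 1 + η →
        ∑ p ∈ Gd, w0 p / (1 + η) * chi v (eset p) ≤ 2 := by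
      intro v φ a1 a2 a3
      have a4 : ∑ p ∈ Gd, w0 p * chi v (eset p) ≤ ∑ p, w0 p * (φ p + φ p.swap) :=
        (sum_le_sum fun p hp => mul_le_mul_of_nonneg_left (a2 p hp) (hw0 p).1).trans
          (sum_le_sum_of_subset_of_nonneg (subset_univ _) fun p _ _ =>
            mul_nonneg (hw0 p).1 (add_nonneg (a1 _) (a1 _)))
      simp only [mul_add, sum_add_distrib, hsw'] at a4
      simp only [div_mul_eq_mul_div]
      rw [← sum_div, div_le_iff₀ (by positivity)]
      linarith
    rintro (x | a)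
    · by_cases hx : x ∈ BL
      · refine key _ (fun _ => 0) (by simp) (fun p hp => ?_) (by simp; positivity)
        obtain ⟨_, a1, a2, _⟩ := (mem_filter.1 hp).2
        have b1 : x ≠ p.1 := fun e => a1 (e ▸ hx)
        have b2 : x ≠ p.2 := fun e => a2 (e ▸ hx)
        simp [chi, eset, b1, b2]
      · refine key _ (fun p => ind {x} p.1) (fun _ => (hind _ _).1) (fun p _ => ?_)
          (by simpa [hBL] using hx)
        by_cases b1 : p.1 = x <;> by_cases b2 : p.2 = x <;>
          simp [chi, eset, ind, b1, b2, eq_comm (a := x)]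
    · by_cases hx : a ∈ BP
      · refine key _ (fun _ => 0) (by simp) (fun p hp => ?_) (by simp; positivity)
        obtain ⟨_, _, _, a1, a2⟩ := (mem_filter.1 hp).2
        have b1 : a ≠ p.1 * p.2 := fun e => a1 (e ▸ hx)
        have b2 : a ≠ p.2 * p.1 := fun e => a2 (e ▸ hx)
        simp [chi, eset, b1, b2]
      · refine key _ (fun p => ind {a} (p.1 * p.2)) (fun _ => (hind _ _).1) (fun p _ => ?_)
          (by simpa [hBP] using hx)
        by_cases b1 : p.1 * p.2 = a <;> by_cases b2 : p.2 * p.1 = a <;>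
          simp [chi, eset, ind, b1, b2, eq_comm (a := a)]

end Pool.Agent.Lib.MP_2c654c_co.Abs
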