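import Mathlib
import Pool.Agent.Lib.MP_2c654c_co.Abs.Cone

set_option autoImplicit false

namespace Pool.Agent.Lib.MP_2c654c_co.Abs

open Finset Sum

variable {G : Type} [Group G] [Fintype G] [DecidableEq G]

/-- product of a list of commutators -/
def cprod {G : Type} [Group G] (l : List (G × G)) : G :=
  (l.map fun p => p.1 * p.2 * p.1⁻¹ * p.2⁻¹).prod

/-- commutator width at most `W` -/
def CW (G : Type) [Group G] (W : ℕ) : Prop := ∀ g : G, ∃ l : List (G × G), l.length ≤ W ∧ g = cprod l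

/-- the labels attached to a point -/
def lv (Γ : Finset G) (y : G) : G ⊕ G → ℕ := ∑ γ ∈ Γ, lab (γ * y)

/-- no attached label is trivial -/
def Val (Γ : Finset G) (y : G) : Prop := ∀ γ ∈ Γ, γ * y ≠ 1

/-- separated points -/
def Sep (Γ : Finset G) (ms : List G) : Prop :=
  ms.Pairwise fun m m' => ∀ γ ∈ Γ, ∀ γ' ∈ Γ, γ * m ≠ γ' * m'

theorem cancel_pts {δ : ℝ} (hy : Hyp G δ) (hδ : δ ≤ 1 / 1000) {b : ℕ}
    (hb : 20 * b ≤ Fintype.card G) {Γ : Finset G} (hΓ : Γ.Nonempty) (hΓ2 : Γ.card ≤ 2)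
    (ms : List G) (hs : Sep Γ ms) (hl : ms.length ≤ 5) (E : Finset G) (hE : E.card ≤ 4)
    {k : ℕ} {A B : G ⊕ G → ℕ}
    (h : ∀ y, (∀ m ∈ ms, Val Γ (m * y)) → (∀ m ∈ ms, ∀ γ ∈ Γ, γ * (m * y) ∉ E) →
      R2 b k (A + (ms.map fun m => lv Γ (m * y)).sum) (B + (ms.map fun m => lv Γ (m * y)).sum)) :
    R2 b (k + 10) A B := by
  refine R2.cancel fun F hF => ?_
  have hn := npos (G := G)
  have hnd : ms.Nodup := by
    obtain ⟨γ, hγ⟩ := hΓ
    exact hs.imp fun h e => h γ hγ γ hγ (by rw [e])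
  have hinj : ∀ y, Set.InjOn (fun p : G × G => (inl (p.2 * (p.1 * y)) : G ⊕ G))
      (ms.toFinset ×ˢ Γ : Finset (G × G)) := by
    intro y p hp q hq e
    obtain ⟨hp1, hp2⟩ := mem_product.1 hp
    obtain ⟨hq1, hq2⟩ := mem_product.1 hq
    have e1 : p.2 * p.1 = q.2 * q.1 := by
      have := inl_injective e
      rw [← mul_assoc, ← mul_assoc] at this
      exact mul_right_cancel this
    have e2 : p.1 = q.1 := by
      by_contra hne
      have hsy : Std.Symm fun m m' : G => ∀ γ ∈ Γ, ∀ γ' ∈ Γ, γ * m ≠ γ' * m' :=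
        ⟨fun m m' h γ hγ γ' hγ' => (h γ' hγ' γ hγ).symm⟩
      exact List.Pairwise.forall hs (List.mem_toFinset.1 hp1) (List.mem_toFinset.1 hq1) hne
        _ hp2 _ hq2 e1
    rw [e2] at e1
    exact Prod.ext e2 (mul_right_cancel e1)
  let F' := F ∪ (insert 1 E).image inl
  let B1 := (ms.toFinset ×ˢ Γ).biUnion fun p => univ.filter fun y => inl (p.2 * (p.1 * y)) ∈ F'
  have hc : (ms.toFinset ×ˢ Γ).card ≤ 10 := by
    rw [card_product]
    exact le_trans (Nat.mul_le_mul ((List.toFinset_card_le ms).trans hl) hΓ2) (by norm_num)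
  have h1 : B1.card ≤ 10 * (b + 5) := by
    refine le_trans (card_biUnion_le_card_mul _ _ F'.card fun i _ => ?_) (Nat.mul_le_mul hc ?_)
    · refine card_le_card_of_injOn (fun y => inl (i.2 * (i.1 * y)))
        (fun y hy => (mem_filter.1 hy).2) ?_
      intro y _ y' _ hy
      simpa using hy
    · have h2 := card_union_le F ((insert 1 E).image inl)
      have h3 : ((insert 1 E).image (inl : G → G ⊕ G)).card ≤ (insert 1 E).card := card_image_le
      have h4 := card_insert_le 1 E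
      simp only [F']; omega
  have h2 : 1000 ≤ Fintype.card G := by
    have := hy.one_le
    exact_mod_cast (show (1000 : ℝ) ≤ Fintype.card G by nlinarith)
  obtain ⟨y, _, hy'⟩ := exists_mem_notMem_of_card_lt_card (s := B1) (t := univ)
    (by rw [card_univ]; omega)
  have h3 : ∀ m ∈ ms, ∀ γ ∈ Γ, inl (γ * (m * y)) ∉ F' := fun m hm γ hγ hF' =>
    hy' (mem_biUnion.2 ⟨(m, γ), mem_product.2 ⟨List.mem_toFinset.2 hm, hγ⟩,
      mem_filter.2 ⟨mem_univ _, hF'⟩⟩)
  refine ⟨(ms.toFinset ×ˢ Γ).image fun p => inl (p.2 * (p.1 * y)), card_image_le.trans hc, ?_, ?_⟩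
  · rw [disjoint_left]; intro v hv hvF
    obtain ⟨p, hp, rfl⟩ := mem_image.1 hv
    obtain ⟨hp1, hp2⟩ := mem_product.1 hp
    exact h3 _ (List.mem_toFinset.1 hp1) _ hp2 (mem_union_left _ hvF)
  · rw [ch_image _ _ (hinj y), sum_product, List.sum_toFinset _ hnd]
    refine h y (fun m hm γ hγ e => h3 m hm γ hγ ?_) (fun m hm γ hγ e => h3 m hm γ hγ ?_)
    · exact mem_union_right _ (mem_image_of_mem _ (by rw [e]; exact mem_insert_self _ _))
    · exact mem_union_right _ (mem_image_of_mem _ (mem_insert_of_mem e))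

theorem card_not_sep {δ : ℝ} (hy : Hyp G δ) {Γ : Finset G} (hΓ2 : Γ.card ≤ 2)
    (ms : List G) (hs : ms.Nodup) (hl : ms.length ≤ 5) :
    ∃ B : Finset G, (B.card : ℝ) ≤ 100 * (δ * Fintype.card G) ∧
      ∀ u, u ∉ B → Sep Γ (ms.map fun m => u⁻¹ * m * u) := by
  let I := (ms.toFinset ×ˢ ms.toFinset) ×ˢ (Γ ×ˢ Γ)
  have h0 : (0 : ℝ) ≤ δ * Fintype.card G := by have := hy.one_le; linarith
  have hI : I.card ≤ 100 := by
    have h1 := (List.toFinset_card_le ms).trans hl
    simp only [I, card_product]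
    exact le_trans (Nat.mul_le_mul (Nat.mul_le_mul h1 h1) (Nat.mul_le_mul hΓ2 hΓ2)) (by norm_num)
  refine ⟨I.biUnion fun p => univ.filter fun u => p.1.1 ≠ p.1.2 ∧
    u⁻¹ * (p.1.1 * p.1.2⁻¹) * u = p.2.1⁻¹ * p.2.2, ?_, fun u hu => ?_⟩
  · refine le_trans (Nat.cast_le.2 card_biUnion_le) ?_
    push_cast
    refine le_trans (sum_le_card_nsmul _ _ (δ * Fintype.card G) fun p _ => ?_) ?_
    · by_cases hp : p.1.1 = p.1.2
      · simpa [hp] using h0
      · refine le_trans ?_ (hy.zle (p.1.1 * p.1.2⁻¹) (fun e => hp (mul_inv_eq_one.1 e)))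
        exact Nat.cast_le.2 (le_trans (card_le_card fun u hu => mem_filter.2
          ⟨mem_univ _, (mem_filter.1 hu).2.2⟩) (fib_le _ _))
    · rw [nsmul_eq_mul]
      exact mul_le_mul_of_nonneg_right (by exact_mod_cast hI) h0
  · unfold Sep
    rw [List.pairwise_map]
    refine hs.imp_of_mem fun {m m'} hm hm' hne γ hγ γ' hγ' e => hu ?_
    refine mem_biUnion.2 ⟨((m, m'), (γ, γ')), mem_product.2 ⟨mem_product.2
      ⟨List.mem_toFinset.2 hm, List.mem_toFinset.2 hm'⟩, mem_product.2 ⟨hγ, hγ'⟩⟩,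
      mem_filter.2 ⟨mem_univ _, hne, ?_⟩⟩
    calc u⁻¹ * (m * m'⁻¹) * u = γ⁻¹ * (γ * (u⁻¹ * m * u)) * (u⁻¹ * m' * u)⁻¹ := by group
      _ = γ⁻¹ * γ' := by rw [e]; group

theorem level {δ : ℝ} (hy : Hyp G δ) {W : ℕ} (hδ : δ * (W + 1) ≤ 1 / 1000) (hW : CW G W) {b : ℕ}
    (hb : 20 * b ≤ Fintype.card G) {Γ : Finset G} (hΓ : Γ.Nonempty) (hΓ2 : Γ.card ≤ 2)
    (a c : G → G ⊕ G → ℕ) (hac : ∀ y, a y + c y = lv Γ y) {k : ℕ} (hk : 6 ≤ k)
    (base : ∀ h x x', Val Γ x → Val Γ (h * x) → Val Γ x' → Val Γ (h * x') →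
      R2 b k (a (h * x) + c x + (c (h * x') + a x')) (c (h * x) + a x + (a (h * x') + c x')))
    (p q : G) (hp : Val Γ p) (hq : Val Γ q) :
    R2 b ((W + 2) * (8 * k + 40)) (a p + c q) (c p + a q) := by
  have hn := npos (G := G)
  have hδ0 := hy.pos
  have hδ1 : δ ≤ 1 / 1000 := by nlinarith [(Nat.cast_nonneg W : (0 : ℝ) ≤ W)]
  let H : ℕ → G → Prop := fun j h => ∀ x, Val Γ x → Val Γ (h * x) →
    R2 b j (a (h * x) + c x) (c (h * x) + a x)
  have Hm : ∀ {j j' h}, H j h → j ≤ j' → H j' h := fun hH hj x h1 h2 => (hH x h1 h2).mono hj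
  have H1 : H 6 1 := by
    intro x h1 _
    have h2 := RS.sum (b := b) Γ (fun _ => 3) (fun γ => {lab (γ * x)})
      fun γ hγ => rs_refl hy hδ1 hb (h1 γ hγ)
    refine RS.mono (h2.sub ?_) (by simp; omega)
    have h3 : lv Γ x ∈ {D | ∃ A : G → G ⊕ G → ℕ, (∀ i ∈ Γ, A i ∈ ({lab (i * x)} : Set _)) ∧
        D = ∑ i ∈ Γ, A i} := ⟨fun γ => lab (γ * x), fun _ _ => rfl, rfl⟩
    rintro D (rfl | rfl)
    · rw [one_mul, hac]; exact h3
    · rw [one_mul, add_comm, hac]; exact h3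
  have Hc : ∀ s t, Sep Γ [1, t⁻¹, s⁻¹ * t⁻¹, t * s⁻¹ * t⁻¹, s * t * s⁻¹ * t⁻¹] →
      H (3 * k + 10) (s * t * s⁻¹ * t⁻¹) := by
    intro s t hs x h1 h2
    refine cancel_pts hy hδ1 hb hΓ hΓ2 _ hs (by simp) ∅ (by simp) fun y hv _ => ?_
    simp only [List.mem_cons, List.not_mem_nil, or_false, forall_eq_or_imp, forall_eq, one_mul,
      mul_assoc] at hv
    obtain ⟨v0, v1, v2, v3, v4⟩ := hv
    have b1 := base (s * t * s⁻¹ * t⁻¹) x y h1 h2 v0 (by simpa [mul_assoc] using v4)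
    have b2 := base s (t * (s⁻¹ * (t⁻¹ * y))) (s⁻¹ * (t⁻¹ * y)) v3 v4 v2 (by simpa using v1)
    have b3 := base t (s⁻¹ * (t⁻¹ * y)) (t⁻¹ * y) v2 v3 v1 (by simpa using v0)
    refine (((b1.add b2).add b3).of_eq ?_ ?_).mono (by omega) <;>
      simp only [List.map_cons, List.map_nil, List.sum_cons, List.sum_nil, ← hac, one_mul,
        mul_assoc, mul_inv_cancel_left] <;> abel
  have Hmul : ∀ {j1 j2 h1 h2}, H j1 h1 → H j2 h2 → Sep Γ [1, h2, h1 * h2] →
      H (k + j1 + j2 + 10) (h1 * h2) := by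
    intro j1 j2 h1 h2 e1 e2 hs x v1 v2
    refine cancel_pts hy hδ1 hb hΓ hΓ2 _ hs (by simp) ∅ (by simp) fun y hv _ => ?_
    simp only [List.mem_cons, List.not_mem_nil, or_false, forall_eq_or_imp, forall_eq, one_mul,
      mul_assoc] at hv
    obtain ⟨w0, w1, w2⟩ := hv
    have b1 := base (h1 * h2) x y v1 v2 w0 (by simpa [mul_assoc] using w2)
    refine ((b1.add (e1 _ w1 w2)).add (e2 _ w0 w1)).of_eq ?_ ?_ <;>
      simp only [List.map_cons, List.map_nil, List.sum_cons, List.sum_nil, ← hac, one_mul,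
        mul_assoc] <;> abel
  have Hcj : ∀ {j h u}, H j (u⁻¹ * h * u) → Sep Γ [1, u⁻¹, u⁻¹ * h, h] →
      H (k + j + k + 10) h := by
    intro j h u e1 hs x v1 v2
    refine cancel_pts hy hδ1 hb hΓ hΓ2 _ hs (by simp) ∅ (by simp) fun y hv _ => ?_
    simp only [List.mem_cons, List.not_mem_nil, or_false, forall_eq_or_imp, forall_eq, one_mul,
      mul_assoc] at hv
    obtain ⟨w0, w1, w2, w3⟩ := hv
    have b1 := base h x y v1 v2 w0 w3
    have b2 := e1 (u⁻¹ * y) w1 (by simpa [mul_assoc] using w2)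
    have b3 := base u (u⁻¹ * (h * y)) (u⁻¹ * y) w2 (by simpa using w3) w1 (by simpa using w0)
    refine ((b1.add b2).add b3).of_eq ?_ ?_ <;>
      simp only [List.map_cons, List.map_nil, List.sum_cons, List.sum_nil, ← hac, one_mul,
        mul_assoc, mul_inv_cancel_left] <;> abel
  have Hl : ∀ l : List (G × G), ∃ B : Finset G,
      (B.card : ℝ) ≤ 200 * l.length * (δ * Fintype.card G) ∧
      ∀ u, u ∉ B → H ((l.length + 1) * (4 * k + 20)) (u⁻¹ * cprod l * u) := by
    intro l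
    induction l with
    | nil => exact ⟨∅, by simp, fun u _ => by simpa [cprod] using Hm H1 (by omega)⟩
    | cons st l ih =>
      obtain ⟨B, hB, hH⟩ := ih
      obtain ⟨s, t⟩ := st
      have h0 : (0 : ℝ) ≤ δ * Fintype.card G := by positivity
      have hc : cprod ((s, t) :: l) = s * t * s⁻¹ * t⁻¹ * cprod l := by simp [cprod]
      have hB' : (B.card : ℝ) ≤ 200 * ((s, t) :: l).length * (δ * Fintype.card G) := by
        simp only [List.length_cons]; push_cast; nlinarith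
      by_cases e1 : s * t * s⁻¹ * t⁻¹ = 1
      · refine ⟨B, hB', fun u hu => ?_⟩
        rw [hc, e1, one_mul]
        exact Hm (hH u hu) (by simp only [List.length_cons]; nlinarith)
      by_cases e2 : s * t * s⁻¹ * t⁻¹ * cprod l = 1
      · refine ⟨B, hB', fun u hu => ?_⟩
        rw [hc, e2]
        simpa using Hm H1 (by nlinarith)
      have n1 : t ≠ 1 := fun e => e1 (by simp [e])
      have n2 : s ≠ 1 := fun e => e1 (by simp [e])
      have n3 : s ≠ t := fun e => e1 (by simp [e])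
      have n4 : s * t ≠ 1 := fun e => e1 (by rw [eq_inv_of_mul_eq_one_left e]; simp)
      have n5 : t * s ≠ 1 := fun e => e1 (by rw [eq_inv_of_mul_eq_one_left e]; simp)
      obtain ⟨B1, hB1, hS1⟩ := card_not_sep hy hΓ2
        [1, t⁻¹, s⁻¹ * t⁻¹, t * s⁻¹ * t⁻¹, s * t * s⁻¹ * t⁻¹] (by
          simp only [List.nodup_cons, List.mem_cons, List.not_mem_nil, or_false, not_or,
            not_false_eq_true, List.nodup_nil, and_true]
          refine ⟨⟨?_, ?_, ?_, Ne.symm e1⟩, ⟨?_, ?_, ?_⟩, ⟨?_, ?_⟩, ?_⟩ <;> intro e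
          · exact n1 (inv_eq_one.1 e.symm)
          · exact n5 (by rw [← inv_inj, mul_inv_rev, ← e, inv_one])
          · exact n2 (by
              calc s = t⁻¹ * (t * s⁻¹ * t⁻¹)⁻¹ * t := by group
                _ = 1 := by rw [← e]; group)
          · exact n2 (by
              calc s = t⁻¹ * (s⁻¹ * t⁻¹)⁻¹ := by group
                _ = 1 := by rw [← e]; group)
          · exact n3 (by
              calc s = (t * s⁻¹ * t⁻¹ * t)⁻¹ * t := by group
                _ = t := by rw [← e]; group)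
          · exact n1 (by
              calc t = s⁻¹ * (s * t * s⁻¹ * t⁻¹) * t * s := by group
                _ = 1 := by rw [← e]; group)
          · exact n1 (by
              calc t = (t * s⁻¹ * t⁻¹) * (s⁻¹ * t⁻¹)⁻¹ := by group
                _ = 1 := by rw [← e]; group)
          · exact n4 (by
              calc s * t = (s * t * s⁻¹ * t⁻¹) * (s⁻¹ * t⁻¹)⁻¹ := by group
                _ = 1 := by rw [← e]; group)
          · exact n2 (by
              calc s = (s * t * s⁻¹ * t⁻¹) * (t * s⁻¹ * t⁻¹)⁻¹ := by group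
                _ = 1 := by rw [← e]; group)) (by simp)
      have hc1 : ∀ u, u ∉ B1 → H (3 * k + 10) (u⁻¹ * (s * t * s⁻¹ * t⁻¹) * u) := by
        intro u hu
        have h1 := Hc (u⁻¹ * s * u) (u⁻¹ * t * u) (by simpa [mul_assoc] using hS1 u hu)
        simpa [mul_assoc] using h1
      by_cases e3 : cprod l = 1
      · refine ⟨B1, ?_, fun u hu => ?_⟩
        · simp only [List.length_cons]; push_cast
          nlinarith [(Nat.cast_nonneg l.length : (0 : ℝ) ≤ l.length)]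
        · rw [hc, e3, mul_one]
          exact Hm (hc1 u hu) (by simp only [List.length_cons]; nlinarith)
      obtain ⟨B2, hB2, hS2⟩ := card_not_sep hy hΓ2
        [1, cprod l, s * t * s⁻¹ * t⁻¹ * cprod l] (by simp [e1, Ne.symm e2, Ne.symm e3]) (by simp)
      refine ⟨B ∪ B1 ∪ B2, ?_, fun u hu => ?_⟩
      · have h1 : ((B ∪ B1 ∪ B2).card : ℝ) ≤ B.card + B1.card + B2.card := by
          exact_mod_cast (card_union_le _ _).trans (Nat.add_le_add_right (card_union_le _ _) _)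
        simp only [List.length_cons]; push_cast; nlinarith
      · simp only [mem_union, not_or] at hu
        have h1 := Hmul (hc1 u hu.1.2) (hH u hu.1.1) (by simpa [mul_assoc] using hS2 u hu.2)
        rw [hc]
        refine Hm (by simpa [mul_assoc] using h1) (by simp only [List.length_cons]; nlinarith)
  have Hall : ∀ h, Sep Γ [1, h] → H (k + (W + 1) * (4 * k + 20) + k + 10) h := by
    intro h hs
    obtain ⟨l, hl, rfl⟩ := hW h
    obtain ⟨B, hB, hH⟩ := Hl l
    set h := cprod l with hh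
    have hs' : ∀ γ ∈ Γ, ∀ γ' ∈ Γ, γ ≠ γ' * h := by simpa [Sep] using hs
    have h1 : h ≠ 1 := by
      obtain ⟨γ, hγ⟩ := hΓ
      intro e; exact hs' γ hγ γ hγ (by rw [e, mul_one])
    let I : Finset ((G × G) ⊕ (G × G)) := (Γ ×ˢ {1, h}).image inl
    let F : Finset (G ⊕ G) := (Γ ×ˢ {1, h}).image fun p => inl (p.1 * p.2)
    have hc : (Γ ×ˢ ({1, h} : Finset G)).card ≤ 4 := by
      rw [card_product]; exact Nat.mul_le_mul hΓ2 card_le_two
    have hI : (I.card : ℝ) ≤ 4 := by exact_mod_cast card_image_le.trans hc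
    have hF : (F.card : ℝ) ≤ 4 := by exact_mod_cast card_image_le.trans hc
    obtain ⟨w, hw1, hw2, hw3⟩ := free hy I F (B.image fun u => u⁻¹) (by
      have h2 : ((B.image fun u => u⁻¹).card : ℝ) ≤ B.card := by exact_mod_cast card_image_le
      have h3 : (I.card : ℝ) * F.card ≤ 4 * 4 := by gcongr
      have h4 : (I.card : ℝ) ^ 2 * (δ * Fintype.card G) ≤ 4 ^ 2 * (δ * Fintype.card G) := by gcongr
      have h5 : (l.length : ℝ) ≤ W := by exact_mod_cast hl
      have h6 : 200 * l.length * (δ * Fintype.card G) ≤ 200 * W * (δ * Fintype.card G) := by gcongr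
      have h7 := hy.one_le
      nlinarith [(Nat.cast_nonneg W : (0 : ℝ) ≤ W)])
    have hu : w⁻¹ ∉ B := fun e => hw1 (mem_image.2 ⟨_, e, inv_inv w⟩)
    refine Hm (Hcj (hH _ hu) ?_) (by have := Nat.mul_le_mul_right (4 * k + 20) (Nat.add_le_add_right hl 1); omega)
    have f1 : ∀ γ ∈ Γ, ∀ β ∈ ({1, h} : Finset G), ∀ γ' ∈ Γ, ∀ β' ∈ ({1, h} : Finset G),
        γ * w * β ≠ γ' * β' := fun γ hγ β hβ γ' hγ' β' hβ' e =>
      hw3 (inl (γ, β)) (mem_image_of_mem _ (mem_product.2 ⟨hγ, hβ⟩))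
        (mem_image.2 ⟨(γ', β'), mem_product.2 ⟨hγ', hβ'⟩, by simp [vert, e]⟩)
    have m1 : (1 : G) ∈ ({1, h} : Finset G) := by simp
    have m2 : h ∈ ({1, h} : Finset G) := by simp
    simp only [Sep, inv_inv, List.pairwise_cons, List.mem_cons, List.not_mem_nil, or_false,
      forall_eq_or_imp, forall_eq, List.Pairwise.nil, and_true, IsEmpty.forall_iff, implies_true]
    refine ⟨⟨fun γ hγ γ' hγ' e => f1 γ' hγ' 1 m1 γ hγ 1 m1 (by rw [e, mul_one]),
      fun γ hγ γ' hγ' e => f1 γ' hγ' h m2 γ hγ 1 m1 (by rw [e, mul_assoc]),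
      fun γ hγ γ' hγ' e => hs' γ hγ γ' hγ' (by rw [← e, mul_one])⟩,
      ⟨fun γ hγ γ' hγ' e => ?_, fun γ hγ γ' hγ' e => f1 γ hγ 1 m1 γ' hγ' h m2 (by rw [mul_one, e])⟩,
      fun γ hγ γ' hγ' e => f1 γ hγ h m2 γ' hγ' h m2 (by rw [← e, mul_assoc])⟩
    have i1 : (inl (γ, 1) : (G × G) ⊕ (G × G)) ∈ I := mem_image_of_mem _ (mem_product.2 ⟨hγ, m1⟩)
    have i2 : (inl (γ', h) : (G × G) ⊕ (G × G)) ∈ I := mem_image_of_mem _ (mem_product.2 ⟨hγ', m2⟩)
    have := hw2 i1 i2 (by simp [vert, e, mul_assoc])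
    exact h1 (congrArg Prod.snd (inl_injective this)).symm
  have hE : (Γ.image (· * p) ∪ Γ.image (· * q)).card ≤ 4 :=
    (card_union_le _ _).trans (add_le_add (card_image_le.trans hΓ2) (card_image_le.trans hΓ2))
  refine (cancel_pts hy hδ1 hb hΓ hΓ2 [1] (by simp [Sep]) (by simp) _ hE
    (k := (k + (W + 1) * (4 * k + 20) + k + 10) + (k + (W + 1) * (4 * k + 20) + k + 10))
    fun y hv hE' => ?_).mono (by nlinarith)
  simp only [List.mem_cons, List.not_mem_nil, or_false, forall_eq, one_mul] at hv hE'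
  have s1 : Sep Γ [1, p * y⁻¹] := by
    simp only [Sep, List.pairwise_cons, List.mem_cons, List.not_mem_nil, or_false,
      forall_eq, List.Pairwise.nil, and_true, IsEmpty.forall_iff, implies_true]
    intro γ hγ γ' hγ' e
    refine hE' γ hγ (mem_union_left _ (mem_image.2 ⟨γ', hγ', ?_⟩))
    rw [mul_one] at e; rw [e]; group
  have s2 : Sep Γ [1, y * q⁻¹] := by
    simp only [Sep, List.pairwise_cons, List.mem_cons, List.not_mem_nil, or_false,
      forall_eq, List.Pairwise.nil, and_true, IsEmpty.forall_iff, implies_true]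
    intro γ hγ γ' hγ' e
    refine hE' γ' hγ' (mem_union_right _ (mem_image.2 ⟨γ, hγ, ?_⟩))
    rw [mul_one] at e; rw [e]; group
  have b1 := Hall _ s1 y hv (by simpa using hp)
  have b2 := Hall _ s2 q hq (by simpa using hv)
  refine (b1.add b2).of_eq ?_ ?_ <;>
    simp only [List.map_cons, List.map_nil, List.sum_cons, List.sum_nil, ← hac, one_mul,
      inv_mul_cancel_right] <;> abel

/-- size of a label switcher -/
def KS (W : ℕ) : ℕ := (W + 2) * (8 * ((W + 2) * (8 * 12 + 40)) + 40)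

theorem switcher {δ : ℝ} (hy : Hyp G δ) {W : ℕ} (hδ : δ * (W + 1) ≤ 1 / 1000) (hW : CW G W)
    {b : ℕ} (hb : 20 * b ≤ Fintype.card G) {u v : G} (hu : u ≠ 1) (hv : v ≠ 1) :
    R2 b (KS W) (lab u) (lab v) := by
  have hδ0 := hy.pos
  have hδ1 : δ ≤ 1 / 1000 := by nlinarith [(Nat.cast_nonneg W : (0 : ℝ) ≤ W)]
  have r : ∀ {u : G}, u ≠ 1 → R2 b 3 (lab u) (lab u) := fun hu =>
    (rs_refl hy hδ1 hb hu).sub (by simp)
  have h := level hy hδ hW hb (Γ := {1}) (by simp) (by simp) lab (fun _ => 0) (by simp [lv])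
    (k := (W + 2) * (8 * 12 + 40)) (by omega) ?_ u v (by simpa [Val]) (by simpa [Val])
  · simpa [KS] using h
  intro g z z' h1 h2 h3 h4
  simp only [Val, mem_singleton, forall_eq, one_mul] at h1 h2 h3 h4
  by_cases hg : g = 1
  · subst hg
    exact (((r h1).add (r h3)).of_eq (by simp) (by simp)).mono (by omega)
  have h5 := level hy hδ hW hb (Γ := {1, g}) (by simp) card_le_two (fun y => lab (g * y)) lab
    (fun y => by rw [lv, sum_pair (Ne.symm hg), one_mul, add_comm]) (k := 12) (by omega) ?_ z z'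
    (by simp [Val, h1, h2]) (by simp [Val, h3, h4])
  · simpa using h5
  intro h x x' v1 v2 v3 v4
  simp only [Val, mem_insert, mem_singleton, forall_eq_or_imp, forall_eq, one_mul] at v1 v2 v3 v4
  exact rel0 hy hδ1 hb v1.1 v1.2 v2.1 v2.2 v3.1 v3.2 v4.1 v4.2

end Pool.Agent.Lib.MP_2c654c_co.Abs
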