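import Mathlib
import Pool.Agent.Lib.MP_2c654c_co.Abs.Level

set_option autoImplicit false

namespace Pool.Agent.Lib.MP_2c654c_co.Abs

open Finset Sum

variable {G : Type} [Group G] [Fintype G] [DecidableEq G]

omit [Fintype G] in
theorem RS.base {b : ℕ} : RS b 0 (Cone G : Set (G ⊕ G → ℕ)) := by
  intro F _
  exact ⟨∅, le_rfl, disjoint_empty_left _, fun A hA => by rw [ch_empty, zero_add]; exact hA⟩

theorem Hyp.big {δ : ℝ} (hy : Hyp G δ) (hδ : δ ≤ 1 / 1000) : 1000 ≤ Fintype.card G := by
  have := hy.one_le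
  have hn := npos (G := G)
  exact_mod_cast (show (1000 : ℝ) ≤ Fintype.card G by nlinarith)

omit [Group G] [Fintype G] [DecidableEq G] in
theorem card_pre_le {β : Type} [Fintype G] [DecidableEq β] (f : G → β) (hf : Function.Injective f)
    (F : Finset β) : (univ.filter fun s => f s ∈ F).card ≤ F.card :=
  card_le_card_of_injOn f (fun _ hy => (mem_filter.1 hy).2) hf.injOn

theorem one_of_three {δ : ℝ} (hy : Hyp G δ) {W : ℕ} (hδ : δ * (W + 1) ≤ 1 / 1000)
    (hδ' : δ ≤ 1 / 10 ^ 12) (hW : CW G W) {b : ℕ} (hb : 20 * b ≤ Fintype.card G)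
    (x : Fin 3 → G) (hx : ∀ i, x i ≠ 1) : RS b (6 * KS W + 9) (Set.range fun i => lab (x i)) := by
  refine RS.cancel fun F hF => ?_
  have hn := npos (G := G)
  have hbig := hy.big (by linarith)
  have hFP : F.toRight.card ≤ b := card_toRight_le.trans (by omega)
  obtain ⟨p, hp1, hp2, hp3⟩ : ∃ p : G, p ≠ 1 ∧ p ∉ F.toRight ∧
      4 * cc p F.toRight ≤ Fintype.card G := by
    have h1 := card_heavy F.toRight (x := (Fintype.card G : ℝ) / 4)
    set B := univ.filter fun a => (Fintype.card G : ℝ) / 4 ≤ cc a F.toRight with hB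
    have h2 : B.card ≤ 4 * F.toRight.card := by
      exact_mod_cast (show (B.card : ℝ) ≤ 4 * F.toRight.card by nlinarith)
    obtain ⟨p, _, hp⟩ := exists_mem_notMem_of_card_lt_card (s := insert 1 (F.toRight ∪ B))
      (t := univ) (by
        have := card_insert_le 1 (F.toRight ∪ B)
        have := card_union_le F.toRight B
        rw [card_univ]; omega)
    simp only [mem_insert, mem_union, not_or, hB, mem_filter, mem_univ, true_and, not_le] at hp
    exact ⟨p, hp.1, hp.2.1, by
      exact_mod_cast (show (4 : ℝ) * cc p F.toRight ≤ Fintype.card G by linarith [hp.2.2])⟩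
  obtain ⟨α, hα, hαp⟩ : ∃ α : Fin 3 → G, Function.Injective α ∧ ∀ i, (α i)⁻¹ * p * α i = p := by
    obtain ⟨f⟩ := Function.Embedding.nonempty_of_card_le (α := Fin 3)
      (β := (univ.filter fun e => e⁻¹ * p * e = p : Finset G)) (by
        have := hy.zge p
        rw [Fintype.card_coe, Fintype.card_fin]; unfold zc at this; omega)
    exact ⟨fun i => f i, fun i j h => f.injective (Subtype.ext h), fun i => (mem_filter.1 (f i).2).2⟩
  let FL := insert 1 F.toLeft
  have hFL : FL.card ≤ b + 1 :=
    (card_insert_le _ _).trans (Nat.add_le_add_right (card_toLeft_le.trans (by omega)) 1)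
  obtain ⟨s, hs1, hs2, hs3, hs4, hs5⟩ : ∃ s : G, (∀ i, α i * s ∉ FL) ∧
      (∀ i, s⁻¹ * (α i)⁻¹ * p ∉ FL) ∧ s⁻¹ * p * s ∉ F.toRight ∧ s⁻¹ * p * s ≠ p ∧
      ∀ i j, α i * s ≠ s⁻¹ * (α j)⁻¹ * p := by
    let B1 := univ.biUnion fun i => univ.filter fun s => α i * s ∈ FL
    let B2 := univ.biUnion fun i => univ.filter fun s => s⁻¹ * (α i)⁻¹ * p ∈ FL
    let B3 := univ.filter fun s => s⁻¹ * p * s ∈ F.toRight
    let B4 := univ.filter fun s => s⁻¹ * p * s = p
    let B5 := univ.biUnion fun ij : Fin 3 × Fin 3 =>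
      univ.filter fun s => α ij.1 * s = s⁻¹ * (α ij.2)⁻¹ * p
    have h1 : B1.card ≤ 3 * (b + 1) := by
      refine le_trans (card_biUnion_le_card_mul _ _ (b + 1) fun i _ => ?_) (by simp)
      exact (card_pre_le _ (mul_right_injective _) _).trans hFL
    have h2 : B2.card ≤ 3 * (b + 1) := by
      refine le_trans (card_biUnion_le_card_mul _ _ (b + 1) fun i _ => ?_) (by simp)
      exact (card_pre_le _ (fun a b h => by simpa using h) _).trans hFL
    have h3 : 4 * B3.card ≤ Fintype.card G := hp3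
    have h4 : 1000 * B4.card ≤ Fintype.card G := by
      have := hy.zle p hp1
      exact_mod_cast (show (1000 : ℝ) * zc p ≤ Fintype.card G by nlinarith)
    have h5 : B5.card ≤ 9 * (Fintype.card G / 50) := by
      refine le_trans (card_biUnion_le_card_mul _ _ (Fintype.card G / 50) fun ij _ => ?_) (by simp)
      have h6 := hy.sqrt_le hδ' (α ij.1 * (α ij.2)⁻¹ * p)
      have h7 : (univ.filter fun s => α ij.1 * s = s⁻¹ * (α ij.2)⁻¹ * p).card ≤
          (univ.filter fun x => x * x = α ij.1 * (α ij.2)⁻¹ * p).card := by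
        refine card_le_card_of_injOn (fun s => α ij.1 * s) (fun s hs => ?_)
          (mul_right_injective _).injOn
        refine mem_filter.2 ⟨mem_univ _, ?_⟩
        have := (mem_filter.1 hs).2
        calc α ij.1 * s * (α ij.1 * s) = α ij.1 * s * (s⁻¹ * (α ij.2)⁻¹ * p) := by rw [← this]
          _ = _ := by group
      omega
    obtain ⟨s, _, hs⟩ := exists_mem_notMem_of_card_lt_card (s := B1 ∪ B2 ∪ B3 ∪ B4 ∪ B5)
      (t := univ) (by
        have := card_union_le (B1 ∪ B2 ∪ B3 ∪ B4) B5
        have := card_union_le (B1 ∪ B2 ∪ B3) B4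
        have := card_union_le (B1 ∪ B2) B3
        have := card_union_le B1 B2
        rw [card_univ]; omega)
    simp only [B1, B2, B3, B4, B5, mem_union, not_or, mem_biUnion, mem_filter, mem_univ, true_and,
      not_exists, Prod.forall] at hs
    exact ⟨s, hs.1.1.1.1, hs.1.1.1.2, hs.1.1.2, hs.1.2, hs.2⟩
  let e : Fin 3 → G := fun i => α i * s
  let f : Fin 3 → G := fun i => s⁻¹ * (α i)⁻¹ * p
  have he : Function.Injective e := fun i j h => hα (mul_right_cancel h)
  have hf : Function.Injective f := fun i j h => hα (by simpa [f] using h)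
  obtain ⟨y, _, hy'⟩ := exists_mem_notMem_of_card_lt_card
    (s := FL ∪ univ.image e ∪ univ.image f) (t := univ) (by
      have := card_union_le (FL ∪ univ.image e) (univ.image f)
      have := card_union_le FL (univ.image e)
      have : (univ.image e).card ≤ 3 := card_image_le.trans (by simp)
      have : (univ.image f).card ≤ 3 := card_image_le.trans (by simp)
      rw [card_univ]; omega)
  simp only [mem_union, not_or, mem_image, mem_univ, true_and, not_exists] at hy'
  let v : Fin 3 ⊕ Fin 3 ⊕ Fin 3 → G ⊕ G := Sum.elim (fun i => inl (e i))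
    (Sum.elim (fun i => inl (f i)) ![inl y, inr p, inr (s⁻¹ * p * s)])
  have hv : Function.Injective v := by
    rintro (i | i | i) (j | j | j) h
    · rw [he (inl_injective h)]
    · exact absurd (inl_injective h) (hs5 i j)
    · fin_cases j <;> simp [v] at h; exact absurd h (hy'.1.2 i)
    · exact absurd (inl_injective h).symm (hs5 j i)
    · rw [hf (inl_injective h)]
    · fin_cases j <;> simp [v] at h; exact absurd h (hy'.2 i)
    · fin_cases i <;> simp [v] at h; exact absurd h.symm (hy'.1.2 j)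
    · fin_cases i <;> simp [v] at h; exact absurd h.symm (hy'.2 j)
    · fin_cases i <;> fin_cases j <;> simp [v, hs4, hs4.symm] at h ⊢
  have hFl : ∀ z, z ∉ FL → z ≠ 1 ∧ inl z ∉ F := fun z hz => by simpa [FL] using hz
  refine ⟨univ.image v, card_image_le.trans (by simp), ?_, ?_⟩
  · rw [disjoint_left]; intro w hw
    obtain ⟨i | i | i, _, rfl⟩ := mem_image.1 hw
    · exact (hFl _ (hs1 i)).2
    · exact (hFl _ (hs2 i)).2
    · fin_cases i
      · exact (hFl _ hy'.1.1).2
      · simpa [v] using hp2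
      · simpa [v] using hs3
  · have r1 := RS.sum (b := b) univ (fun _ => KS W) (fun i => {lab (x i), lab (e i)})
      fun i _ => switcher hy hδ hW hb (hx i) (hFl _ (hs1 i)).1
    have r2 := RS.sum (b := b) univ (fun _ => KS W) (fun i => {lab y, lab (f i)})
      fun i _ => switcher hy hδ hW hb (hFl _ hy'.1.1).1 (hFl _ (hs2 i)).1
    refine RS.mono ((r1.add r2 (𝒟 := _) fun D hD => hD).add RS.base ?_) (by simp; omega)
    rintro D ⟨_, ⟨i, rfl⟩, rfl⟩
    refine ⟨_, ⟨_, ⟨fun j => if j = i then lab (x j) else lab (e j), fun j _ => ?_, rfl⟩, _,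
      ⟨fun j => if j = i then lab y else lab (f j), fun j _ => ?_, rfl⟩, rfl⟩,
      edge (e i) (f i), edge_mem _ _, ?_⟩
    · by_cases h : j = i <;> simp [h]
    · by_cases h : j = i <;> simp [h]
    · have h1 : e i * f i = p := by simp [e, f, mul_assoc]
      have h2 : f i * e i = s⁻¹ * p * s := by
        simp only [e, f]
        conv_rhs => rw [← hαp i]
        group
      rw [ch_image _ _ hv.injOn, edge, h1, h2]
      simp only [Fintype.sum_sum_type, Fin.sum_univ_three, v, lab, prd]
      fin_cases i <;> simp <;> abel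

/-- cost per port of the one-of-many gadget -/
def KO (W : ℕ) : ℕ := 6 * KS W + 10

theorem one_of {δ : ℝ} (hy : Hyp G δ) {W : ℕ} (hδ : δ * (W + 1) ≤ 1 / 1000)
    (hδ' : δ ≤ 1 / 10 ^ 12) (hW : CW G W) {b : ℕ} (hb : 20 * b ≤ Fintype.card G) (d : ℕ) :
    ∀ N : Finset G, N.card = d + 1 → 1 ∉ N → RS b (KO W * N.card) (lab '' (N : Set G)) := by
  induction d with
  | zero =>
    intro N hN h1
    obtain ⟨u, rfl⟩ := card_eq_one.1 hN
    refine ((rs_refl hy (by linarith) hb (u := u) (by simpa [eq_comm] using h1)).sub (by simp)).mono ?_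
    simp [KO]
  | succ d ih =>
    intro N hN h1
    obtain ⟨u, hu⟩ : N.Nonempty := card_pos.1 (by omega)
    have h2 : (N.erase u).card = d + 1 := by rw [card_erase_of_mem hu]; omega
    obtain ⟨v, hv⟩ : (N.erase u).Nonempty := card_pos.1 (by omega)
    have h3 : ((N.erase u).erase v).card = d := by rw [card_erase_of_mem hv]; omega
    have h4 : KO W * N.card = KO W * (d + 1) + (6 * KS W + 9) + 1 := by rw [hN, KO]; ring
    rw [h4]
    refine RS.cancel fun F hF => ?_
    have hbig := hy.big (by linarith)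
    have h5 : d + 1 ≤ KO W * (d + 1) := Nat.le_mul_of_pos_left _ (by simp [KO])
    obtain ⟨y, _, hy'⟩ := exists_mem_notMem_of_card_lt_card
      (s := insert 1 (F.toLeft ∪ N)) (t := univ) (by
        have := card_insert_le 1 (F.toLeft ∪ N)
        have := card_union_le F.toLeft N
        have : F.toLeft.card ≤ F.card := card_toLeft_le
        rw [card_univ]; omega)
    simp only [mem_insert, mem_union, not_or, mem_toLeft] at hy'
    refine ⟨{inl y}, by simp, by simpa using hy'.2.1, ?_⟩
    have h6 : y ∉ (N.erase u).erase v := fun h => hy'.2.2 (mem_of_mem_erase (mem_of_mem_erase h))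
    have r1 := ih (insert y ((N.erase u).erase v)) (by rw [card_insert_of_notMem h6, h3]) (by
      simp only [mem_insert, mem_erase, not_or]
      exact ⟨Ne.symm hy'.1, fun h => h1 h.2.2⟩)
    rw [card_insert_of_notMem h6, h3] at r1
    have r2 := one_of_three hy hδ hδ' hW hb ![y, u, v] (by
      intro i; fin_cases i
      · exact hy'.1
      · exact fun e => h1 (e ▸ hu)
      · exact fun e => h1 (e ▸ mem_of_mem_erase hv))
    refine r1.add r2 ?_
    rintro D ⟨_, ⟨z, hz, rfl⟩, rfl⟩
    have h7 : ch ({inl y} : Finset (G ⊕ G)) = lab y := by rw [ch_sum, sum_singleton, lab]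
    by_cases e1 : z = u
    · exact ⟨lab y, ⟨y, by simp, rfl⟩, lab u, ⟨1, rfl⟩, by rw [h7, e1]⟩
    by_cases e2 : z = v
    · exact ⟨lab y, ⟨y, by simp, rfl⟩, lab v, ⟨2, rfl⟩, by rw [h7, e2]⟩
    · exact ⟨lab z, ⟨z, by simp [e1, e2, mem_coe.1 hz], rfl⟩, lab y, ⟨0, rfl⟩, by rw [h7, add_comm]⟩

end Pool.Agent.Lib.MP_2c654c_co.Abs
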