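import Mathlib
import Pool.Agent.Lib.MP_2c654c_co.Abs.Gad

set_option autoImplicit false

namespace Pool.Agent.Lib.MP_2c654c_co.Abs

open Finset Sum

theorem choose_le3 (a s : ℕ) (hs : 0 < s) : (a.choose s : ℝ) ≤ (3 * a / s) ^ s := by
  have h1 : (a.choose s : ℝ) ≤ (a : ℝ) ^ s / s.factorial := by
    exact_mod_cast Nat.choose_le_pow_div (α := ℝ) s a
  have h2 := Real.pow_div_factorial_le_exp (s : ℝ) (by positivity) s
  have h3 : Real.exp s ≤ 3 ^ s := by
    rw [← Real.exp_one_pow]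
    exact pow_le_pow_left₀ (Real.exp_pos 1).le (by linarith [Real.exp_one_lt_d9]) s
  have h4 : (0 : ℝ) < s := by exact_mod_cast hs
  have h5 : (0 : ℝ) < s.factorial := by exact_mod_cast s.factorial_pos
  refine h1.trans ?_
  rw [div_pow, mul_pow, div_le_div_iff₀ h5 (by positivity)]
  have h6 := h2.trans h3
  rw [div_le_iff₀ h5] at h6
  nlinarith [pow_nonneg (Nat.cast_nonneg a : (0 : ℝ) ≤ a) s]

theorem expander (A B : Type) [Fintype A] [Fintype B] [DecidableEq A] [DecidableEq B]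
    (hB : 0 < Fintype.card B) (hA : Fintype.card A ≤ 2 * Fintype.card B) :
    ∃ f : A → Fin 19 → B, ∀ S : Finset A, 5 * S.card ≤ 4 * Fintype.card B →
      S.card ≤ (S.biUnion fun a => univ.image (f a)).card := by
  set m := Fintype.card B with hm
  set a := Fintype.card A with ha
  have hm0 : (0 : ℝ) < m := by exact_mod_cast hB
  let bad : Finset A → Finset B → Finset (A → Fin 19 → B) := fun S T =>
    Fintype.piFinset fun x => if x ∈ S then Fintype.piFinset fun _ => T else univ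
  have h1 : ∀ S T, (bad S T).card = (T.card ^ 19) ^ S.card * (m ^ 19) ^ (a - S.card) := by
    intro S T
    simp only [bad, Fintype.card_piFinset, apply_ite card, prod_const, card_univ, Fintype.card_fin,
      Fintype.card_fun]
    rw [prod_ite, prod_const, prod_const, filter_mem_eq_inter, univ_inter, filter_not, filter_mem_eq_inter,
      univ_inter, card_univ_sdiff]
  let I := (Icc 1 a).filter fun s => 5 * s ≤ 4 * m
  let Bad := I.biUnion fun s => (powersetCard s univ ×ˢ powersetCard s univ).biUnion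
    fun p => bad p.1 p.2
  have h2 : ∀ s ∈ I, (((powersetCard s univ ×ˢ powersetCard s univ).biUnion
      fun p : Finset A × Finset B => bad p.1 p.2).card : ℝ) ≤ (1 / 2) ^ s * ((m : ℝ) ^ 19) ^ a := by
    intro s hs
    obtain ⟨hs1, hs2⟩ := mem_filter.1 hs
    obtain ⟨hs3, hs4⟩ := mem_Icc.1 hs1
    have h3 := card_biUnion_le_card_mul (powersetCard s univ ×ˢ powersetCard s univ)
      (fun p : Finset A × Finset B => bad p.1 p.2) ((s ^ 19) ^ s * (m ^ 19) ^ (a - s)) (by
        intro p hp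
        obtain ⟨h4, h5⟩ := mem_product.1 hp
        rw [h1, (mem_powersetCard.1 h4).2, (mem_powersetCard.1 h5).2])
    rw [card_product, card_powersetCard, card_powersetCard, card_univ, card_univ] at h3
    refine le_trans (Nat.cast_le.2 h3) ?_
    push_cast
    have h4 := choose_le3 a s hs3
    have h5 := choose_le3 m s hs3
    have hs0 : (0 : ℝ) < s := by exact_mod_cast hs3
    have h6 : (3 * a / s : ℝ) ≤ 6 * m / s := by
      have : (a : ℝ) ≤ 2 * m := by exact_mod_cast hA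
      exact div_le_div_of_nonneg_right (by linarith) hs0.le
    have h7 : (6 * m / s : ℝ) * (3 * m / s) * s ^ 19 ≤ 1 / 2 * m ^ 19 := by
      have h8 : (s : ℝ) ≤ 4 / 5 * m := by
        have : (5 : ℝ) * s ≤ 4 * m := by exact_mod_cast hs2
        linarith
      calc (6 * m / s : ℝ) * (3 * m / s) * (s : ℝ) ^ 19 = 18 * (m : ℝ) ^ 2 * (s : ℝ) ^ 17 := by
            field_simp; ring
        _ ≤ 18 * (m : ℝ) ^ 2 * (4 / 5 * m) ^ 17 := by gcongr
        _ = 18 * (4 / 5) ^ 17 * (m : ℝ) ^ 19 := by ring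
        _ ≤ _ := by gcongr; norm_num
    have h8 : ((m : ℝ) ^ 19) ^ a = (m ^ 19) ^ s * (m ^ 19) ^ (a - s) := by
      rw [← pow_add]; congr 1; omega
    rw [← ha, ← hm, h8, ← mul_assoc, ← mul_assoc, ← mul_pow]
    refine mul_le_mul_of_nonneg_right ?_ (by positivity)
    calc (a.choose s : ℝ) * m.choose s * ((s : ℝ) ^ 19) ^ s ≤
          (6 * m / s : ℝ) ^ s * (3 * m / s : ℝ) ^ s * ((s : ℝ) ^ 19) ^ s := by
          gcongr; exact h4.trans (by gcongr)
      _ = (6 * m / s * (3 * m / s) * (s : ℝ) ^ 19) ^ s := by rw [mul_pow, mul_pow]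
      _ ≤ _ := by gcongr
  have h3 : Bad.card < (univ : Finset (A → Fin 19 → B)).card := by
    have h4 : (Bad.card : ℝ) ≤ ∑ s ∈ Icc 1 a, (1 / 2 : ℝ) ^ s * ((m : ℝ) ^ 19) ^ a := by
      refine le_trans (Nat.cast_le.2 card_biUnion_le) ?_
      push_cast
      exact (sum_le_sum h2).trans (sum_le_sum_of_subset_of_nonneg (filter_subset _ _)
        fun _ _ _ => by positivity)
    have h5 : ∀ k : ℕ, ∑ s ∈ Icc 1 k, (1 / 2 : ℝ) ^ s = 1 - (1 / 2) ^ k := by
      intro k
      induction k with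
      | zero => simp
      | succ k ih => rw [sum_Icc_succ_top (by omega), ih]; ring
    rw [← sum_mul, h5] at h4
    have h6 : (0 : ℝ) < (1 / 2) ^ a * ((m : ℝ) ^ 19) ^ a := by positivity
    have h7 : ((univ : Finset (A → Fin 19 → B)).card : ℝ) = ((m : ℝ) ^ 19) ^ a := by
      simp [ha, hm]
    exact_mod_cast (show (Bad.card : ℝ) < (univ : Finset (A → Fin 19 → B)).card by rw [h7]; linarith)
  obtain ⟨f, _, hf⟩ := exists_mem_notMem_of_card_lt_card h3
  refine ⟨f, fun S hS => ?_⟩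
  by_contra hlt
  obtain ⟨T, hT1, _, hT2⟩ := exists_subsuperset_card_eq (n := S.card)
    (subset_univ (S.biUnion fun a => univ.image (f a))) (by omega) (by rw [card_univ]; omega)
  refine hf (mem_biUnion.2 ⟨S.card, mem_filter.2 ⟨mem_Icc.2 ⟨by omega, card_le_univ S⟩, hS⟩,
    mem_biUnion.2 ⟨(S, T), by simp [hT2], ?_⟩⟩)
  simp only [bad, Fintype.mem_piFinset]
  intro x
  split_ifs with hx
  · exact Fintype.mem_piFinset.2 fun i =>
      hT1 (mem_biUnion.2 ⟨x, hx, mem_image_of_mem _ (mem_univ i)⟩)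
  · exact mem_univ _

theorem template {α : Type} [DecidableEq α] (Z Q : Finset α) (hZQ : Disjoint Z Q)
    (hQ : Q.card = 2 * Z.card) (hZ : 1 ≤ Z.card) (m : ℕ) (hm : m ≤ Z.card) :
    ∃ Nb : Fin (2 * Z.card + m) → Finset α, (∀ w, Nb w ⊆ Z ∪ Q ∧ (Nb w).Nonempty) ∧
      ∑ w, (Nb w).card ≤ 114 * Z.card ∧ ∀ Z' ⊆ Z, Z'.card = m →
        ∃ f : Fin (2 * Z.card + m) → α, Function.Injective f ∧ (∀ w, f w ∈ Nb w) ∧
          univ.image f = Z' ∪ Q := by
  set N := Z.card with hN
  have hU : (Z ∪ Q).card = 3 * N := by rw [card_union_of_disjoint hZQ]; omega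
  obtain ⟨f1, h1⟩ := expander (Z ∪ Q : Finset α) (Fin (2 * N + m)) (by simp; omega)
    (by rw [Fintype.card_coe, Fintype.card_fin]; omega)
  obtain ⟨f2, h2⟩ := expander (Fin (2 * N + m)) Q (by rw [Fintype.card_coe]; omega)
    (by rw [Fintype.card_coe, Fintype.card_fin]; omega)
  rw [Fintype.card_fin] at h1
  rw [Fintype.card_coe] at h2
  let N1 : Fin (2 * N + m) → Finset α := fun w =>
    (univ.filter fun p : (Z ∪ Q : Finset α) × Fin 19 => f1 p.1 p.2 = w).image fun p => p.1.1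
  let N2 : Fin (2 * N + m) → Finset α := fun w => univ.image fun i => (f2 w i).1
  refine ⟨fun w => N1 w ∪ N2 w, fun w => ⟨union_subset ?_ ?_, ?_⟩, ?_, fun Z' hZ' hm' => ?_⟩
  · intro x hx
    obtain ⟨p, _, rfl⟩ := mem_image.1 hx
    exact p.1.2
  · intro x hx
    obtain ⟨p, _, rfl⟩ := mem_image.1 hx
    exact mem_union_right _ (f2 w p).2
  · exact ⟨(f2 w 0).1, mem_union_right _ (mem_image_of_mem _ (mem_univ _))⟩
  · have h3 : ∑ w, (N1 w).card ≤ 3 * N * 19 := by
      refine (sum_le_sum fun w _ => card_image_le).trans ?_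
      rw [← card_eq_sum_card_fiberwise (f := fun p : (Z ∪ Q : Finset α) × Fin 19 => f1 p.1 p.2)
        (s := univ) (t := univ) (fun _ _ => by simp)]
      simp [hU]
    have h4 : ∑ w, (N2 w).card ≤ (2 * N + m) * 19 := by
      refine (sum_le_card_nsmul _ _ 19 fun w _ => card_image_le.trans (by simp)).trans ?_
      simp
    refine (sum_le_sum fun w _ => card_union_le _ _).trans ?_
    rw [sum_add_distrib]; omega
  have hX : (Z' ∪ Q).card = 2 * N + m := by
    rw [card_union_of_disjoint (hZQ.mono_left hZ')]; omega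
  have key : ∀ T : Finset (Fin (2 * N + m)), 5 * T.card ≤ 4 * Q.card →
      T.card ≤ (T.biUnion fun w => (N1 w ∪ N2 w) ∩ (Z' ∪ Q)).card := by
    intro T hT
    refine (h2 T hT).trans (card_le_card_of_injOn Subtype.val ?_ Subtype.val_injective.injOn)
    intro x hx
    obtain ⟨w, hw, hx⟩ := mem_biUnion.1 (mem_coe.1 hx)
    obtain ⟨i, _, rfl⟩ := mem_image.1 hx
    exact mem_coe.2 (mem_biUnion.2 ⟨w, hw, mem_inter.2
      ⟨mem_union_right _ (mem_image_of_mem _ (mem_univ _)), mem_union_right _ (f2 w i).2⟩⟩)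
  obtain ⟨f, hf1, hf2⟩ := (all_card_le_biUnion_card_iff_exists_injective
      (fun w => (N1 w ∪ N2 w) ∩ (Z' ∪ Q))).1 (fun T => by
    by_cases hT : 5 * T.card ≤ 4 * Q.card
    · exact key T hT
    by_contra hlt
    set NT := T.biUnion fun w => (N1 w ∪ N2 w) ∩ (Z' ∪ Q) with hNT
    have h3 : NT ⊆ Z' ∪ Q := biUnion_subset.2 fun w _ => inter_subset_right
    obtain ⟨T0, h4, h5⟩ := exists_subset_card_eq (s := T) (n := 8 * N / 5) (by omega)
    have h6 : 8 * N / 5 ≤ NT.card := by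
      rw [← h5]
      exact (key T0 (by omega)).trans (card_le_card (biUnion_subset_biUnion_of_subset_left _ h4))
    let S : Finset (Z ∪ Q : Finset α) := univ.filter fun x => x.1 ∈ (Z' ∪ Q) \ NT
    have h7 : S.card = 2 * N + m - NT.card := by
      rw [← hX, ← card_sdiff_of_subset h3]
      refine card_bij (fun x _ => x.1) (fun x hx => (mem_filter.1 hx).2)
        (fun x _ y _ h => Subtype.ext h) fun x hx => ⟨⟨x, ?_⟩, mem_filter.2 ⟨mem_univ _, hx⟩, rfl⟩
      exact union_subset_union hZ' Subset.rfl (mem_sdiff.1 hx).1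
    have h8 := h1 S (by omega)
    have h9 : (S.biUnion fun a => univ.image (f1 a)) ⊆ univ \ T := by
      intro w hw
      obtain ⟨x, hx, hw⟩ := mem_biUnion.1 hw
      obtain ⟨i, _, rfl⟩ := mem_image.1 hw
      obtain ⟨h10, h11⟩ := mem_sdiff.1 (mem_filter.1 hx).2
      refine mem_sdiff.2 ⟨mem_univ _, fun h12 => h11 (mem_biUnion.2 ⟨_, h12, mem_inter.2 ⟨?_, h10⟩⟩)⟩
      exact mem_union_left _ (mem_image.2 ⟨(x, i), by simp, rfl⟩)
    have h10 := card_le_card h9
    rw [card_univ_sdiff, Fintype.card_fin] at h10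
    have h11 := card_le_card h3
    have h12 : T.card ≤ 2 * N + m := by simpa using card_le_univ T
    omega)
  refine ⟨f, hf1, fun w => (mem_inter.1 (hf2 w)).1, eq_of_subset_of_card_le ?_ ?_⟩
  · intro x hx
    obtain ⟨w, _, rfl⟩ := mem_image.1 hx
    exact (mem_inter.1 (hf2 w)).2
  · rw [card_image_of_injective _ hf1, hX]; simp

variable {G : Type} [Group G] [Fintype G] [DecidableEq G]

/-- cost per flexible label of the absorber -/
def KA (W : ℕ) : ℕ := 114 * KO W + 3

theorem absorber {δ : ℝ} (hy : Hyp G δ) {W : ℕ} (hδ : δ * (W + 1) ≤ 1 / 1000)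
    (hδ' : δ ≤ 1 / 10 ^ 12) (hW : CW G W) {b : ℕ} (hb : 20 * b ≤ Fintype.card G)
    (Z : Finset G) (hZ : 1 ≤ Z.card) (h1 : 1 ∉ Z) (m : ℕ) (hm : m ≤ Z.card) :
    RS b (KA W * Z.card) {D | ∃ Z' ⊆ Z, Z'.card = m ∧ D = ch (Z'.image inl)} := by
  refine RS.mono (k := 114 * KO W * Z.card + 2 * Z.card) (RS.cancel fun F hF => ?_)
    (by rw [KA]; nlinarith)
  have hbig := hy.big (by linarith)
  obtain ⟨Q, hQ1, hQ2⟩ := exists_subset_card_eq (s := univ \ insert 1 (F.toLeft ∪ Z))
    (n := 2 * Z.card) (by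
      rw [card_univ_sdiff]
      have := card_insert_le 1 (F.toLeft ∪ Z)
      have := card_union_le F.toLeft Z
      have : F.toLeft.card ≤ F.card := card_toLeft_le
      omega)
  have hQ3 : ∀ x ∈ Q, x ≠ 1 ∧ inl x ∉ F ∧ x ∉ Z := fun x hx => by simpa using hQ1 hx
  have hZQ : Disjoint Z Q := disjoint_right.2 fun x hx => (hQ3 x hx).2.2
  obtain ⟨Nb, hN1, hN2, hN3⟩ := template Z Q hZQ hQ2 hZ m hm
  refine ⟨Q.image inl, card_image_le.trans hQ2.le, ?_, ?_⟩
  · rw [disjoint_left]; intro v hv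
    obtain ⟨x, hx, rfl⟩ := mem_image.1 hv
    exact (hQ3 x hx).2.1
  have r := RS.sum (b := b) univ (fun w => KO W * (Nb w).card) (fun w => lab '' (Nb w : Set G))
    fun w _ => one_of hy hδ hδ' hW hb ((Nb w).card - 1) (Nb w)
      (by have := card_pos.2 (hN1 w).2; omega) (fun h => by
        rcases mem_union.1 ((hN1 w).1 h) with h2 | h2
        · exact h1 h2
        · exact (hQ3 _ h2).1 rfl)
  refine (r.sub ?_).mono (by rw [← mul_sum]; nlinarith)
  rintro D ⟨_, ⟨Z', hZ', hm', rfl⟩, rfl⟩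
  obtain ⟨f, hf1, hf2, hf3⟩ := hN3 Z' hZ' hm'
  refine ⟨fun w => lab (f w), fun w _ => ⟨f w, hf2 w, rfl⟩, ?_⟩
  have h2 : Disjoint (Q.image inl) (Z'.image (inl : G → G ⊕ G)) :=
    (disjoint_image inl_injective).2 (hZQ.mono_left hZ').symm
  show ch _ + ch _ = _
  rw [← ch_union h2, ← image_union, union_comm, ← hf3, image_image,
    ch_image _ _ (inl_injective.comp hf1).injOn]
  rfl

end Pool.Agent.Lib.MP_2c654c_co.Abs
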