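import Mathlib
import Pool.Agent.Lib.MP_2c654c_co.Abs.Down
import Pool.Agent.Lib.MP_2c654c_co.Abs.Nib
import Pool.Agent.Lib.MP_2c654c_co.Abs.Templ

set_option autoImplicit false

namespace Pool.Agent.Lib.MP_2c654c_co.Abs

open Finset Sum

theorem bad_labels {G : Type} [Group G] [Fintype G] [DecidableEq G] {ε ζ σ τ : ℝ} (hε : 0 ≤ ε)
    (hm : Mix G ((ε ^ 2 / 2) ^ 2)) (_hζ : 0 ≤ ζ) (hσ : 0 ≤ σ) (hτ : 0 ≤ τ) (Z Y : Finset G)
    (hZ : ζ * Fintype.card G ≤ Z.card) (hY : ∀ a ∈ Y, σ * Fintype.card G ≤ cc a Y)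
    (hY' : τ * Fintype.card G ≤ Y.card) :
    ζ * σ * τ / 2 * (univ.filter fun u => ((Z.filter fun f => u * f ∈ Y ∧ f * u ∈ Y).card : ℝ) <
      ζ * σ * τ / 2 * Fintype.card G).card ≤ 2 * ε * Fintype.card G := by
  have hn := npos (G := G)
  set n : ℝ := (Fintype.card G : ℝ) with hn'
  set B := univ.filter fun u => ((Z.filter fun f => u * f ∈ Y ∧ f * u ∈ Y).card : ℝ) <
      ζ * σ * τ / 2 * n with hB
  let ind : Finset G → G → ℝ := fun S x => if x ∈ S then 1 else 0
  have hind : ∀ S x, 0 ≤ ind S x ∧ ind S x ≤ 1 := fun S x => by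
    simp only [ind]; split_ifs <;> simp
  have hind' : ∀ S x, |ind S x| ≤ 1 := fun S x => abs_le.2 ⟨by linarith [hind S x], (hind S x).2⟩
  have hsum : ∀ S, ∑ x, ind S x = S.card := fun S => by simp [ind]
  have h1 := (abs_le.1 (hm.lam hε (ind B) (ind Z) (ind Y) (ind Y) (hind B) (hind Z) (hind' Y)
    (hind' Y))).1
  have h2 : Lam (ind B) (ind Z) (ind Y) (ind Y) ≤ B.card * (ζ * σ * τ / 2 * n) := by
    rw [← hsum, sum_mul]
    refine sum_le_sum fun u _ => ?_
    by_cases hu : u ∈ B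
    · refine le_trans (le_of_eq ?_) (by simpa [ind, hu] using (mem_filter.1 hu).2.le)
      rw [card_filter]; push_cast
      rw [← sum_filter_add_sum_filter_not univ (· ∈ Z), filter_mem_eq_inter, univ_inter,
        sum_eq_zero (s := univ.filter (· ∉ Z)) fun f hf => by simp [ind, (mem_filter.1 hf).2],
        add_zero]
      refine sum_congr rfl fun f hf => ?_
      by_cases a1 : u * f ∈ Y <;> by_cases a2 : f * u ∈ Y <;> simp [ind, hu, hf, a1, a2]
    · simp [ind, hu]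
  have h3 : τ * n * (σ * n) ≤ ∑ a, ind Y a * ∑ e, ind Y (e⁻¹ * a * e) := by
    refine le_trans (mul_le_mul_of_nonneg_right hY' (by positivity)) ?_
    rw [← hsum, sum_mul]
    refine sum_le_sum fun a _ => ?_
    by_cases ha : a ∈ Y
    · simp only [ind, cc_real, if_pos ha, one_mul]; exact hY a ha
    · simp [ind, ha]
  rw [hsum, hsum, ← hn'] at h1
  have h4 : (B.card : ℝ) / n * ζ * (τ * n * (σ * n)) ≤
      B.card / n * (Z.card / n) * ∑ a, ind Y a * ∑ e, ind Y (e⁻¹ * a * e) := by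
    gcongr
    rwa [le_div_iff₀ hn]
  have h5 : (B.card : ℝ) / n * ζ * (τ * n * (σ * n)) = B.card * (ζ * σ * τ * n) := by field_simp
  refine le_of_mul_le_mul_right (a := n) ?_ hn
  nlinarith

theorem main (W : ℕ) : ∃ δ : ℝ, 0 < δ ∧ ∀ (G : Type) [Group G] [Fintype G] [DecidableEq G],
    Hyp G δ → CW G W → ∀ XL XP : Finset G, 1 ∈ XL → 1 ∈ XP → XL.card = XP.card →
      (XL.card : ℝ) ≤ δ * Fintype.card G → (∀ a, a ≠ 1 → (cc a XP : ℝ) ≤ δ * Fintype.card G) →
      (∀ a, Even ((univ \ XP) ∩ cl a).card) → PM (univ \ XL) (univ \ XP) := by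
  obtain ⟨t, ht⟩ : ∃ t : ℕ, t = 1000 * (KA W + 10) := ⟨_, rfl⟩
  obtain ⟨ρ, hρ⟩ : ∃ ρ : ℝ, ρ = 1 / (t + 1) := ⟨_, rfl⟩
  have hK : (0 : ℝ) ≤ KA W := by positivity
  have hρ0 : 0 < ρ := by rw [hρ]; positivity
  have hρK : ρ * (KA W + 10) ≤ 1 / 1000 := by
    rw [hρ, ht, div_mul_eq_mul_div, div_le_div_iff₀ (by positivity) (by positivity)]
    push_cast; linarith
  have hρ1 : ρ ≤ 1 / 1000 := by nlinarith
  have hp : ∀ k j : ℕ, ρ ^ (k + j) ≤ ρ ^ k / 1000 ^ j := fun k j => by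
    rw [pow_add, div_eq_mul_inv, ← inv_pow]
    gcongr; linarith
  obtain ⟨δn, hδn, Hn⟩ := nib (γ := ρ ^ 17) (ε := ρ ^ 17 * ((ρ ^ 22) ^ 2 / 4)) (by positivity)
    (by positivity) (by have := hp 0 61; norm_num at this; nlinarith)
  refine ⟨min δn (ρ ^ 140 / (W + 1)), by positivity, ?_⟩
  intro G _ _ _ hy hW XL XP x1 x2 x3 x4 x5 x6
  obtain ⟨δ, hδ⟩ : ∃ δ, δ = min δn (ρ ^ 140 / (W + 1)) := ⟨_, rfl⟩
  rw [← hδ] at hy x4 x5
  have hδ0 := hy.pos
  have hδ1 : δ ≤ δn := hδ ▸ min_le_left _ _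
  have hδ2 : δ * (W + 1) ≤ ρ ^ 140 := by
    rw [← le_div_iff₀ (by positivity), hδ]; exact min_le_right _ _
  have hδ3 : δ ≤ ρ ^ 140 := by nlinarith [(Nat.cast_nonneg W : (0 : ℝ) ≤ W)]
  have hδ4 : δ * (W + 1) ≤ 1 / 1000 := by have := hp 1 139; norm_num at this; linarith
  have hδ5 : δ ≤ 1 / 10 ^ 12 := by have := hp 0 140; norm_num at this; linarith
  have hn := npos (G := G)
  have hbig := hy.big (by linarith)
  set n : ℝ := (Fintype.card G : ℝ) with hn'
  have hq : ∀ k j : ℕ, ρ ^ (k + j) * n ≤ ρ ^ k * n / 1000 ^ j := fun k j => by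
    rw [mul_div_right_comm]; exact mul_le_mul_of_nonneg_right (hp k j) hn.le
  have q1 : ρ * n ≤ n / 1000 := by simpa using hq 0 1
  have q2 : ρ ^ 4 * n ≤ ρ * n / 1000 := by have := hq 1 3; norm_num at this; nlinarith [mul_pos hρ0 hn]
  have q3 : ρ ^ 6 * n ≤ ρ ^ 4 * n / 1000 := by
    have := hq 4 2; norm_num at this; nlinarith [mul_pos (pow_pos hρ0 4) hn]
  have q4 : ρ ^ 22 * n ≤ ρ ^ 6 * n / 1000 := by
    have := hq 6 16; norm_num at this; nlinarith [mul_pos (pow_pos hρ0 6) hn]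
  have q5 : δ * n ≤ ρ ^ 22 * n / 1000 := by
    have := hq 22 118; norm_num at this; nlinarith [mul_pos (pow_pos hρ0 22) hn]
  have q6 : 0 < ρ ^ 22 * n := by positivity
  -- the reservoir
  obtain ⟨A, a1, a2, a3⟩ := exists_dense hy hρ0.le XP (fun a ha => by linarith [x5 a ha])
  have a4 : ∀ a, a ≠ 1 → ρ / 2 * n ≤ cc a A := fun a ha => by linarith [a3 a ha]
  have a5 : (A.card : ℝ) ≤ ρ * n := card_le_of_cc a2
  have a6 : ∀ a ∈ A, a ≠ 1 := fun a ha e => disjoint_left.1 a1 ha (e ▸ x2)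
  obtain ⟨r, hr, r1, r2⟩ := cover A XL XP
    (Nat.cast_le (α := ℝ).1 (by push_cast; linarith))
    (fun a ha => Nat.cast_le (α := ℝ).1 (by push_cast; linarith [x5 a (a6 a ha), a2 a]))
  have r3 : ((rl A r).card : ℝ) ≤ 2 * (ρ * n) := by
    have := (Nat.cast_le (α := ℝ)).2 (card_rl A r)
    push_cast at this; linarith
  have r4 : ∀ a, (cc a (A ∪ rp A r) : ℝ) ≤ 2 * (ρ * n) := fun a => by
    have := (Nat.cast_le (α := ℝ)).2 (cc_union_le a A (rp A r))
    rw [hr.cc_rp Subset.rfl] at this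
    push_cast at this; linarith [a2 a]
  have r5 : 32 * (sy (rl A r)).card ≤ Fintype.card G := by
    have h1 := card_union_le (rl A r) ((rl A r).image fun x => x⁻¹)
    have h2 : ((rl A r).image fun x => x⁻¹).card ≤ (rl A r).card := card_image_le
    have h3 : 64 * (rl A r).card ≤ Fintype.card G :=
      Nat.cast_le (α := ℝ).1 (by push_cast; linarith)
    unfold sy; omega
  -- bad products are covered first
  obtain ⟨A', b1, b2, b3⟩ : ∃ A' : Finset G, Disjoint A' (XP ∪ (A ∪ rp A r)) ∧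
      (∀ a, (cc a A' : ℝ) ≤ ρ ^ 22 * n) ∧ ∀ a, a ∉ A' → a ∉ XP ∪ (A ∪ rp A r) →
        Good (rl A r) A a ∧ Good (rl A r) (rp A r) a := by
    refine ⟨((univ.filter fun a => cc a A <
        16 * ((sy (rl A r)).filter fun e => e⁻¹ * a * e ∈ A).card) ∪
      univ.filter fun a => cc a (rp A r) <
        16 * ((sy (rl A r)).filter fun e => e⁻¹ * a * e ∈ rp A r).card) \ (XP ∪ (A ∪ rp A r)),
      sdiff_disjoint, fun a => ?_, fun a h1 h2 => ?_⟩
    · by_cases ha : a = 1
      · rw [ha, cc_one fun h => (mem_sdiff.1 h).2 (mem_union_left _ x2)]; simpa using q6.le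
      have h1 := class_mix hy (κ := ρ / 2) (by positivity) _ A r5 a (a4 a ha)
      have h2 := class_mix hy (κ := ρ / 2) (by positivity) _ (rp A r) r5 a
        (by rw [hr.cc_rp Subset.rfl]; exact a4 a ha)
      have h3 : 1024 * δ / (ρ / 2) ^ 2 ≤ ρ ^ 22 / 2 := by
        rw [div_le_iff₀ (by positivity)]
        have := hp 24 116; norm_num at this
        nlinarith [pow_pos hρ0 24]
      refine le_trans (Nat.cast_le.2 ((cc_mono a sdiff_subset).trans (cc_union_le _ _ _))) ?_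
      push_cast
      nlinarith
    · simpa [h2, Good] using h1
  have b4 : (A'.card : ℝ) ≤ ρ ^ 22 * n := card_le_of_cc b2
  have b5 : ∀ a ∈ A', a ≠ 1 := fun a ha e => disjoint_left.1 b1 ha (e ▸ mem_union_left _ x2)
  obtain ⟨r', hr', s1, s2⟩ := cover A' (XL ∪ rl A r) (XP ∪ (A ∪ rp A r))
    (Nat.cast_le (α := ℝ).1 (by
      have := (Nat.cast_le (α := ℝ)).2 (card_union_le XL (rl A r))
      push_cast at this ⊢; linarith))
    (fun a ha => Nat.cast_le (α := ℝ).1 (by
      have := (Nat.cast_le (α := ℝ)).2 (cc_union_le a XP (A ∪ rp A r))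
      push_cast at this ⊢; linarith [x5 a (b5 a ha), b2 a, r4 a]))
  have m1 := hr.pm A Subset.rfl
  have m2 := hr'.pm A' Subset.rfl
  obtain ⟨XL', hXL'⟩ : ∃ X, X = XL ∪ rl A' r' := ⟨_, rfl⟩
  obtain ⟨XP', hXP'⟩ : ∃ X, X = XP ∪ (A' ∪ rp A' r') := ⟨_, rfl⟩
  have s3 : (XL'.card : ℝ) ≤ 3 * (ρ ^ 22 * n) := by
    have h1 := (Nat.cast_le (α := ℝ)).2 ((card_union_le XL (rl A' r')).trans
      (Nat.add_le_add_left (card_rl A' r') _))
    rw [hXL']; push_cast at h1; linarith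
  have s4 : ∀ a, a ≠ 1 → (cc a XP' : ℝ) ≤ 3 * (ρ ^ 22 * n) := fun a ha => by
    have h1 := (Nat.cast_le (α := ℝ)).2 ((cc_union_le a XP (A' ∪ rp A' r')).trans
      (Nat.add_le_add_left (cc_union_le _ _ _) _))
    rw [hr'.cc_rp Subset.rfl] at h1
    rw [hXP']; push_cast at h1; linarith [x5 a ha, b2 a]
  have s5 : Disjoint XP (A' ∪ rp A' r') := disjoint_union_right.2
    ⟨(b1.mono_right subset_union_left).symm, (s2.mono_right subset_union_left).symm⟩
  have s6 : XL'.card = XP'.card := by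
    rw [hXL', hXP', card_union_of_disjoint (s1.mono_right subset_union_left).symm,
      card_union_of_disjoint s5, x3, m2.card]
  have s7 : Disjoint XL' (rl A r) := by
    rw [hXL']; exact disjoint_union_left.2 ⟨r1.symm, s1.mono_right subset_union_right⟩
  have s8 : Disjoint XP' (A ∪ rp A r) := by
    rw [hXP']
    exact disjoint_union_left.2 ⟨disjoint_union_right.2 ⟨a1.symm, r2.symm⟩, disjoint_union_left.2
      ⟨b1.mono_right subset_union_right, s2.mono_right subset_union_right⟩⟩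
  -- the random flexible labels
  obtain ⟨Z, z1, z2, z3, z4⟩ := rand (γ := ρ ^ 17) (ε := (ρ ^ 22) ^ 2 / 4) (l := ρ ^ 22) t hy
    (by positivity) (by have := hp 0 17; norm_num at this; linarith)
    (by have := hp 51 89; norm_num at this; nlinarith [pow_pos hρ0 51]) (by positivity)
    (by have := hp 132 8; norm_num at this; nlinarith [pow_pos hρ0 132]) le_rfl hr
    (Nat.cast_le (α := ℝ).1 (by push_cast; linarith)) a4 (rl A r ∪ XL')
  rw [← hρ] at z1 z2 z3 z4
  rw [← hn'] at z1 z2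
  set Z1 := Z \ (rl A r ∪ XL') with hZ1
  have z5 : ρ ^ 4 / 4 * n ≤ Z1.card := by
    have h1 := (Nat.cast_le (α := ℝ)).2 (card_union_le (rl A r) XL')
    have h2 : ((univ \ (rl A r ∪ XL')).card : ℝ) = n - (rl A r ∪ XL').card := by
      rw [card_univ_sdiff, Nat.cast_sub (card_le_univ _)]
    push_cast at h1
    have h3 : n / 2 ≤ (univ \ (rl A r ∪ XL')).card := by linarith
    nlinarith [pow_pos hρ0 4]
  have z6 : (Z1.card : ℝ) ≤ 2 * (ρ * n) := by
    have : (Z1.card : ℝ) ≤ Z.card := Nat.cast_le.2 (card_le_card sdiff_subset)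
    linarith
  -- flexible products
  obtain ⟨Y, y1, y2, y3⟩ := exists_dense hy (σ := ρ ^ 6) (by positivity) (XP' ∪ (A ∪ rp A r))
    (fun a ha => by
      have := (Nat.cast_le (α := ℝ)).2 (cc_union_le a XP' (A ∪ rp A r))
      push_cast at this; linarith [s4 a ha, r4 a])
  have x2' : 1 ∈ XP' := hXP' ▸ mem_union_left _ x2
  have x1' : 1 ∈ XL' := hXL' ▸ mem_union_left _ x1
  have y4 : 1 ∉ Y := fun h => disjoint_left.1 y1 h (mem_union_left _ x2')
  have y5 : (Y.card : ℝ) ≤ ρ ^ 6 * n := card_le_of_cc y2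
  have y6 : ∀ a, a ≠ 1 → ρ ^ 6 / 2 * n ≤ cc a Y := fun a ha => by linarith [y3 a ha]
  have y7 : ρ ^ 6 / 4 * n ≤ Y.card := by
    have h1 := card_heavy (univ : Finset G) (x := 0)
    have h2 : ((Fintype.card G * Y.card : ℕ) : ℝ) = ∑ a, (cc a Y : ℝ) := by
      rw [← sum_cc]; push_cast; rfl
    have h3 : ((univ.erase (1 : G)).card : ℝ) * (ρ ^ 6 / 2 * n) ≤ ∑ a, (cc a Y : ℝ) := by
      rw [← nsmul_eq_mul, ← sum_const]
      exact (sum_le_sum fun a ha => y6 a (mem_erase.1 ha).1).trans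
        (sum_le_sum_of_subset_of_nonneg (subset_univ _) fun _ _ _ => by positivity)
    have h4 : n / 2 ≤ (univ.erase (1 : G)).card := by
      rw [card_erase_of_mem (mem_univ _), card_univ, Nat.cast_sub (by omega)]
      have : (1000 : ℝ) ≤ n := by rw [hn']; exact_mod_cast hbig
      push_cast; linarith
    push_cast at h2
    refine le_of_mul_le_mul_left (a := n) ?_ hn
    nlinarith [mul_pos (pow_pos hρ0 6) hn]
  -- bad labels become flexible
  have l1 := bad_labels (ε := ρ ^ 17 / 128) (ζ := ρ ^ 4 / 4) (σ := ρ ^ 6 / 2) (τ := ρ ^ 6 / 4)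
    (by positivity) (hy.mix.mono (by
      have := hp 68 72; norm_num at this; nlinarith [pow_pos hρ0 68])) (by positivity)
    (by positivity) (by positivity) Z1 Y z5 (fun a ha => y6 a fun e => y4 (e ▸ ha)) y7
  set B := univ.filter fun u => ((Z1.filter fun f => u * f ∈ Y ∧ f * u ∈ Y).card : ℝ) <
      ρ ^ 4 / 4 * (ρ ^ 6 / 2) * (ρ ^ 6 / 4) / 2 * Fintype.card G with hB
  have l2 : (B.card : ℝ) ≤ ρ * n := by
    refine le_of_mul_le_mul_left (a := ρ ^ 16 / 64) ?_ (by positivity)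
    nlinarith
  obtain ⟨B', hB'⟩ : ∃ B', B' = B \ (Z1 ∪ rl A r ∪ XL') := ⟨_, rfl⟩
  have l3 : (B'.card : ℝ) ≤ ρ * n := le_trans (Nat.cast_le.2 (card_le_card (hB' ▸ sdiff_subset))) l2
  have l4 : Disjoint Z1 (rl A r) := sdiff_disjoint.mono_right subset_union_left
  have l5 : Disjoint (Z1 ∪ rl A r) B' := hB' ▸ disjoint_sdiff.mono_left subset_union_left
  obtain ⟨Z0, hZ0⟩ : ∃ Z0, Z0 = Z1 ∪ rl A r ∪ B' := ⟨_, rfl⟩
  have l6 : Z0.card = Z1.card + (rl A r).card + B'.card := by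
    rw [hZ0, card_union_of_disjoint l5, card_union_of_disjoint l4]
  have l7 : Disjoint XL' Z0 := by
    rw [hZ0]
    exact disjoint_union_right.2 ⟨disjoint_union_right.2
      ⟨(sdiff_disjoint.mono_right subset_union_right).symm, s7⟩,
      hB' ▸ disjoint_sdiff.mono_left subset_union_right⟩
  have l8 : Y.card ≤ Z1.card := Nat.cast_le (α := ℝ).1 (by linarith)
  have l9 : (Z0.card : ℝ) ≤ 5 * (ρ * n) := by rw [l6]; push_cast; linarith
  have l10 : 1 ≤ Z1.card := card_pos.1 (Nat.cast_pos (α := ℝ).1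
    (lt_of_lt_of_le (by positivity) z5)) |>.card_pos
  have r6 : ((A ∪ rp A r).card : ℝ) ≤ 2 * (ρ * n) := card_le_of_cc r4
  -- the absorber
  obtain ⟨S, e1, e2, e3⟩ := absorber hy hδ4 hδ5 hW (b := Fintype.card G / 20) (by omega) Z0
    (by omega) (fun h => disjoint_left.1 l7 x1' h) (Z1.card + B'.card - Y.card) (by omega)
    ((XL' ∪ Z0).disjSum (XP' ∪ (A ∪ rp A r) ∪ Y)) (by
      rw [Nat.le_div_iff_mul_le (by norm_num), card_disjSum]
      have h1 := (Nat.cast_le (α := ℝ)).2 (card_union_le XL' Z0)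
      have h2 := (Nat.cast_le (α := ℝ)).2 ((card_union_le (XP' ∪ (A ∪ rp A r)) Y).trans
        (Nat.add_le_add_right (card_union_le _ _) _))
      have h3 : (KA W : ℝ) * Z0.card ≤ KA W * (5 * (ρ * n)) := by gcongr
      have h4 := mul_le_mul_of_nonneg_right hρK hn.le
      rw [← s6] at h2
      refine Nat.cast_le (α := ℝ).1 ?_
      push_cast at h1 h2 ⊢
      nlinarith)
  have e4 : Disjoint (XL' ∪ Z0) S.toLeft := disjoint_left.2 fun x hx h =>
    disjoint_left.1 e2 (mem_toLeft.1 h) (inl_mem_disjSum.2 hx)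
  have e5 : Disjoint (XP' ∪ (A ∪ rp A r) ∪ Y) S.toRight := disjoint_left.2 fun x hx h =>
    disjoint_left.1 e2 (mem_toRight.1 h) (inr_mem_disjSum.2 hx)
  have e6 : ∀ Z' ⊆ Z0, Z'.card = Z1.card + B'.card - Y.card → PM (S.toLeft ∪ Z') S.toRight := by
    intro Z' h1 h2
    have h3 := e3 _ ⟨Z', h1, h2, rfl⟩
    rw [← ch_union (disjoint_left.2 fun v hv h => by
      obtain ⟨x, hx, rfl⟩ := mem_image.1 h
      exact disjoint_left.1 e4 (mem_union_right _ (h1 hx)) (mem_toLeft.2 hv))] at h3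
    refine (PM.of_ch h3).of_eq ?_ ?_ <;> ext x <;> simp
  obtain ⟨Z'', e7, e8⟩ := exists_subset_card_eq (s := Z0) (n := Z1.card + B'.card - Y.card)
    (by omega)
  have m3 := e6 Z'' e7 e8
  have e9 : S.toRight.card = S.toLeft.card + (Z1.card + B'.card - Y.card) := by
    rw [← m3.card, card_union_of_disjoint (e4.mono_left (e7.trans subset_union_right)).symm, e8]
  obtain ⟨L, hL⟩ : ∃ L, L = univ \ (XL' ∪ Z0 ∪ S.toLeft) := ⟨_, rfl⟩
  obtain ⟨P, hP⟩ : ∃ P, P = univ \ (XP' ∪ (A ∪ rp A r) ∪ Y ∪ S.toRight) := ⟨_, rfl⟩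
  have f1 : L.card + (XL'.card + Z0.card + S.toLeft.card) = Fintype.card G := by
    rw [hL, ← card_union_of_disjoint l7, ← card_union_of_disjoint e4,
      card_sdiff_add_card_eq_card (subset_univ _), card_univ]
  have f2 : P.card + (XP'.card + (A ∪ rp A r).card + Y.card + S.toRight.card) = Fintype.card G := by
    rw [hP, ← card_union_of_disjoint s8, ← card_union_of_disjoint y1.symm,
      ← card_union_of_disjoint e5, card_sdiff_add_card_eq_card (subset_univ _), card_univ]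
  have f3 := m1.card
  have f4 : L.card = P.card := by omega
  have f5 : Fintype.card G ≤ 2 * L.card := by
    have h1 : (S.toLeft.card : ℝ) ≤ KA W * (5 * (ρ * n)) := by
      have h2 := (Nat.cast_le (α := ℝ)).2 ((card_toLeft_le (u := S)).trans e1)
      push_cast at h2
      exact h2.trans (by gcongr)
    have h2 := congrArg (Nat.cast : ℕ → ℝ) f1
    have h4 := mul_le_mul_of_nonneg_right hρK hn.le
    refine Nat.cast_le (α := ℝ).1 ?_
    push_cast at h2 ⊢
    nlinarith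
  have g1 : ∀ x, x ∈ L ↔ x ∉ XL' ∧ x ∉ Z0 ∧ x ∉ S.toLeft := fun x => by
    simp only [hL, mem_sdiff, mem_univ, true_and, mem_union, not_or, and_assoc]
  have g2 : ∀ x, x ∈ P ↔ x ∉ XP' ∧ x ∉ A ∪ rp A r ∧ x ∉ Y ∧ x ∉ S.toRight := fun x => by
    simp only [hP, mem_sdiff, mem_univ, true_and, mem_union (s := _ ∪ _), mem_union (s := XP'),
      not_or, and_assoc]
  have g3 : Disjoint L Z0 := disjoint_left.2 fun x hx => ((g1 x).1 hx).2.1
  have g4 : Disjoint (P ∪ Y) (XP' ∪ (A ∪ rp A r)) := disjoint_union_left.2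
    ⟨disjoint_left.2 fun x hx h => (mem_union.1 h).elim ((g2 x).1 hx).1 ((g2 x).1 hx).2.1, y1⟩
  have g5 : Disjoint (P ∪ Y) S.toRight := disjoint_union_left.2
    ⟨disjoint_left.2 fun x hx => ((g2 x).1 hx).2.2.2, e5.mono_left subset_union_right⟩
  have g6 : Disjoint (P ∪ Y ∪ (A ∪ rp A r)) S.toRight := disjoint_union_left.2
    ⟨g5, e5.mono_left (subset_union_right.trans subset_union_left)⟩
  have g7 : Disjoint (P ∪ Y ∪ (A ∪ rp A r) ∪ S.toRight) XP' := disjoint_union_left.2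
    ⟨disjoint_union_left.2 ⟨g4.mono_right subset_union_left, s8.symm⟩,
      (e5.mono_left (subset_union_left.trans subset_union_left)).symm⟩
  have g8 : A' ∪ rp A' r' ⊆ XP' := hXP' ▸ subset_union_right
  have g9 : P ∪ Y ∪ (A ∪ rp A r) ∪ S.toRight ∪ (A' ∪ rp A' r') = univ \ XP := by
    refine Subset.antisymm (fun x hx => mem_sdiff.2 ⟨mem_univ _, fun h => ?_⟩) fun x hx => ?_
    · rcases mem_union.1 hx with h1 | h1
      · exact disjoint_left.1 g7 h1 (hXP' ▸ mem_union_left _ h)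
      · exact disjoint_left.1 s5 h h1
    · have h1 := (mem_sdiff.1 hx).2
      have h2 := g2 x
      rw [hXP', mem_union (s := XP)] at h2
      simp only [mem_union (s := _ ∪ _), mem_union (s := P)]
      tauto
  obtain ⟨ZZ, k1, k2⟩ := stage (γ := ρ ^ 17) (ε := (ρ ^ 22) ^ 2 / 4) (ξ := 3 * ρ ^ 22) (σ := ρ ^ 6)
    (κ1 := ρ ^ 4 / 4 * (ρ ^ 6 / 2) * (ρ ^ 6 / 4) / 2) hy (by positivity)
    (by have := hp 0 44; norm_num at this; nlinarith) hr z3 z4 XL' L P Y
    (fun h => ((g1 _).1 h).1 x1') (fun h => disjoint_left.1 g4 h (mem_union_left _ x2')) f4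
    (by linarith) (Hn G (hy.mono hδ1) L P (fun h => ((g2 _).1 h).1 x2') f4 f5)
    (g3.mono_right (hZ0 ▸ subset_union_left.trans subset_union_left))
    (g3.mono_right (hZ0 ▸ subset_union_right.trans subset_union_left))
    (disjoint_left.2 fun x hx => ((g2 x).1 hx).2.2.1) (g4.mono_right subset_union_right)
    (fun a ha => b3 a (fun h => disjoint_left.1 g4 ha (mem_union_left _ (g8 (mem_union_left _ h))))
      fun h => disjoint_left.1 g4 ha
        (union_subset_union (hXP' ▸ subset_union_left) Subset.rfl h))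
    (fun u hu => by
      by_contra h
      have h1 := (g1 u).1 hu
      refine h1.2.1 ?_
      rw [hZ0, hB']
      have h2 : u ∈ B := mem_filter.2 ⟨mem_univ _, not_le.1 h⟩
      simp only [mem_union (s := _ ∪ _), mem_sdiff (s := B)]
      tauto)
    (fun a => even_of_union (g4.mono_right subset_union_right) a (even_of_union g6 a
      (even_of_union (g7.mono_right g8) a (g9 ▸ x6 a) (m2.even a)) (m3.even a)) (m1.even a))
    y2 (by
      have h1 := hp 21 1; have h2 := hp 21 40; norm_num at h1 h2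
      nlinarith [pow_pos hρ0 21])
    (by
      have h1 := hp 16 1; have h2 := hp 16 124; norm_num at h1 h2
      nlinarith [pow_pos hρ0 16])
    (by
      have h1 := hp 5 1; have h2 := hp 5 12; have h3 := hp 5 17; norm_num at h1 h2 h3
      nlinarith [pow_pos hρ0 5])
  have k3 : ZZ ⊆ Z0 := hZ0 ▸ k1.trans subset_union_left
  have k4 := k2.card
  rw [card_union_of_disjoint (g3.mono_right k3), card_union_of_disjoint
    (g4.mono_right subset_union_right), card_union_of_disjoint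
    (disjoint_left.2 fun x hx => ((g2 x).1 hx).2.2.1)] at k4
  have m4 := e6 (Z0 \ ZZ) sdiff_subset (by rw [card_sdiff_of_subset k3]; omega)
  have k5 : rl A' r' ⊆ XL' := hXL' ▸ subset_union_right
  refine ((k2.union m4 ?_ g6).union m2 ?_ (g7.mono_right g8)).of_eq ?_ g9
  · exact disjoint_union_left.2 ⟨disjoint_union_right.2
      ⟨disjoint_left.2 fun x hx => ((g1 x).1 hx).2.2, g3.mono_right sdiff_subset⟩,
      disjoint_union_right.2 ⟨e4.mono_left (k3.trans subset_union_right), disjoint_sdiff⟩⟩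
  · refine Disjoint.mono_right k5 (disjoint_union_left.2 ⟨disjoint_union_left.2
      ⟨disjoint_left.2 fun x hx => ((g1 x).1 hx).1, (l7.mono_right k3).symm⟩,
      disjoint_union_left.2 ⟨(e4.mono_left subset_union_left).symm,
        (l7.mono_right sdiff_subset).symm⟩⟩)
  · ext x
    have h1 := g1 x
    have h2 : x ∈ ZZ → x ∈ Z0 := fun h => k3 h
    have h3 : x ∈ XL → x ∉ Z0 := fun h => disjoint_left.1 l7 (hXL' ▸ mem_union_left _ h)
    have h4 : x ∈ XL → x ∉ S.toLeft :=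
      fun h => disjoint_left.1 e4 (mem_union_left _ (hXL' ▸ mem_union_left _ h))
    have h5 : x ∈ XL → x ∉ rl A' r' := fun h h' => disjoint_left.1 s1 h' (mem_union_left _ h)
    rw [hXL', mem_union] at h1
    simp only [mem_union (s := _ ∪ _), mem_union (s := L), mem_union (s := S.toLeft), mem_sdiff,
      mem_univ, true_and]
    tauto

end Pool.Agent.Lib.MP_2c654c_co.Abs
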