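import Mathlib
import Pool.Agent.Lib.MP_2c654c_co.Lift
import Pool.Agent.Lib.MP_2c654c_co.Abs.Main

set_option autoImplicit false

namespace Pool.Agent.Lib.MP_2c654c_co.Abs

open Finset

variable {G : Type} [Group G] [Fintype G] [DecidableEq G]

/-- a partial transition system on labels `T` with products in `E` -/
def Part (T E : Finset G) (θ : G → G → G) : Prop :=
  ∀ x, (∀ e ∈ T, θ x e ∈ T ∧ θ (x * e) (θ x e) = e ∧ e * θ x e ∈ E) ∧
    Set.InjOn (fun e => e * θ x e) T

omit [Fintype G] in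
theorem Part.union {T E T' E' : Finset G} {θ θ' : G → G → G} (h : Part T E θ) (h' : Part T' E' θ')
    (hT : Disjoint T T') (hE : Disjoint E E') :
    Part (T ∪ T') (E ∪ E') fun x e => if e ∈ T then θ x e else θ' x e := by
  intro x
  have k : ∀ e, e ∈ T ∪ T' → e ∉ T → e ∈ T' := fun e h1 h2 => (mem_union.1 h1).resolve_left h2
  refine ⟨fun e he => ?_, fun e he f hf hef => ?_⟩
  · by_cases h1 : e ∈ T
    · obtain ⟨a1, a2, a3⟩ := (h x).1 e h1
      simp only [h1, a1, a2, if_true, mem_union, true_or, a3, and_self]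
    · obtain ⟨a1, a2, a3⟩ := (h' x).1 e (k e he h1)
      have a4 : θ' x e ∉ T := fun a => disjoint_left.1 hT a a1
      simp only [h1, a4, a1, a2, if_false, mem_union, or_true, a3, and_self]
  · by_cases h1 : e ∈ T <;> by_cases h2 : f ∈ T <;> simp only [h1, h2, if_true, if_false] at hef
    · exact (h x).2 h1 h2 hef
    · exact absurd (((h' x).1 f (k f hf h2)).2.2) (hef ▸ disjoint_left.1 hE ((h x).1 e h1).2.2)
    · exact absurd (((h' x).1 e (k e he h1)).2.2) (hef ▸ disjoint_left.1 hE ((h x).1 f h2).2.2)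
    · exact (h' x).2 (k e he h1) (k f hf h2) hef

theorem sys_of_pm {T E : Finset G} {θ : G → G → G} (h : Part T E θ)
    (h' : PM (univ \ T) (univ \ E)) : Sys G := by
  obtain ⟨σ, h1, h2⟩ := h'.extract
  have h3 : Part (univ \ T) (univ \ E) fun _ e => σ e := fun _ => ⟨h1, h2⟩
  have h4 := h.union h3 disjoint_sdiff disjoint_sdiff
  rw [union_sdiff_self_eq_union, union_eq_right.2 (subset_univ _)] at h4
  refine ⟨fun x e => if e ∈ T then θ x e else σ e, fun x e => ((h4 x).1 e (mem_univ _)).2.1,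
    fun x e f hef => ?_⟩
  exact (h4 x).2 (mem_coe.2 (mem_univ _)) (mem_coe.2 (mem_univ _)) hef

omit [DecidableEq G] in
theorem exists_chi {a b t : G} (ha : a * a = 1) (hb : b * b = 1) (ht : t * t = 1)
    (hab : a * b = b * a) (hat : a * t = t * a) (hbt : b * t = t * b)
    (htK : t ∉ ({1, a, b, a * b} : Set G)) :
    ∃ χ : G → Prop, ∀ x, ∀ k ∈ ({1, a, b, a * b} : Set G), (χ (x * (t * k)) ↔ ¬ χ x) := by
  have e1 : ∀ x, a * (a * x) = x := fun x => by rw [← mul_assoc, ha, one_mul]
  have e2 : ∀ x, b * (a * x) = a * (b * x) := fun x => by rw [← mul_assoc, ← hab, mul_assoc]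
  let K : Subgroup G :=
    { carrier := {1, a, b, a * b}
      one_mem' := by simp
      mul_mem' := by
        rintro x y (rfl | rfl | rfl | rfl) (rfl | rfl | rfl | rfl) <;>
          simp [mul_assoc, ha, hb, e1, e2, ← hab]
      inv_mem' := by
        have i1 : a⁻¹ = a := inv_eq_of_mul_eq_one_right ha
        have i2 : b⁻¹ = b := inv_eq_of_mul_eq_one_right hb
        rintro x (rfl | rfl | rfl | rfl) <;> simp [i1, i2, ← hab] }
  let N : G ⧸ K → ℕ := fun q => (Finite.equivFin (G ⧸ K) q : ℕ)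
  have hN : Function.Injective N := fun p q h => (Finite.equivFin (G ⧸ K)).injective (Fin.ext h)
  refine ⟨fun x => N x < N (x * t : G), fun x k hk => ?_⟩
  have hk' : k ∈ K := hk
  have c : k * t = t * k := by
    rcases hk with rfl | rfl | rfl | rfl
    · simp
    · exact hat
    · exact hbt
    · rw [mul_assoc, hbt, ← mul_assoc, hat, mul_assoc]
  have q1 : ((x * (t * k) : G) : G ⧸ K) = (x * t : G) := by
    rw [eq_comm, QuotientGroup.eq]; simpa [mul_assoc] using hk'
  have q2 : ((x * (t * k) * t : G) : G ⧸ K) = (x : G) := by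
    rw [eq_comm, QuotientGroup.eq, mul_assoc, inv_mul_cancel_left, mul_assoc, c, ← mul_assoc, ht,
      one_mul]
    exact hk'
  have q3 : N x ≠ N (x * t : G) := fun h => htK (by
    have := QuotientGroup.eq.1 (hN h)
    rwa [inv_mul_cancel_left] at this)
  simp only [q1, q2]
  omega

theorem gadget {a b t : G} (ha : a * a = 1) (hb : b * b = 1) (ht : t * t = 1)
    (hab : a * b = b * a) (hat : a * t = t * a) (hbt : b * t = t * b) (a1 : a ≠ 1) (b1 : b ≠ 1)
    (ab : a ≠ b) (htK : t ∉ ({1, a, b, a * b} : Set G)) :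
    ∃ θ, Part {t * a, t * b, t * (a * b)} {a, b, a * b} θ := by
  classical
  obtain ⟨χ, hχ⟩ := exists_chi ha hb ht hab hat hbt htK
  have e1 : ∀ x, a * (a * x) = x := fun x => by rw [← mul_assoc, ha, one_mul]
  have e2 : ∀ x, b * (a * x) = a * (b * x) := fun x => by rw [← mul_assoc, ← hab, mul_assoc]
  have e3 : ∀ x, a * (t * x) = t * (a * x) := fun x => by rw [← mul_assoc, hat, mul_assoc]
  have e4 : ∀ x, b * (t * x) = t * (b * x) := fun x => by rw [← mul_assoc, hbt, mul_assoc]
  have e5 : ∀ x, t * (t * x) = x := fun x => by rw [← mul_assoc, ht, one_mul]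
  have d1 : ∀ x, χ (x * (t * a)) ↔ ¬ χ x := fun x => hχ x _ (by simp)
  have d2 : ∀ x, χ (x * (t * b)) ↔ ¬ χ x := fun x => hχ x _ (by simp)
  have d3 : ∀ x, χ (x * (t * (a * b))) ↔ ¬ χ x := fun x => hχ x _ (by simp)
  let s : G → G := fun e => if e = t * a then t * b else if e = t * b then t * (a * b) else t * a
  let s' : G → G := fun e => if e = t * a then t * (a * b) else if e = t * b then t * a else t * b
  have s1 : s (t * a) = t * b := by simp [s]
  have s2 : s (t * b) = t * (a * b) := by simp [s, ab.symm]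
  have s3 : s (t * (a * b)) = t * a := by simp [s, a1, b1]
  have s4 : s' (t * a) = t * (a * b) := by simp [s']
  have s5 : s' (t * b) = t * a := by simp [s', ab.symm]
  have s6 : s' (t * (a * b)) = t * b := by simp [s', a1, b1]
  have p1 : t * a * (t * b) = a * b := by simp [mul_assoc, e3, e5]
  have p2 : t * b * (t * (a * b)) = a := by simp [mul_assoc, e4, e5, e2, hb]
  have p3 : t * (a * b) * (t * a) = b := by simp [mul_assoc, e3, e4, e5, ← hab, e1]
  have p4 : t * a * (t * (a * b)) = b := by simp [mul_assoc, e3, e5, e1]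
  have p5 : t * b * (t * a) = a * b := by simp [mul_assoc, e4, e5, hab]
  have p6 : t * (a * b) * (t * b) = a := by simp [mul_assoc, e4, e5, hb, hat]
  refine ⟨fun x e => if χ x then s e else s' e, fun x => ⟨fun e he => ?_, fun e he f hf hef => ?_⟩⟩
  · simp only [mem_insert, mem_singleton] at he
    by_cases hx : χ x <;> rcases he with rfl | rfl | rfl <;>
      simp only [hx, d1, d2, d3, s1, s2, s3, s4, s5, s6, p1, p2, p3, p4, p5, p6, if_true, if_false,
        not_true, not_false_iff, mem_insert, mem_singleton, true_or, or_true, and_self]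
  · simp only [coe_insert, coe_singleton, Set.mem_insert_iff, Set.mem_singleton_iff] at he hf
    by_cases hx : χ x <;> rcases he with rfl | rfl | rfl <;> rcases hf with rfl | rfl | rfl <;>
      simp only [hx, s1, s2, s3, s4, s5, s6, p1, p2, p3, p4, p5, p6, if_true, if_false] at hef <;>
      first | rfl | (exfalso; simp [a1, b1, ab, ab.symm] at hef)

theorem card_classes : (univ.image (cl (G := G))).card * Fintype.card G = ∑ g : G, zc g := by
  rw [← sum_fiberwise_of_maps_to (s := univ) (t := univ.image (cl (G := G))) (g := cl)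
    (fun g hg => mem_image_of_mem _ hg), ← smul_eq_mul, ← sum_const]
  refine sum_congr rfl fun C hC => ?_
  obtain ⟨a, -, rfl⟩ := mem_image.1 hC
  have h1 : (univ.filter fun g => cl g = cl a) = cl a := by
    ext g
    simp only [mem_filter, mem_univ, true_and]
    exact ⟨fun h => h ▸ self_mem_cl g, cl_eq⟩
  rw [h1, sum_congr rfl fun g hg => zc_cl hg, sum_const, smul_eq_mul, mul_comm, zc_mul]

theorem sys_of_part (W : ℕ) : ∃ δ : ℝ, 0 < δ ∧ ∀ (G : Type) [Group G] [Fintype G] [DecidableEq G],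
    Hyp G δ → CW G W → ∀ (T E : Finset G) (θ : G → G → G), Part T E θ → T.card = E.card →
      T.card ≤ 3 → (∀ e ∈ T, e ≠ 1 ∧ e * e = 1) → 1 ∉ E →
      (∀ g, Odd (cl g \ insert 1 E).card → IsSquare g) → Sys G := by
  obtain ⟨δ, hδ, H⟩ := main W
  refine ⟨δ / 10, by positivity, fun G _ _ _ hy hW T E θ hP hTE hT3 hT hE hsq => ?_⟩
  have hn := npos (G := G)
  let 𝒞 := (univ.image (cl (G := G))).filter fun C => Odd (C \ insert 1 E).card
  have hr : ∀ C : Finset G, ∃ r : G, C ∈ 𝒞 → r * r ∈ C \ insert 1 E := by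
    intro C
    by_cases hC : C ∈ 𝒞
    · obtain ⟨h1, h2⟩ := mem_filter.1 hC
      obtain ⟨a, -, rfl⟩ := mem_image.1 h1
      obtain ⟨g, hg⟩ := card_pos.1 h2.pos
      obtain ⟨r, hr⟩ := hsq g (by rwa [cl_eq (mem_sdiff.1 hg).1])
      exact ⟨r, fun _ => hr ▸ hg⟩
    · exact ⟨1, fun h => absurd h hC⟩
  choose r hr using hr
  have hcl : ∀ C ∈ 𝒞, cl (r C * r C) = C := by
    intro C hC
    have h0 := (mem_sdiff.1 (hr C hC)).1
    obtain ⟨a, -, ha⟩ := mem_image.1 (mem_filter.1 hC).1
    rw [← ha] at h0 ⊢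
    rw [ha] at h0
    exact cl_eq (ha ▸ h0)
  have hne : ∀ C ∈ 𝒞, r C * r C ∉ insert 1 E := fun C hC => (mem_sdiff.1 (hr C hC)).2
  let R := insert 1 (𝒞.image r)
  let S := R.image fun e => e * e
  have hinj : Set.InjOn (fun e : G => e * e) R := by
    intro e he f hf hef
    simp only [R, coe_insert, coe_image, Set.mem_insert_iff, Set.mem_image, mem_coe] at he hf hef
    rcases he with rfl | ⟨C, hC, rfl⟩ <;> rcases hf with rfl | ⟨D, hD, rfl⟩
    · rfl
    · exact absurd (by rw [← hef]; simp) (hne D hD)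
    · exact absurd (by rw [hef]; simp) (hne C hC)
    · rw [← hcl C hC, hef, hcl D hD]
  have hS : ∀ y, y ∈ S ↔ y = 1 ∨ ∃ C ∈ 𝒞, r C * r C = y := by
    intro y; simp [S, R, eq_comm]
  have p0 : Part R S fun _ e => e := fun _ =>
    ⟨fun e he => ⟨he, rfl, mem_image_of_mem _ he⟩, hinj⟩
  have d1 : Disjoint R T := by
    rw [disjoint_left]
    intro e he hT'
    rcases mem_insert.1 he with rfl | he
    · exact (hT _ hT').1 rfl
    · obtain ⟨C, hC, rfl⟩ := mem_image.1 he
      exact hne C hC (by rw [(hT _ hT').2]; simp)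
  have d2 : Disjoint S E := by
    rw [disjoint_left]
    intro y hy hE'
    rcases (hS y).1 hy with rfl | ⟨C, hC, rfl⟩
    · exact hE hE'
    · exact hne C hC (mem_insert_of_mem hE')
  have h1 := hy.one_le
  refine sys_of_pm (p0.union hP d1 d2) (H G (hy.mono (by linarith)) hW _ _
    (mem_union_left _ (mem_insert_self _ _)) (mem_union_left _ ((hS 1).2 (Or.inl rfl))) ?_ ?_ ?_ ?_)
  · rw [card_union_of_disjoint d1, card_union_of_disjoint d2, hTE, card_image_of_injOn hinj]
  · have h2 : (R ∪ T).card ≤ (univ.image (cl (G := G))).card + 4 := by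
      have a1 := card_union_le R T
      have a2 := card_insert_le (1 : G) (𝒞.image r)
      have a3 : (𝒞.image r).card ≤ 𝒞.card := card_image_le
      have a4 : 𝒞.card ≤ (univ.image (cl (G := G))).card := card_filter_le _ _
      have a5 : R.card ≤ (𝒞.image r).card + 1 := a2
      omega
    have h3 := (Nat.cast_le (α := ℝ)).2 h2
    have h4 := congrArg (Nat.cast : ℕ → ℝ) (card_classes (G := G))
    push_cast at h3 h4
    have h5 := sum_zc_le hy
    have h6 : ((univ.image (cl (G := G))).card : ℝ) ≤ 2 * (δ / 10 * Fintype.card G) := by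
      refine le_of_mul_le_mul_right ?_ hn
      nlinarith
    linarith
  · intro a ha
    have h2 : ((S ∪ E) ∩ cl a).card ≤ 5 := by
      refine le_trans (card_le_card (t := insert 1 (insert (r (cl a) * r (cl a)) E)) ?_) ?_
      · intro y hy
        obtain ⟨y1, y2⟩ := mem_inter.1 hy
        rcases mem_union.1 y1 with y1 | y1
        · rcases (hS y).1 y1 with rfl | ⟨C, hC, rfl⟩
          · simp
          · rw [← cl_eq y2, hcl C hC]; simp
        · simp [y1]
      · have a1 := card_insert_le (1 : G) (insert (r (cl a) * r (cl a)) E)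
        have a2 := card_insert_le (r (cl a) * r (cl a)) E
        omega
    have h3 : cc a (S ∪ E) ≤ zc a * 5 := by rw [cc_eq]; exact Nat.mul_le_mul_left _ h2
    have h4 := (Nat.cast_le (α := ℝ)).2 h3
    push_cast at h4
    linarith [hy.zle a ha]
  · intro a
    by_cases hC : cl a ∈ 𝒞
    · have h2 : (univ \ (S ∪ E)) ∩ cl a = (cl a \ insert 1 E).erase (r (cl a) * r (cl a)) := by
        ext y
        simp only [mem_inter, mem_sdiff, mem_univ, true_and, mem_union, hS, mem_erase, mem_insert]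
        constructor
        · rintro ⟨y1, y2⟩
          exact ⟨fun h => y1 (Or.inl (Or.inr ⟨_, hC, h.symm⟩)), y2,
            fun h => y1 (h.imp Or.inl id)⟩
        · rintro ⟨y1, y2, y3⟩
          refine ⟨?_, y2⟩
          rintro ((h | ⟨C, hC', rfl⟩) | h)
          · exact y3 (Or.inl h)
          · exact y1 (by rw [← cl_eq y2, hcl C hC'])
          · exact y3 (Or.inr h)
      rw [h2, card_erase_of_mem (hr _ hC)]
      exact Nat.Odd.sub_odd (mem_filter.1 hC).2 odd_one
    · have h2 : (univ \ (S ∪ E)) ∩ cl a = cl a \ insert 1 E := by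
        ext y
        simp only [mem_inter, mem_sdiff, mem_univ, true_and, mem_union, hS, mem_insert]
        constructor
        · rintro ⟨y1, y2⟩
          exact ⟨y2, fun h => y1 (h.imp Or.inl id)⟩
        · rintro ⟨y2, y3⟩
          refine ⟨?_, y2⟩
          rintro ((h | ⟨C, hC', rfl⟩) | h)
          · exact y3 (Or.inl h)
          · exact hC (by rw [← cl_eq y2, hcl C hC']; exact hC')
          · exact y3 (Or.inr h)
      rw [h2, ← Nat.not_odd_iff_even]
      exact fun h => hC (mem_filter.2 ⟨mem_image_of_mem _ (mem_univ _), h⟩)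

/-- the parity condition -/
def Par (G : Type) [Group G] : Prop :=
  ∃ K : Set G, (K = {1} ∨ ∃ a b t : G, a * a = 1 ∧ b * b = 1 ∧ t * t = 1 ∧ a * b = b * a ∧
    a * t = t * a ∧ b * t = t * b ∧ a ≠ 1 ∧ b ≠ 1 ∧ a ≠ b ∧ K = {1, a, b, a * b} ∧ t ∉ K) ∧
    ∀ g : G, Odd ({x | IsConj g x} \ K).ncard → IsSquare g

theorem coe_cl (g : G) : (cl g : Set G) = {x | IsConj g x} := by
  ext x
  simp only [mem_coe, mem_cl, Set.mem_ofPred_eq, isConj_iff]
  exact ⟨fun ⟨e, h⟩ => ⟨e⁻¹, by simpa using h⟩, fun ⟨e, h⟩ => ⟨e⁻¹, by simpa using h⟩⟩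

theorem zc_eq (g : G) : zc g = Nat.card (Subgroup.centralizer ({g} : Set G)) := by
  rw [zc, ← Fintype.card_coe, ← Nat.card_eq_fintype_card]
  refine Nat.card_congr (Equiv.subtypeEquivRight fun e => ?_)
  simp only [mem_filter, mem_univ, true_and, Subgroup.mem_centralizer_singleton_iff, mul_assoc,
    inv_mul_eq_iff_eq_mul]
  exact eq_comm

theorem criterion (W : ℕ) : ∃ D : ℕ, ∀ (G : Type) [Group G] [Finite G], QR G D →
    Subgroup.center G = ⊥ → CW G W → (∀ g : G, 8 ≤ Nat.card (Subgroup.centralizer ({g} : Set G))) →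
    Par G → HasRoot G := by
  classical
  obtain ⟨δ, hδ, H⟩ := sys_of_part W
  obtain ⟨D, hD⟩ := exists_nat_gt (2 / δ)
  have hD0 : (0 : ℝ) < D := lt_trans (by positivity) hD
  refine ⟨D, fun G _ _ hQ hZ hW h8 hP => root_of_sys ?_⟩
  have := Fintype.ofFinite G
  have hn := npos (G := G)
  have hm := mix_of_qr (by exact_mod_cast hD0) hQ
  have h2 : 2 * (1 / D : ℝ) ≤ δ := by
    rw [div_lt_iff₀ hδ] at hD
    rw [mul_one_div, div_le_iff₀ hD0]; linarith
  have hz : ∀ a : G, a ≠ 1 → (zc a : ℝ) ≤ δ * Fintype.card G := by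
    intro a ha
    have h3 : ∃ x, x⁻¹ * a * x ≠ a := by
      by_contra h3
      push Not at h3
      refine ha (Subgroup.mem_bot.1 (hZ ▸ Subgroup.mem_center_iff.2 fun x => ?_))
      calc x * a = x * (x⁻¹ * a * x) := by rw [h3]
        _ = a * x := by group
    obtain ⟨x, hx⟩ := h3
    exact (zc_le_of_mix hm hx).trans (mul_le_mul_of_nonneg_right h2 hn.le)
  have hy : Hyp G δ := by
    refine ⟨hm.mono (le_trans ?_ h2), hz, ?_, fun a => zc_eq a ▸ h8 a⟩
    · have : (0 : ℝ) < 1 / D := by positivity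
      linarith
    · have h3 : 1 < Fintype.card G := by
        have h4 : zc (1 : G) ≤ Fintype.card G := card_le_univ _
        have h5 := h8 1
        rw [← zc_eq] at h5; omega
      obtain ⟨a, ha⟩ := Fintype.exists_ne_of_one_lt_card h3 (1 : G)
      refine le_trans ?_ (hz a ha)
      exact_mod_cast zc_pos a
  obtain ⟨K, hK, hs⟩ := hP
  have key : ∀ E : Finset G, K = ↑(insert 1 E) → ∀ g, Odd (cl g \ insert 1 E).card → IsSquare g := by
    intro E hE g hg
    refine hs g ?_
    rwa [hE, ← coe_cl, ← coe_sdiff, Set.ncard_coe_finset]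
  rcases hK with rfl | ⟨a, b, t, ha, hb, ht, hab, hat, hbt, a1, b1, ab, rfl, htK⟩
  · exact H G hy hW ∅ ∅ (fun _ e => e) (fun _ => ⟨by simp, by simp⟩) rfl (by simp) (by simp)
      (by simp) (key ∅ (by simp))
  · obtain ⟨θ, hθ⟩ := gadget ha hb ht hab hat hbt a1 b1 ab htK
    have ab1 : a * b ≠ 1 := fun h => ab (by rw [← mul_one a, ← hb, ← mul_assoc, h, one_mul])
    refine H G hy hW _ _ θ hθ ?_ card_le_three ?_ ?_ (key _ (by simp))
    · rw [card_eq_three.2 ⟨_, _, _, by simpa, by simpa, by simpa, rfl⟩,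
        card_eq_three.2 ⟨_, _, _, ab, by simpa, by simpa, rfl⟩]
    · have k : ∀ k : G, k * k = 1 → k * t = t * k → t ≠ k → t * k ≠ 1 ∧ t * k * (t * k) = 1 := by
        intro k h1 h2 h3
        refine ⟨fun h => h3 (by rw [← mul_one t, ← h1, ← mul_assoc, h, one_mul]), ?_⟩
        rw [mul_assoc, ← mul_assoc k, h2, mul_assoc, h1, mul_one, ht]
      simp only [Set.mem_insert_iff, Set.mem_singleton_iff, not_or] at htK
      simp only [mem_insert, mem_singleton, forall_eq_or_imp, forall_eq]
      refine ⟨k a ha hat htK.2.1, k b hb hbt htK.2.2.1, k _ ?_ ?_ htK.2.2.2⟩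
      · rw [mul_assoc, ← mul_assoc b, ← hab, mul_assoc, hb, mul_one, ha]
      · rw [mul_assoc, hbt, ← mul_assoc, hat, mul_assoc]
    · simp [a1.symm, b1.symm, ab1.symm]

end Pool.Agent.Lib.MP_2c654c_co.Abs
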