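import Mathlib
import Pool.Agent.Lib.MP_2c654c_co.Abs.Glue

set_option autoImplicit false

namespace Pool.Agent.Lib.MP_2c654c_co.Abs

open Finset

theorem sum_trace {U V : Type} [Group U] [Fintype U] [AddCommGroup V] [Module ℝ V]
    [FiniteDimensional ℝ V] (π : Representation ℝ U V) :
    ∑ u, LinearMap.trace ℝ V (π u) = Fintype.card U * Module.finrank ℝ π.invariants := by
  have h0 : (Fintype.card U : ℝ) ≠ 0 := by exact_mod_cast Fintype.card_ne_zero
  have : Invertible (Fintype.card U : ℝ) := invertibleOfNonzero h0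
  rw [← (Representation.isProj_averageMap π).trace]
  simp [GroupAlgebra.average, _root_.map_sum, h0]

/-- a subgroup whose nonidentity elements have a common trace forces a large degree -/
theorem triv_of_flat {U V : Type} [Group U] [Finite U] [AddCommGroup V] [Module ℝ V]
    [FiniteDimensional ℝ V] (π : Representation ℝ U V) (H : Subgroup U) (hH : H ≠ ⊤) (c : ℝ)
    (hc : ∀ u, u ≠ 1 → LinearMap.trace ℝ V (π u) = c)
    (hd : Module.finrank ℝ V * H.index < Nat.card U) (u : U) : π u = 1 := by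
  classical
  have := Fintype.ofFinite U
  have key : ∀ (A : Type) [Group A] [Fintype A] (f : A →* U), Function.Injective f →
      ∃ m : ℕ, (Module.finrank ℝ V : ℝ) - c + Fintype.card A * c = Fintype.card A * m ∧
        m = Module.finrank ℝ (Representation.invariants (π.comp f)) := by
    intro A _ _ f hf
    refine ⟨_, ?_, rfl⟩
    rw [← sum_trace (π.comp f)]
    have h1 : ∀ a : A, LinearMap.trace ℝ V ((π.comp f) a) =
        (if a = 1 then (Module.finrank ℝ V : ℝ) - c else 0) + c := by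
      intro a
      split_ifs with h
      · simp [h]
      · rw [zero_add]; exact hc _ fun h' => h (hf (by rw [h', map_one]))
    simp only [h1, sum_add_distrib]; simp
  obtain ⟨m, h1, h2⟩ := key U (MonoidHom.id U) Function.injective_id
  obtain ⟨m', h3, -⟩ := key H H.subtype H.subtype_injective
  have h4 : m ≤ Module.finrank ℝ V := h2 ▸ Submodule.finrank_le _
  have h5 := H.card_mul_index
  have h6 : 2 ≤ H.index := by
    have a1 := H.index_ne_zero_of_finite
    have a2 : H.index ≠ 1 := fun h => hH (Subgroup.index_eq_one.1 h)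
    omega
  rw [← Nat.card_eq_fintype_card] at h1 h3
  have h7 : 0 < Nat.card H := Nat.card_pos
  rw [← h5] at h1 hd
  obtain ⟨d, hd'⟩ : ∃ d, d = Module.finrank ℝ V := ⟨_, rfl⟩
  obtain ⟨h, hh⟩ : ∃ h, h = Nat.card H := ⟨_, rfl⟩
  obtain ⟨p, hp⟩ : ∃ p, p = H.index := ⟨_, rfl⟩
  rw [← hd', ← hh] at h1 h3
  rw [← hd', ← hh, ← hp] at hd
  rw [← hp] at h1 h6
  rw [← hh] at h7
  have h8 : m = d := by
    by_contra h8
    have h9 : (m : ℝ) + 1 ≤ d := by exact_mod_cast (by omega : m + 1 ≤ d)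
    have a1 : (2 : ℝ) ≤ p := by exact_mod_cast h6
    have a2 : (1 : ℝ) ≤ h := by exact_mod_cast h7
    have a3 : (d : ℝ) * p + 1 ≤ h * p := by exact_mod_cast hd
    push_cast at h1
    have a4 : (h * p - 1) * ((m' : ℝ) - m) = (d - m) * (p - 1) := by
      have e1 : (h * p) * ((m' : ℝ) - m) = (d - c) * (p - 1) := by linear_combination h1 - p * h3
      have e2 : (h * p) * ((d : ℝ) - m) = (h * p - 1) * (d - c) := by linear_combination h1
      have e3 : (h * p : ℝ) ≠ 0 := by positivity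
      apply mul_left_cancel₀ e3
      linear_combination (h * p - 1) * e1 - (p - 1) * e2
    have a5 : (0 : ℝ) ≤ m := by positivity
    have a6 : (0 : ℝ) < (m' : ℝ) - m := by
      have b1 : (0 : ℝ) < (d - m) * (p - 1) := mul_pos (by linarith) (by linarith)
      have b2 : (0 : ℝ) < h * p - 1 := by nlinarith
      rw [← a4] at b1
      exact (pos_iff_pos_of_mul_pos b1).1 b2
    have a7 : (m : ℝ) + 1 ≤ m' := by
      have : m < m' := by exact_mod_cast (sub_pos.1 a6)
      exact_mod_cast this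
    have b1 : (h * p - 1 : ℝ) * 1 ≤ (h * p - 1) * ((m' : ℝ) - m) :=
      mul_le_mul_of_nonneg_left (by linarith) (by nlinarith)
    have b2 : ((d : ℝ) - m) * (p - 1) ≤ d * (p - 1) :=
      mul_le_mul_of_nonneg_right (by linarith) (by linarith)
    nlinarith
  have h9 : Representation.invariants (π.comp (MonoidHom.id U)) = ⊤ :=
    Submodule.eq_top_of_finrank_eq (by rw [← h2, h8, hd'])
  ext v
  have : v ∈ Representation.invariants (π.comp (MonoidHom.id U)) := h9 ▸ Submodule.mem_top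
  simpa using this u

theorem qr_of_flat {G U : Type} [Group G] [Group U] [Finite U] (f : U →* G) (H : Subgroup U)
    (hH : H ≠ ⊤) (hc : ∀ u v, u ≠ 1 → v ≠ 1 → IsConj (f u) (f v))
    (hN : ∀ N : Subgroup G, N.Normal → (∀ u, f u ∈ N) → N = ⊤) {D : ℕ}
    (hD : D * H.index ≤ Nat.card U) : QR G D := by
  intro d hd ρ g
  obtain ⟨v, hv⟩ : ∃ v : U, v ≠ 1 := by
    by_contra h
    push Not at h
    exact hH (by ext x; simp [h x])
  have h1 := triv_of_flat (ρ.comp f) H hH (LinearMap.trace ℝ _ (ρ (f v))) (fun u hu => ?_) ?_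
  · have h2 := hN (MonoidHom.ker ρ) inferInstance h1
    have h3 : g ∈ MonoidHom.ker ρ := h2 ▸ Subgroup.mem_top g
    exact h3
  · obtain ⟨x, hx⟩ := isConj_iff.1 (hc v u hv hu)
    show LinearMap.trace ℝ _ (ρ (f u)) = _
    rw [← hx, map_mul, LinearMap.trace_mul_comm, ← map_mul, inv_mul_cancel_left]
  · have := H.index_ne_zero_of_finite
    simp only [Module.finrank_fintype_fun_eq_card, Fintype.card_fin]
    exact lt_of_lt_of_le (Nat.mul_lt_mul_of_pos_right hd (Nat.pos_of_ne_zero this)) hD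

theorem isSquare_of_odd {G : Type} [Group G] {g : G} (h : Odd (orderOf g)) : IsSquare g := by
  obtain ⟨k, hk⟩ := h
  refine ⟨g ^ (k + 1), ?_⟩
  rw [← pow_add, show k + 1 + (k + 1) = orderOf g + 1 by omega, pow_succ, pow_orderOf_eq_one,
    one_mul]

theorem even_class {G : Type} [Group G] [Finite G] {g : G} (h1 : g * g ≠ 1) (h2 : IsConj g g⁻¹) :
    Even {x | IsConj g x}.ncard := by
  classical
  have := Fintype.ofFinite G
  rw [← coe_cl, Set.ncard_coe_finset, ← ZMod.natCast_eq_zero_iff_even, card_eq_sum_ones]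
  push_cast
  refine sum_involution (fun x _ => x⁻¹) (fun _ _ => by decide) (fun x hx _ h => h1 ?_)
    (fun x hx => ?_) (fun _ _ => inv_inv _)
  · obtain ⟨e, rfl⟩ := mem_cl.1 hx
    calc g * g = e * ((e⁻¹ * g * e) * (e⁻¹ * g * e)) * e⁻¹ := by group
      _ = 1 := by
        nth_rewrite 1 [← h]
        group
  · obtain ⟨e, rfl⟩ := mem_cl.1 hx
    obtain ⟨c, hc⟩ := isConj_iff.1 h2
    refine mem_cl.2 ⟨c⁻¹ * e, ?_⟩
    calc _ = e⁻¹ * (c * g * c⁻¹) * e := by group
      _ = _ := by rw [hc]; group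

theorem par_of {G : Type} [Group G] [Finite G]
    (h1 : ∀ g : G, ¬ IsSquare g → g * g ≠ 1 → IsConj g g⁻¹)
    (h2 : ∀ g : G, ¬ IsSquare g → g * g = 1 → ∃ a b t : G, t * t = 1 ∧ a * b = b * a ∧
      a * t = t * a ∧ b * t = t * b ∧ a ≠ b ∧ t ∉ ({1, a, b, a * b} : Set G) ∧
      IsConj g a ∧ IsConj g b ∧ IsConj g (a * b) ∧
      ∀ x : G, ¬ IsSquare x → x * x = 1 → IsConj g x) : Par G := by
  have sq : ∀ g x : G, IsConj g x → g * g = 1 → x * x = 1 := by
    intro g x h h'
    obtain ⟨c, rfl⟩ := isConj_iff.1 h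
    calc _ = c * (g * g) * c⁻¹ := by group
      _ = 1 := by rw [h']; group
  have k : ∀ K : Set G, (∀ x ∈ K, x * x = 1) → ∀ g : G, ¬ IsSquare g → g * g ≠ 1 →
      ¬ Odd ({x | IsConj g x} \ K).ncard := by
    intro K hK g hg hg'
    rw [sdiff_eq_left.2 (Set.disjoint_left.2 fun x hx hx' => hg' (sq x g hx.symm (hK x hx'))),
      Nat.not_odd_iff_even]
    exact even_class hg' (h1 g hg hg')
  by_cases h : ∃ g : G, ¬ IsSquare g ∧ g * g = 1 ∧ Odd {x | IsConj g x}.ncard
  · obtain ⟨g, g1, g2, g3⟩ := h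
    obtain ⟨a, b, t, c1, c2, c3, c4, c5, c6, c7, c8, c9, c10⟩ := h2 g g1 g2
    have n1 : ∀ x, IsConj g x → x ≠ 1 := by
      rintro x hx rfl
      exact g1 (by rw [isConj_one_left.1 hx]; exact IsSquare.one)
    refine ⟨_, Or.inr ⟨a, b, t, sq _ _ c7 g2, sq _ _ c8 g2, c1, c2, c3, c4, n1 _ c7, n1 _ c8, c5,
      rfl, c6⟩, fun x hx => ?_⟩
    by_contra hs
    by_cases hx2 : x * x = 1
    · have e1 : {y | IsConj x y} \ {1, a, b, a * b} = {y | IsConj g y} \ {a, b, a * b} := by
        ext y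
        have : IsConj x y ↔ IsConj g y :=
          ⟨fun h => (c10 x hs hx2).trans h, fun h => (c10 x hs hx2).symm.trans h⟩
        simp only [Set.mem_sdiff, Set.mem_ofPred_eq, this, Set.mem_insert_iff, not_or]
        exact ⟨fun h => ⟨h.1, h.2.2⟩, fun h => ⟨h.1, n1 y h.1, h.2⟩⟩
      have e2 : ({a, b, a * b} : Set G).ncard = 3 :=
        Set.ncard_eq_three.2 ⟨_, _, _, c5, by simpa using n1 _ c8, by simpa using n1 _ c7, rfl⟩
      have e3 := Set.ncard_sdiff_add_ncard_of_subset (s := {a, b, a * b}) (t := {y | IsConj g y})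
        (by rintro y (rfl | rfl | rfl) <;> assumption)
      rw [e1] at hx
      rw [← e3, e2] at g3
      exact (Nat.not_odd_iff_even.2 (hx.add_odd (by decide))) g3
    · refine k _ ?_ x hs hx2 hx
      rintro y (rfl | rfl | rfl | rfl)
      exacts [one_mul 1, sq _ _ c7 g2, sq _ _ c8 g2, sq _ _ c9 g2]
  · refine ⟨_, Or.inl rfl, fun x hx => ?_⟩
    by_contra hs
    by_cases hx2 : x * x = 1
    · refine h ⟨x, hs, hx2, ?_⟩
      rwa [Set.sdiff_singleton_eq_self] at hx
      exact fun h' => hs (by rw [isConj_one_left.1 h']; exact IsSquare.one)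
    · exact k _ (by simp) x hs hx2 hx

end Pool.Agent.Lib.MP_2c654c_co.Abs
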