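import Mathlib
import Pool.Agent.Lib.MP_2c654c_co.Abs.Tools

set_option autoImplicit false

namespace Pool.Agent.Lib.MP_2c654c_co.Abs

open Finset Equiv Equiv.Perm

variable {α : Type} [Fintype α] [DecidableEq α]

theorem hom_sq {ι A B : Type} [Group A] [Group B] (ψ : (ι → A) →* B) (f : ι → A)
    (h : ∀ i, f i * f i = 1) : ψ f * ψ f = 1 := by
  rw [← map_mul, show f * f = 1 from funext h, map_one]

theorem model (ι β : Type) [Fintype ι] [DecidableEq ι] [Fintype β] [DecidableEq β]
    (h : Fintype.card ι * Fintype.card β ≤ Fintype.card α) :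
    ∃ ψ : (ι → Perm β) →* Perm α, Function.Injective ψ ∧
      (∀ f, (ψ f).support.card = ∑ i, (f i).support.card) ∧
      ∀ f, sign (ψ f) = ∏ i, sign (f i) := by
  classical
  obtain ⟨e⟩ : Nonempty (ι × β ↪ α) := Function.Embedding.nonempty_of_card_le (by simpa using h)
  let φ : (ι → Perm β) →* Perm (ι × β) :=
    { toFun := fun f => prodCongrRight f
      map_one' := by ext ⟨i, x⟩ <;> simp
      map_mul' := fun f g => by ext ⟨i, x⟩ <;> simp }
  let e' : ι × β ≃ {x // x ∈ Set.range e} := Equiv.ofInjective e e.injective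
  refine ⟨(extendDomainHom e').comp φ, (extendDomainHom_injective e').comp fun f g hfg => ?_,
    fun f => ?_, fun f => ?_⟩
  · ext i x
    have := congrArg (fun σ : Perm (ι × β) => (σ (i, x)).2) hfg
    simpa [φ] using this
  · show (Perm.extendDomain (prodCongrRight f) e').support.card = _
    rw [card_support_extend_domain]
    simp only [Perm.support, card_filter, Fintype.sum_prod_type, prodCongrRight_apply, ne_eq,
      Prod.mk.injEq, true_and]
  · show sign (Perm.extendDomain (prodCongrRight f) e') = _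
    rw [sign_extendDomain, sign_prodCongrRight]

theorem inv_conj {σ τ : Perm α} (h1 : σ * σ = 1) (h2 : τ * τ = 1)
    (h : σ.support.card = τ.support.card) : IsConj σ τ := by
  have a1 := cycleType_of_pow_prime_eq_one (p := 2) (by rw [sq]; exact h1)
  have a2 := cycleType_of_pow_prime_eq_one (p := 2) (by rw [sq]; exact h2)
  rw [← sum_cycleType, ← sum_cycleType, a1, a2] at h
  simp only [Multiset.sum_replicate, smul_eq_mul] at h
  rw [isConj_iff_cycleType_eq, a1, a2, show σ.cycleType.card = τ.cycleType.card by omega]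

theorem inv_four {σ : Perm α} (h1 : σ * σ = 1) (h2 : sign σ = 1) : 4 ∣ σ.support.card := by
  have a1 := cycleType_of_pow_prime_eq_one (p := 2) (by rw [sq]; exact h1)
  rw [sign_of_cycleType, a1] at h2
  rw [← sum_cycleType, a1]
  simp only [Multiset.sum_replicate, smul_eq_mul, Multiset.card_replicate] at h2 ⊢
  have := (neg_one_pow_eq_one_iff_even (by decide)).1 h2
  obtain ⟨k, hk⟩ := this
  omega

theorem conj_alt {σ τ : alternatingGroup α} (h : IsConj (σ : Perm α) τ) {c : Perm α}
    (hc : c * σ = σ * c) (hs : sign c = -1) : IsConj σ τ := by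
  obtain ⟨z, hz⟩ := isConj_iff.1 h
  rcases Int.units_eq_one_or (sign z) with h1 | h1
  · exact isConj_iff.2 ⟨⟨z, h1⟩, Subtype.ext hz⟩
  · refine isConj_iff.2 ⟨⟨z * c, by simp [h1, hs]⟩, Subtype.ext ?_⟩
    show z * c * σ * (z * c)⁻¹ = τ
    rw [mul_assoc z, hc, ← hz]; group

theorem inv_swap {σ : Perm α} (h1 : σ * σ = 1) (h2 : σ ≠ 1) :
    ∃ x y, x ≠ y ∧ swap x y * σ = σ * swap x y := by
  obtain ⟨x, hx⟩ : ∃ x, σ x ≠ x := by
    by_contra h
    push Not at h
    exact h2 (Equiv.ext h)
  refine ⟨x, σ x, hx.symm, ?_⟩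
  rw [mul_swap_eq_swap_mul, ← Perm.mul_apply, h1, swap_comm]; rfl

theorem inv_conj_alt {σ τ : alternatingGroup α} (h1 : σ * σ = 1) (h2 : τ * τ = 1)
    (h : (σ : Perm α).support.card = (τ : Perm α).support.card) : IsConj σ τ := by
  have a1 : (σ : Perm α) * σ = 1 := congrArg Subtype.val h1
  have a2 : (τ : Perm α) * τ = 1 := congrArg Subtype.val h2
  by_cases h0 : (σ : Perm α) = 1
  · have h3 : (τ : Perm α) = 1 := by
      rw [h0, support_one, card_empty, eq_comm, card_eq_zero, support_eq_empty_iff] at h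
      exact h
    rw [show σ = τ from Subtype.ext (h0.trans h3.symm)]
  · obtain ⟨x, y, hxy, hc⟩ := inv_swap a1 h0
    exact conj_alt (inv_conj a1 a2 h) hc (sign_swap hxy)

theorem real_alt (g : alternatingGroup α) (h : ¬ IsSquare g) : IsConj g g⁻¹ := by
  by_cases hc : Subgroup.centralizer {(g : Perm α)} ≤ alternatingGroup α
  · refine absurd (isSquare_of_odd ?_) h
    rw [← Subgroup.orderOf_coe, ← lcm_cycleType, ← Nat.coprime_two_left]
    have := OnCycleFactors.odd_of_centralizer_le_alternatingGroup hc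
    generalize (g : Perm α).cycleType = m at this
    induction m using Multiset.induction_on with
    | empty => simp
    | cons a m ih =>
      rw [Multiset.lcm_cons]
      refine Nat.Coprime.coprime_dvd_right (lcm_dvd_mul _ _) (Nat.Coprime.mul_right ?_ ?_)
      · exact Nat.coprime_two_left.2 (this a (by simp))
      · exact ih fun i hi => this i (by simp [hi])
  · obtain ⟨c, h1, h2⟩ := SetLike.not_le_iff_exists.1 hc
    refine conj_alt (c := c) (isConj_iff_cycleType_eq.2 (cycleType_inv _).symm)
      (Subgroup.mem_centralizer_singleton_iff.1 h1) ?_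
    exact (Int.units_eq_one_or _).resolve_left h2

omit [Fintype α] [DecidableEq α] in
theorem two_inv (g : Perm α) : ∃ σ τ : Perm α, σ * σ = 1 ∧ τ * τ = 1 ∧ g = σ * τ := by
  let b : α → α := fun x => (Quotient.mk (SameCycle.setoid g) x).out
  have hb : ∀ x, SameCycle g (b x) x := fun x => Quotient.mk_out (s := SameCycle.setoid g) x
  have hb' : ∀ x y, SameCycle g x y → b x = b y := fun x y h => by
    simp only [b]; rw [Quotient.sound (s := SameCycle.setoid g) h]
  choose i hi using hb
  let s : α → α := fun x => (g ^ (-i x)) (b x)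
  have key : ∀ x (j : ℤ), s ((g ^ j) (b x)) = (g ^ (-j)) (b x) := by
    intro x j
    have h1 : b ((g ^ j) (b x)) = b x := by
      rw [← hb' (b x) _ ⟨j, rfl⟩, hb' _ _ ⟨i x, hi x⟩]
    have h2 := hi ((g ^ j) (b x))
    simp only [s]
    rw [h1] at h2 ⊢
    generalize i ((g ^ j) (b x)) = k at h2
    calc (g ^ (-k)) (b x) = (g ^ (-k - j)) ((g ^ j) (b x)) := by
          rw [← Perm.mul_apply, ← zpow_add]; congr 2; ring
      _ = _ := by rw [← h2, ← Perm.mul_apply, ← zpow_add]; congr 2; ring
  have h1 : Function.Involutive s := fun x => by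
    show s ((g ^ (-i x)) (b x)) = x
    rw [key, neg_neg, hi]
  have h2 : ∀ x, g (s (g x)) = s x := fun x => by
    have : g x = (g ^ (1 + i x)) (b x) := by rw [zpow_add, Perm.mul_apply, hi, zpow_one]
    rw [this, key, ← Perm.mul_apply]
    show _ = (g ^ (-i x)) (b x)
    congr 1; group
  refine ⟨h1.toPerm s, h1.toPerm s * g, ?_, ?_, ?_⟩
  · ext x; exact h1 x
  · ext x
    show s (g (s (g x))) = x
    rw [h2, h1]
  · ext x; exact (h1 (g x)).symm

theorem inv_comm {σ : Perm α} (h1 : σ * σ = 1) (h2 : sign σ = 1) :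
    ∃ x y : alternatingGroup α, σ = x * y * x⁻¹ * y⁻¹ := by
  obtain ⟨k, hk⟩ := inv_four h1 h2
  obtain ⟨ψ, -, a1, a2⟩ := model (α := α) (Fin k) (Fin 4) (by
    have := card_le_univ σ.support
    simp only [Fintype.card_fin]; omega)
  let x : Perm (Fin 4) := swap 0 1 * swap 1 2
  let y : Perm (Fin 4) := swap 0 1 * swap 2 3
  let a : Perm (Fin 4) := x * y * x⁻¹ * y⁻¹
  have h3 : IsConj (ψ fun _ => a) σ := by
    refine inv_conj ?_ h1 ?_
    · exact hom_sq ψ _ fun _ => by decide
    · rw [a1, hk, sum_const, show a.support.card = 4 by decide]; simp [mul_comm]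
  obtain ⟨z, hz⟩ := isConj_iff.1 h3
  have m : ∀ u : Perm (Fin 4), sign u = 1 → z * (ψ fun _ => u) * z⁻¹ ∈ alternatingGroup α :=
    fun u hu => alternatingGroup.normal.conj_mem _ (by simp [a2, hu]) z
  refine ⟨⟨_, m x (by decide)⟩, ⟨_, m y (by decide)⟩, ?_⟩
  have h4 : (ψ fun _ => a) = (ψ fun _ => x) * (ψ fun _ => y) * (ψ fun _ => x)⁻¹ *
      (ψ fun _ => y)⁻¹ := by
    rw [← map_inv, ← map_inv, ← map_mul, ← map_mul, ← map_mul]; rfl
  rw [← hz, h4]
  simp only [Subgroup.coe_inv]; group

theorem exists_two (S : Finset α) (h : S.card + 2 ≤ Fintype.card α) :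
    ∃ x y, x ≠ y ∧ x ∉ S ∧ y ∉ S := by
  obtain ⟨x, hx, y, hy, hxy⟩ := one_lt_card.1 (show 1 < Sᶜ.card by rw [card_compl]; omega)
  exact ⟨x, y, hxy, mem_compl.1 hx, mem_compl.1 hy⟩

omit [Fintype α] in
theorem swap_comm' {σ : Perm α} {x y : α} (hx : σ x = x) (hy : σ y = y) :
    swap x y * σ = σ * swap x y := by
  rw [mul_swap_eq_swap_mul, hx, hy]

theorem cw_alt (h : 6 ≤ Fintype.card α) : CW (alternatingGroup α) 4 := by
  rintro ⟨g, hg⟩
  obtain ⟨σ, τ, h1, h2, rfl⟩ := two_inv g
  rw [mem_alternatingGroup, map_mul] at hg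
  rcases Int.units_eq_one_or (sign σ) with s1 | s1
  · rw [s1, one_mul] at hg
    obtain ⟨x, y, e1⟩ := inv_comm h1 s1
    obtain ⟨z, w, e2⟩ := inv_comm h2 hg
    exact ⟨[(x, y), (z, w)], by simp, Subtype.ext (by simp [cprod, e1, e2])⟩
  · have s2 : sign τ = -1 := by
      rw [s1] at hg; simpa [neg_eq_iff_eq_neg] using hg
    obtain ⟨a, b, ab, c1⟩ := inv_swap h1 (by rintro rfl; simp at s1)
    obtain ⟨c, d, cd, c2⟩ := inv_swap h2 (by rintro rfl; simp at s2)
    obtain ⟨u, v, uv, hu, hv⟩ := exists_two ({a, b, c, d} : Finset α) (by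
      have : ({a, b, c, d} : Finset α).card ≤ 4 := card_le_four
      omega)
    simp only [mem_insert, mem_singleton, not_or] at hu hv
    have c3 : swap u v * swap a b = swap a b * swap u v :=
      swap_comm' (swap_apply_of_ne_of_ne hu.1 hu.2.1) (swap_apply_of_ne_of_ne hv.1 hv.2.1)
    have c4 : swap u v * swap c d = swap c d * swap u v :=
      swap_comm' (swap_apply_of_ne_of_ne hu.2.2.1 hu.2.2.2)
        (swap_apply_of_ne_of_ne hv.2.2.1 hv.2.2.2)
    have k : ∀ p q : Perm α, p * p = 1 → q * q = 1 → q * p = p * q → p * q * (p * q) = 1 := by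
      intro p q a1 a2 a3
      rw [mul_assoc, ← mul_assoc q, a3, mul_assoc, a2, mul_one, a1]
    obtain ⟨x1, y1, e1⟩ := inv_comm (k σ (swap a b) h1 (swap_mul_self _ _) c1) (by simp [s1, ab])
    obtain ⟨x2, y2, e2⟩ := inv_comm (k (swap a b) (swap u v) (swap_mul_self _ _)
      (swap_mul_self _ _) c3) (by simp [uv, ab])
    obtain ⟨x3, y3, e3⟩ := inv_comm (k (swap u v) (swap c d) (swap_mul_self _ _)
      (swap_mul_self _ _) c4.symm) (by simp [uv, cd])
    obtain ⟨x4, y4, e4⟩ := inv_comm (k (swap c d) τ (swap_mul_self _ _) h2 c2.symm)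
      (by simp [s2, cd])
    refine ⟨[(x1, y1), (x2, y2), (x3, y3), (x4, y4)], by simp, Subtype.ext ?_⟩
    simp only [cprod, List.map_cons, List.map_nil, List.prod_cons, List.prod_nil, mul_one,
      Subgroup.coe_mul, ← e1, ← e2, ← e3, ← e4]
    simp [mul_assoc]

theorem cent_alt (h : 19 ≤ Fintype.card α) (g : alternatingGroup α) :
    8 ≤ Nat.card (Subgroup.centralizer ({g} : Set (alternatingGroup α))) := by
  have h1 : 16 ≤ Nat.card (Subgroup.centralizer ({(g : Perm α)} : Set (Perm α))) := by
    rw [nat_card_centralizer]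
    have a1 : ∀ m : Multiset ℕ, (∀ i ∈ m, 2 ≤ i) → m.sum ≤ m.prod ∧ (m ≠ 0 → 2 ≤ m.prod) := by
      intro m
      induction m using Multiset.induction_on with
      | empty => simp
      | cons a m ih =>
        intro hm
        have b1 := hm a (by simp)
        obtain ⟨b2, b3⟩ := ih fun i hi => hm i (by simp [hi])
        by_cases b4 : m = 0
        · simp [b4, b1]
        · have := b3 b4
          rw [Multiset.sum_cons, Multiset.prod_cons]
          exact ⟨by nlinarith, fun _ => by nlinarith⟩
    have a2 := (a1 _ fun i hi => two_le_of_mem_cycleType (σ := (g : Perm α)) hi).1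
    have a3 : 0 < (g : Perm α).cycleType.prod :=
      Multiset.prod_pos fun i hi => by have := two_le_of_mem_cycleType hi; omega
    refine le_trans ?_ (Nat.le_mul_of_pos_right _ (prod_pos fun _ _ => Nat.factorial_pos _))
    by_cases a4 : 4 ≤ Fintype.card α - (g : Perm α).cycleType.sum
    · have := Nat.factorial_le a4
      rw [show Nat.factorial 4 = 24 from rfl] at this
      nlinarith
    · exact le_trans (by omega) (Nat.le_mul_of_pos_left _ (Nat.factorial_pos _))
  have h2 := ((alternatingGroup α).subgroupOf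
    (Subgroup.centralizer ({(g : Perm α)} : Set (Perm α)))).card_mul_index
  have : Nontrivial α := Fintype.one_lt_card_iff_nontrivial.1 (by omega)
  have h3 : ((alternatingGroup α).subgroupOf
      (Subgroup.centralizer ({(g : Perm α)} : Set (Perm α)))).index ≤ 2 :=
    Nat.le_of_dvd two_pos (alternatingGroup.index_eq_two (α := α) ▸
      Subgroup.relIndex_dvd_index_of_normal _ _)
  have h4 : Nat.card ((alternatingGroup α).subgroupOf
      (Subgroup.centralizer ({(g : Perm α)} : Set (Perm α)))) ≤
      Nat.card (Subgroup.centralizer ({g} : Set (alternatingGroup α))) := by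
    refine Nat.card_le_card_of_injective (fun x => ⟨⟨x.1.1, x.2⟩, ?_⟩) fun x y hxy => ?_
    · rw [Subgroup.mem_centralizer_singleton_iff]
      exact Subtype.ext (Subgroup.mem_centralizer_singleton_iff.1 x.1.2)
    · exact Subtype.ext (Subtype.ext (congrArg (fun z => z.1.1) hxy))
  nlinarith

theorem sq_alt (g : alternatingGroup α) (h1 : g * g = 1) {k : ℕ}
    (hk : (g : Perm α).support.card = 4 * k) (h2 : Even k ∨ 4 * k + 2 ≤ Fintype.card α) :
    IsSquare g := by
  obtain ⟨ψ, -, a1, a2⟩ := model (α := α) (Fin k) (Fin 4) (by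
    have := card_le_univ (g : Perm α).support
    simp only [Fintype.card_fin]; omega)
  let c : Perm (Fin 4) := swap 0 1 * swap 1 2 * swap 2 3
  have h3 : ∃ r : alternatingGroup α, (r : Perm α) * r = ψ fun _ => c * c := by
    have e : (ψ fun _ => c) * (ψ fun _ => c) = ψ fun _ => c * c := by rw [← map_mul]; rfl
    by_cases h3 : Even k
    · refine ⟨⟨ψ fun _ => c, ?_⟩, e⟩
      rw [mem_alternatingGroup, a2, show sign c = -1 by decide]
      simp [h3.neg_one_pow]
    · obtain ⟨u, v, uv, hu, hv⟩ := exists_two (ψ fun _ => c).support (by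
        rw [a1, sum_const, show c.support.card = 4 by decide]
        have := h2.resolve_left h3
        simp only [card_univ, Fintype.card_fin, smul_eq_mul]; omega)
      have e2 := swap_comm' (notMem_support.1 hu) (notMem_support.1 hv)
      refine ⟨⟨(ψ fun _ => c) * swap u v, ?_⟩, ?_⟩
      · rw [mem_alternatingGroup, map_mul, a2, show sign c = -1 by decide]
        simp [(Nat.not_even_iff_odd.1 h3).neg_one_pow, uv]
      · show (ψ fun _ => c) * swap u v * ((ψ fun _ => c) * swap u v) = _
        rw [mul_assoc, ← mul_assoc (swap u v), e2, mul_assoc, swap_mul_self, mul_one, e]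
  obtain ⟨r, hr⟩ := h3
  have h4 : IsConj (r * r) g := by
    refine inv_conj_alt (Subtype.ext ?_) h1 ?_
    · show (r : Perm α) * r * (r * r) = 1
      rw [hr]
      exact hom_sq ψ _ fun _ => by decide
    · rw [Subgroup.coe_mul, hr, a1, hk, sum_const, show (c * c).support.card = 4 by decide]
      simp [mul_comm]
  obtain ⟨z, hz⟩ := isConj_iff.1 h4
  exact ⟨z * r * z⁻¹, by rw [← hz]; group⟩

theorem par_alt (h : 6 ≤ Fintype.card α) : Par (alternatingGroup α) := by
  refine par_of (fun g hg _ => real_alt g hg) fun g hg h1 => ?_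
  have key : ∀ x : alternatingGroup α, ¬ IsSquare x → x * x = 1 →
      (x : Perm α).support.card = 4 * (Fintype.card α / 4) ∧ Odd (Fintype.card α / 4) ∧
        Fintype.card α ≤ 4 * (Fintype.card α / 4) + 1 := by
    intro x hx hx1
    obtain ⟨k, hk⟩ := inv_four (congrArg Subtype.val hx1) x.2
    have a1 := fun h => hx (sq_alt x hx1 hk h)
    have a2 := card_le_univ (x : Perm α).support
    simp only [imp_false, not_or, Nat.not_even_iff_odd] at a1
    rw [show Fintype.card α / 4 = k by omega]
    exact ⟨hk, a1.1, by omega⟩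
  obtain ⟨b1, b2, b3⟩ := key g hg h1
  obtain ⟨k, hk⟩ : ∃ k, Fintype.card α / 4 = k + 2 := ⟨Fintype.card α / 4 - 2, by omega⟩
  obtain ⟨ψ, a0, a1, a2⟩ := model (α := α) (Fin (k + 2)) (Fin 4) (by
    simp only [Fintype.card_fin]; omega)
  let a : Perm (Fin 4) := swap 0 1 * swap 2 3
  let b : Perm (Fin 4) := swap 0 2 * swap 1 3
  let t : Fin (k + 2) → Perm (Fin 4) := fun i => if i = 0 then a else 1
  have m : ∀ u : Perm (Fin 4), sign u = 1 → (ψ fun _ => u) ∈ alternatingGroup α :=
    fun u hu => by simp [a2, hu]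
  have mt : ψ t ∈ alternatingGroup α := by
    rw [mem_alternatingGroup, a2]
    refine prod_eq_one fun i _ => ?_
    simp only [t]; split_ifs
    · decide
    · simp
  have c : ∀ (u : Perm (Fin 4)) (hu : sign u = 1), u * u = 1 → u.support.card = 4 →
      IsConj g ⟨_, m u hu⟩ := by
    intro u hu e1 e2
    refine inv_conj_alt h1 (Subtype.ext ?_) ?_
    · exact hom_sq ψ _ fun _ => e1
    · rw [b1, hk, a1, sum_const, e2]; simp [mul_comm]
  have e : ∀ f f' : Fin (k + 2) → Perm (Fin 4), (∀ i, f i * f' i = f' i * f i) →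
      ψ f * ψ f' = ψ f' * ψ f := fun f f' hf => by
    rw [← map_mul, ← map_mul, show f * f' = f' * f from funext hf]
  have eab : (⟨_, m a (by decide)⟩ * ⟨_, m b (by decide)⟩ : alternatingGroup α) =
      ⟨_, m (a * b) (by decide)⟩ := Subtype.ext (map_mul ψ _ _).symm
  refine ⟨⟨_, m a (by decide)⟩, ⟨_, m b (by decide)⟩, ⟨_, mt⟩, Subtype.ext ?_,
    Subtype.ext (e _ _ fun _ => by decide), Subtype.ext (e _ _ fun i => ?_),
    Subtype.ext (e _ _ fun i => ?_), fun h => ?_, ?_, c a (by decide) (by decide) (by decide),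
    c b (by decide) (by decide) (by decide), eab ▸ c (a * b) (by decide) (by decide) (by decide),
    fun x hx hx1 => ?_⟩
  · refine hom_sq ψ t fun i => ?_
    simp only [t]; split_ifs
    · decide
    · simp
  · simp only [t]; split_ifs <;> simp
  · simp only [t]; split_ifs
    · decide
    · simp
  · exact absurd (congrFun (a0 (congrArg Subtype.val h)) 0) (by decide)
  · rw [eab]
    have n : ∀ u : Perm (Fin 4), ψ t ≠ ψ fun _ => u := fun u hu => by
      have e0 := congrFun (a0 hu) 0
      have e1 := congrFun (a0 hu) 1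
      simp only [t, if_true] at e0 e1
      rw [if_neg (by simp), ← e0] at e1
      exact absurd e1 (by decide)
    rintro (h | h | h | h)
    · exact n 1 ((congrArg Subtype.val h).trans (map_one ψ).symm)
    all_goals exact n _ (congrArg Subtype.val h)
  · exact inv_conj_alt h1 hx1 (b1.trans (key x hx hx1).1.symm)

theorem qr_alt {D : ℕ} (h5 : 5 ≤ Fintype.card α) (h : 2 ^ (D + 2) ≤ Fintype.card α) :
    QR (alternatingGroup α) D := by
  let U := Fin (D + 2) → Multiplicative (ZMod 2)
  have hU : Fintype.card U = 2 ^ (D + 2) := by simp [U]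
  have u2 : ∀ u : U, u * u = 1 := fun u => by
    ext i
    show u i * u i = 1
    generalize u i = x
    revert x; decide
  obtain ⟨ψ, a0, a1, -⟩ := model (α := α) Unit U (by simpa [hU] using h)
  let φ : U →* Perm α := ψ.comp (MonoidHom.pi fun _ => MulAction.toPermHom U U)
  have s : ∀ u : U, u ≠ 1 → (φ u).support.card = 2 ^ (D + 2) := by
    intro u hu
    have : Perm.support (MulAction.toPerm u : Perm U) = univ := by
      ext x; simp [hu]
    simp [φ, a1, this, hU]
  have q : ∀ u, φ u * φ u = 1 := fun u => by rw [← map_mul, u2, map_one]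
  have m : ∀ u, φ u ∈ alternatingGroup α := by
    intro u
    by_cases hu : u = 1
    · simp [hu]
    · have a1 := cycleType_of_pow_prime_eq_one (p := 2) (by rw [sq]; exact q u)
      have a2 := s u hu
      rw [← sum_cycleType, a1] at a2
      rw [mem_alternatingGroup, sign_of_cycleType, a1]
      simp only [Multiset.sum_replicate, smul_eq_mul, Multiset.card_replicate] at a2 ⊢
      refine Even.neg_one_pow ⟨3 * 2 ^ D, ?_⟩
      rw [pow_add] at a2; omega
  let π : U →* Multiplicative (ZMod 2) := Pi.evalMonoidHom (fun _ => Multiplicative (ZMod 2)) 0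
  have hπ : Function.Surjective π := fun x => ⟨fun _ => x, rfl⟩
  have hi : π.ker.index = 2 := by
    rw [Subgroup.index_ker, MonoidHom.range_eq_top.2 hπ]; simp
  have := alternatingGroup.isSimpleGroup (α := α) (by simpa using h5)
  refine qr_of_flat (φ.codRestrict _ m) π.ker (fun h => by simp [h] at hi) (fun u v hu hv => ?_)
    (fun N hN h => ?_) ?_
  · exact inv_conj_alt (Subtype.ext (q u)) (Subtype.ext (q v)) ((s u hu).trans (s v hv).symm)
  · refine (hN.eq_bot_or_eq_top).resolve_left fun h0 => ?_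
    obtain ⟨u, hu⟩ := hπ (Multiplicative.ofAdd 1)
    have h1 := s u (by rintro rfl; rw [map_one] at hu; exact absurd hu (by decide))
    have h3 := h u
    rw [h0, Subgroup.mem_bot] at h3
    have h2 : φ u = 1 := congrArg Subtype.val h3
    rw [h2] at h1
    exact absurd h1.symm (by simp)
  · rw [hi, Nat.card_eq_fintype_card, hU, pow_add]
    have := Nat.lt_two_pow_self (n := D)
    omega

theorem root_alt : ∃ N : ℕ, ∀ (α : Type) [Fintype α] [DecidableEq α], N ≤ Fintype.card α →
    HasRoot (alternatingGroup α) := by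
  obtain ⟨D, H⟩ := criterion 4
  refine ⟨2 ^ (D + 2) + 19, fun α _ _ h => ?_⟩
  have h1 : 19 ≤ Fintype.card α := le_trans (Nat.le_add_left _ _) h
  exact H _ (qr_alt (by omega) (le_trans (Nat.le_add_right _ _) h))
    (alternatingGroup.center_eq_bot (by rw [Nat.card_eq_fintype_card]; omega)) (cw_alt (by omega))
    (cent_alt (by omega)) (par_alt (by omega))

end Pool.Agent.Lib.MP_2c654c_co.Abs
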